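import Pool.Agent.helper8.Tilt.S

/-!
The window algebra: lower triangular `7 × 7` matrices `a` over the graded algebra `S`
with `a i j` homogeneous of degree `i - j`.
-/

set_option autoImplicit false
universe u

namespace Pool.Agent.Helper8.Tilt

open S

section gpr
variable {k : Type u} [CommRing k]

/-- The homogeneous part of degree `i - j` (zero if `i < j`). -/
def gpr (i j : ℕ) : S k →ₗ[k] S k := if j ≤ i then pr (i - j) else 0

theorem gpr_of_le {i j : ℕ} (h : j ≤ i) (s : S k) : gpr i j s = pr (i - j) s := by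
  simp [gpr, h]

theorem gpr_of_lt {i j : ℕ} (h : i < j) (s : S k) : gpr i j s = 0 := by
  simp [gpr, not_le.2 h]

theorem gpr_add (j d : ℕ) (s : S k) : gpr (j + d) j s = pr d s := by
  rw [gpr_of_le (by omega)]; congr 2; omega

theorem gpr_self (j : ℕ) (s : S k) : gpr j j s = pr 0 s := by
  rw [gpr_of_le le_rfl]; congr 2; omega

theorem gpr_of_far {i j : ℕ} (h : j + 4 ≤ i) (s : S k) : gpr i j s = 0 := by
  rw [gpr_of_le (by omega), pr_of_ge (by omega)]

theorem pr_gpr {i j d : ℕ} (h : i ≠ j + d) (s : S k) : pr d (gpr i j s) = 0 := by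
  by_cases hij : j ≤ i
  · rw [gpr_of_le hij, pr_pr_ne (by omega)]
  · rw [gpr_of_lt (by omega), map_zero]

theorem gpr_gpr_self (i j : ℕ) (s : S k) : gpr i j (gpr i j s) = gpr i j s := by
  by_cases hij : j ≤ i
  · rw [gpr_of_le hij, gpr_of_le hij, pr_pr_self]
  · rw [gpr_of_lt (by omega), gpr_of_lt (by omega)]

theorem gpr_gpr_ne {i i' j : ℕ} (h : i ≠ i') (s : S k) : gpr i j (gpr i' j s) = 0 := by
  by_cases hij : j ≤ i
  · rw [gpr_of_le hij, pr_gpr (by omega)]
  · rw [gpr_of_lt (by omega)]

/-- homogeneity of degree `i - j` -/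
def Hom' (i j : ℕ) (s : S k) : Prop := ∀ d : ℕ, i ≠ j + d → pr d s = 0

theorem hom_iff {i j : ℕ} {s : S k} : Hom' i j s ↔ gpr i j s = s := by
  constructor
  · intro h
    by_cases hij : j ≤ i
    · obtain ⟨e, rfl⟩ := Nat.exists_eq_add_of_le hij
      rw [gpr_add]
      have hs := pr_sum s
      have h' : ∀ d, d ≠ e → pr d s = 0 := fun d hd => h d (by omega)
      obtain rfl | rfl | rfl | rfl | he : e = 0 ∨ e = 1 ∨ e = 2 ∨ e = 3 ∨ 4 ≤ e := by omega
      · rw [h' 1 (by omega), h' 2 (by omega), h' 3 (by omega)] at hs; simpa using hs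
      · rw [h' 0 (by omega), h' 2 (by omega), h' 3 (by omega)] at hs; simpa using hs
      · rw [h' 0 (by omega), h' 1 (by omega), h' 3 (by omega)] at hs; simpa using hs
      · rw [h' 0 (by omega), h' 1 (by omega), h' 2 (by omega)] at hs; simpa using hs
      · rw [h' 0 (by omega), h' 1 (by omega), h' 2 (by omega), h' 3 (by omega)] at hs
        rw [pr_of_ge he]; simpa using hs
    · rw [gpr_of_lt (by omega)]
      have hs := pr_sum s
      rw [h 0 (by omega), h 1 (by omega), h 2 (by omega), h 3 (by omega)] at hs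
      simpa using hs
  · intro h d hd
    rw [← h, pr_gpr hd]

theorem hom_gpr (i j : ℕ) (s : S k) : Hom' i j (gpr i j s) := fun _ h => pr_gpr h s

theorem Hom'.mul {i l j : ℕ} {s t : S k} (hs : Hom' i l s) (ht : Hom' l j t) :
    Hom' i j (s * t) := by
  intro d hd
  rw [← hom_iff.1 hs, ← hom_iff.1 ht]
  by_cases h1 : l ≤ i
  · by_cases h2 : j ≤ l
    · rw [gpr_of_le h1, gpr_of_le h2, pr_mul_pr, if_neg (by omega)]
    · rw [gpr_of_lt (i := l) (by omega), mul_zero, map_zero]
  · rw [gpr_of_lt (i := i) (by omega), zero_mul, map_zero]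

theorem Hom'.zero (i j : ℕ) : Hom' i j (0 : S k) := fun _ _ => map_zero _

theorem Hom'.add {i j : ℕ} {s t : S k} (hs : Hom' i j s) (ht : Hom' i j t) :
    Hom' i j (s + t) := fun d hd => by rw [map_add, hs d hd, ht d hd, add_zero]

theorem Hom'.sum {i j : ℕ} {α : Type} (T : Finset α) {f : α → S k}
    (h : ∀ x ∈ T, Hom' i j (f x)) : Hom' i j (∑ x ∈ T, f x) := by
  intro d hd
  rw [map_sum]
  exact Finset.sum_eq_zero fun x hx => h x hx d hd

theorem Hom'.smul {i j : ℕ} {s : S k} (a : k) (hs : Hom' i j s) :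
    Hom' i j (a • s) := fun d hd => by rw [map_smul, hs d hd, smul_zero]

theorem hom_one (i : ℕ) : Hom' i i (1 : S k) := by
  intro d hd
  rw [pr_one, if_neg (by omega)]

theorem Hom'.gpr_ne {i i' j : ℕ} {s : S k} (hs : Hom' i' j s) (h : i ≠ i') :
    gpr i j s = 0 := by
  rw [← hom_iff.1 hs, gpr_gpr_ne h]

/-- multiplying by a homogeneous element on the right -/
theorem gpr_mul_right {i j : ℕ} {s : S k} (hs : Hom' i j s) (m : ℕ) (t : S k) :
    gpr m j (t * s) = gpr m i t * s := by
  have ht := pr_sum t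
  have key : ∀ d, gpr m j (pr d t * s) = gpr m i (pr d t) * s := by
    intro d
    have h1 : Hom' (i + d) i (pr d t) := by
      rw [← gpr_add i d]; exact hom_gpr _ _ _
    have h2 := h1.mul hs
    by_cases h : m = i + d
    · subst h
      rw [hom_iff.1 h1, hom_iff.1 h2]
    · rw [h2.gpr_ne h, h1.gpr_ne h, zero_mul]
  calc gpr m j (t * s) = gpr m j ((pr 0 t + pr 1 t + pr 2 t + pr 3 t) * s) := by rw [ht]
    _ = gpr m i (pr 0 t + pr 1 t + pr 2 t + pr 3 t) * s := by
      simp only [add_mul, map_add, key]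
    _ = _ := by rw [ht]

theorem sum_gpr {j : ℕ} (hj : j ≤ 3) (s : S k) : ∑ i : Fin 7, gpr (i : ℕ) j s = s := by
  have hs := pr_sum s
  rw [Fin.sum_univ_seven]
  obtain rfl | rfl | rfl | rfl : j = 0 ∨ j = 1 ∨ j = 2 ∨ j = 3 := by omega
  all_goals simpa [gpr, pr_of_ge] using hs

theorem sum_gpr_hom {i j : ℕ} (hi : i < 7) {s : S k} (hs : Hom' i j s) :
    ∑ l : Fin 7, gpr (l : ℕ) j s = s := by
  rw [Finset.sum_eq_single ⟨i, hi⟩]
  · exact hom_iff.1 hs
  · intro b _ hb
    exact hs.gpr_ne fun h => hb (Fin.ext h)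
  · simp

end gpr

variable (k : Type u) [Field k]

/-- The window algebra as a subalgebra of a matrix algebra. -/
def W : Subalgebra k (Matrix (Fin 7) (Fin 7) (S k)) where
  carrier := {a | ∀ i j : Fin 7, Hom' (i : ℕ) (j : ℕ) (a i j)}
  mul_mem' := by
    intro a b ha hb i j
    rw [Matrix.mul_apply]
    exact Hom'.sum _ fun l _ => (ha i l).mul (hb l j)
  add_mem' := by
    intro a b ha hb i j
    exact (ha i j).add (hb i j)
  algebraMap_mem' := by
    intro r i j
    rw [Matrix.algebraMap_matrix_apply]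
    split_ifs with h
    · subst h
      rw [algebraMap_def]
      exact (hom_one _).smul r
    · exact Hom'.zero _ _

/-- The window algebra. -/
def Alg : Type u := W k

noncomputable instance : Ring (Alg k) := inferInstanceAs (Ring (W k))
noncomputable instance : Algebra k (Alg k) := inferInstanceAs (Algebra k (W k))

variable {k}

/-- matrix entries -/
def ent (a : Alg k) (i j : Fin 7) : S k := (a.1 : Matrix (Fin 7) (Fin 7) (S k)) i j

theorem ent_hom (a : Alg k) (i j : Fin 7) : Hom' (i : ℕ) (j : ℕ) (ent a i j) := a.2 i j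

/-- constructor from entries -/
def mkA (f : Fin 7 → Fin 7 → S k) (hf : ∀ i j : Fin 7, Hom' (i : ℕ) (j : ℕ) (f i j)) : Alg k :=
  ⟨Matrix.of f, hf⟩

@[simp] theorem ent_mkA (f : Fin 7 → Fin 7 → S k) (hf) (i j : Fin 7) :
    ent (mkA f hf) i j = f i j := rfl

theorem Alg.ext {a b : Alg k} (h : ∀ i j, ent a i j = ent b i j) : a = b := by
  apply Subtype.ext
  ext1 i j
  exact h i j

@[simp] theorem ent_add (a b : Alg k) (i j : Fin 7) : ent (a + b) i j = ent a i j + ent b i j :=
  rfl
@[simp] theorem ent_zero (i j : Fin 7) : ent (0 : Alg k) i j = 0 := rfl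
@[simp] theorem ent_smul (r : k) (a : Alg k) (i j : Fin 7) : ent (r • a) i j = r • ent a i j :=
  rfl
theorem ent_mul (a b : Alg k) (i j : Fin 7) : ent (a * b) i j = ∑ l, ent a i l * ent b l j :=
  rfl
theorem ent_one (i j : Fin 7) : ent (1 : Alg k) i j = if i = j then 1 else 0 := by
  change (1 : Matrix (Fin 7) (Fin 7) (S k)) i j = _
  rw [Matrix.one_apply]
theorem ent_sum {α : Type} (T : Finset α) (f : α → Alg k) (i j : Fin 7) :
    ent (∑ x ∈ T, f x) i j = ∑ x ∈ T, ent (f x) i j := by
  classical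
  induction T using Finset.induction_on with
  | empty => simp
  | insert a s ha ih => rw [Finset.sum_insert ha, Finset.sum_insert ha, ent_add, ih]

/-- column `j` filled with the homogeneous parts of `s` -/
noncomputable def io (j : ℕ) : S k →ₗ[k] Alg k where
  toFun s := mkA (fun i l => if (l : ℕ) = j then gpr (i : ℕ) j s else 0) (by
    intro i l
    split_ifs with h
    · rw [h]; exact hom_gpr _ _ _
    · exact Hom'.zero _ _)
  map_add' s t := by
    apply Alg.ext; intro i l
    simp only [ent_mkA, ent_add, map_add]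
    split_ifs <;> simp
  map_smul' r s := by
    apply Alg.ext; intro i l
    simp only [ent_mkA, ent_smul, map_smul, RingHom.id_apply]
    split_ifs <;> simp

theorem ent_io (j : ℕ) (s : S k) (i l : Fin 7) :
    ent (io j s) i l = if (l : ℕ) = j then gpr (i : ℕ) j s else 0 := rfl

/-- sum of the entries in column `l` -/
noncomputable def cs (l : Fin 7) : Alg k →ₗ[k] S k where
  toFun a := ∑ i, ent a i l
  map_add' a b := by simp [Finset.sum_add_distrib]
  map_smul' r a := by simp [Finset.smul_sum]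

theorem cs_apply (l : Fin 7) (a : Alg k) : cs l a = ∑ i, ent a i l := rfl

theorem cs_io {l : Fin 7} (hl : (l : ℕ) ≤ 3) (s : S k) : cs l (io l s) = s := by
  rw [cs_apply]
  simp only [ent_io, if_true]
  exact sum_gpr hl s

theorem cs_io_hom {l i : Fin 7} {s : S k} (hs : Hom' (i : ℕ) (l : ℕ) s) :
    cs l (io l s) = s := by
  rw [cs_apply]
  simp only [ent_io, if_true]
  exact sum_gpr_hom i.2 hs

theorem io_cs (l : Fin 7) (a : Alg k) : io l (cs l a) = a * io l 1 := by
  apply Alg.ext; intro i m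
  rw [ent_mul, ent_io]
  simp only [ent_io]
  split_ifs with h
  · have hm : m = l := Fin.ext h
    subst hm
    rw [cs_apply, map_sum]
    rw [Finset.sum_eq_single i, Finset.sum_eq_single m]
    · rw [hom_iff.1 (ent_hom a i m), hom_iff.1 (hom_one _), mul_one]
    · intro b _ hb
      rw [(hom_one (m : ℕ)).gpr_ne (fun h => hb (Fin.ext h)), mul_zero]
    · simp
    · intro b _ hb
      exact (ent_hom a b m).gpr_ne fun h => hb (Fin.ext h.symm)
    · simp
  · simp

theorem io_mul_e (l : ℕ) (hl : l < 7) (s : S k) : io l s * io l (1 : S k) = io l s := by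
  apply Alg.ext; intro i m
  rw [ent_mul]
  simp only [ent_io]
  split_ifs with h
  · rw [Finset.sum_eq_single ⟨l, hl⟩]
    · simp [hom_iff.1 (hom_one (k := k) l)]
    · intro b _ hb
      have : (b : ℕ) ≠ l := fun h => hb (Fin.ext h)
      simp [this]
    · simp
  · simp

/-- the vertex idempotents -/
noncomputable def e (n : ℕ) : Alg k := io n 1

/-- product of columns -/
theorem io_mul_io (l j : ℕ) (hl : l < 7) (t s : S k) (i m : Fin 7) :
    ent (io l t * io j s) i m = if (m : ℕ) = j then gpr i l t * gpr l j s else 0 := by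
  rw [ent_mul]
  simp only [ent_io]
  split_ifs with h
  · rw [Finset.sum_eq_single ⟨l, hl⟩]
    · simp
    · intro b _ hb
      have : (b : ℕ) ≠ l := fun h => hb (Fin.ext h)
      simp [this]
    · simp
  · simp

end Pool.Agent.Helper8.Tilt
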