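import Pool.Agent.helper8.Tilt.Fam

/-!
The certificate: a module `K'` with `Ext^{≥1}(T,K')=0` which is not generated by `T`.
-/

set_option autoImplicit false
set_option linter.unusedSectionVars false
set_option linter.unusedSimpArgs false
universe u

namespace Pool.Agent.Helper8.Tilt

open S

variable {k : Type u} [Field k]

/-- `Y = {x ∈ P 1 | x q = 0}` -/
noncomputable abbrev YY (k : Type u) [Field k] : Submodule (Alg k) (P k 1) := Vq k h10

theorem hA (j : ℕ) : Hom' (j + 1) j (S.X0 - S.X4 : S k) := (homX0 j).sub (homX4 j)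
theorem hB (j : ℕ) : Hom' (j + 1) j (S.X2 - S.X3 : S k) := (homX2 j).sub (homX3 j)

noncomputable def pi0 (k : Type u) [Field k] : (P k 2 × P k 2) →ₗ[Alg k] P k 1 :=
  (P.rm 2 1 (S.X0 - S.X4) (hA 1)).coprod (P.rm 2 1 (S.X2 - S.X3) (hB 1))

theorem pi0_apply (x : P k 2 × P k 2) :
    P.s (pi0 k x) = P.s x.1 * (S.X0 - S.X4) + P.s x.2 * (S.X2 - S.X3) := by
  rw [pi0, LinearMap.coprod_apply, map_add, P.rm_apply, P.rm_apply]

theorem mulA : (S.X0 - S.X4 : S k) * qq = 0 := by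
  ext <;> simp [S.X0, S.X4, S.X2, S.X3, qq]
theorem mulB : (S.X2 - S.X3 : S k) * qq = 0 := by
  ext <;> simp [S.X0, S.X4, S.X2, S.X3, qq]

theorem pi0_mem (x : P k 2 × P k 2) : pi0 k x ∈ YY k := by
  rw [mem_Vq, pi0_apply, add_mul, mul_assoc, mulA, mul_assoc, mulB]; simp

noncomputable def piY (k : Type u) [Field k] : (P k 2 × P k 2) →ₗ[Alg k] YY k :=
  (pi0 k).codRestrict _ pi0_mem

theorem piY_val (x : P k 2 × P k 2) : ((piY k x : YY k) : P k 1) = pi0 k x := rfl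

theorem piY_surj : Function.Surjective (piY k) := by
  rintro ⟨x, hx⟩
  rw [mem_Vq] at hx
  set s := P.s x with hs
  have a0 := congrArg S.x2 hx
  have b0 := congrArg S.y0 hx
  have b1 := congrArg S.y1 hx
  have b4 := congrArg S.y4 hx
  have c0 := congrArg S.z hx
  simp [qq, S.X2, S.X3] at a0 b0 b1 b4 c0
  refine ⟨(P.of 2 ⟨s.x0, s.y0 - s.y2, 0, 0, 0, 0, s.z, 0, 0, 0, 0, 0⟩,
    P.of 2 ⟨s.x2, s.y4 - s.y2, -s.y2, 0, s.y1, 0, 0, 0, 0, 0, 0, 0⟩), ?_⟩
  apply Subtype.ext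
  apply P.ext
  rw [piY_val, pi0_apply]
  change _ = s
  ext <;> simp [S.X0, S.X2, S.X3, S.X4, a0, b0]
  · linear_combination -b1
  · linear_combination b0 - b4
  · linear_combination -c0

theorem T1_c {r : Fin 6 → P k 3} (hr : r ∈ T1 k) (t : Fin 6) : (P.s (r t)).c = 0 := by
  have h := T1_supp (k := k) 3 (by omega) ⟨r, hr⟩
  have h' : P.s (e (k := k) 3 • (r t)) = 0 :=
    congrArg (fun x : T1 k => P.s ((x : Fin 6 → P k 3) t)) h
  rw [P.e_smul 3 (by omega)] at h'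
  have h2 : gpr 3 ((3 : Fin 4) : ℕ) (P.s (r t)) = pr 0 (P.s (r t)) := gpr_self 3 _
  rw [h2] at h'
  have := congrArg S.c h'
  simpa using this

noncomputable def g0 (k : Type u) [Field k] : (Fin 6 → P k 3) →ₗ[Alg k] P k 1 :=
  (P.rm 3 1 S.Y2 (homY2 1)) ∘ₗ LinearMap.proj 2

theorem g0_apply (r : Fin 6 → P k 3) : P.s (g0 k r) = P.s (r 2) * S.Y2 :=
  P.rm_apply 3 1 S.Y2 (homY2 1) (r 2)

theorem g0_mem (x : T1 k) : g0 k x ∈ YY k := by
  rw [mem_Vq, g0_apply]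
  have h := T1_c x.2 2
  ext <;> simp [S.Y2, qq, S.X2, S.X3, h]

noncomputable def gY (k : Type u) [Field k] : T1 k →ₗ[Alg k] YY k :=
  (g0 k ∘ₗ (T1 k).subtype).codRestrict _ g0_mem

theorem gY_val (x : T1 k) : ((gY k x : YY k) : P k 1) = g0 k x := rfl

/-- evaluate a map out of `P 2 × P 2` into `P 1` -/
theorem map22 (G : P k 2 × P k 2 →ₗ[Alg k] P k 1) :
    ∃ z1 z2 : S k, Hom' (2 : ℕ) 1 z1 ∧ Hom' (2 : ℕ) 1 z2 ∧
      ∀ x, P.s (G x) = P.s x.1 * z1 + P.s x.2 * z2 := by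
  have key : ∀ f : P k 2 →ₗ[Alg k] P k 1, ∃ z : S k, Hom' (2 : ℕ) 1 z ∧
      ∀ x, P.s (f x) = P.s x * z := by
    intro f
    refine ⟨gpr 2 1 (P.s (f (P.one 2))), hom_gpr _ _ _, fun x => ?_⟩
    rw [P.apply_eq f x, P.io_smul_le _ (by decide)]
    rfl
  obtain ⟨z1, h1, h1'⟩ := key (G ∘ₗ LinearMap.inl _ _ _)
  obtain ⟨z2, h2, h2'⟩ := key (G ∘ₗ LinearMap.inr _ _ _)
  refine ⟨z1, z2, h1, h2, fun x => ?_⟩
  have hx : x = (x.1, 0) + (0, x.2) := by simp
  rw [← h1', ← h2', ← map_add, LinearMap.comp_apply, LinearMap.comp_apply, ← map_add]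
  congr 2

/-- (C1) `g` does not factor through `π`. -/
theorem gY_not_factor (h : T1 k →ₗ[Alg k] (P k 2 × P k 2)) (hh : ∀ x, piY k (h x) = gY k x) :
    False := by
  obtain ⟨H, hH⟩ := extP_P2 2 _ (T1 k) h
  have hD : ∀ x, theta' k x = 0 → (g0 k - pi0 k ∘ₗ H) x = 0 := by
    intro x hx
    have hx' : x ∈ T1 k := LinearMap.mem_ker.2 (congrArg Subtype.val hx)
    have h1 := congrArg Subtype.val (hh ⟨x, hx'⟩)
    rw [piY_val, gY_val, ← hH ⟨x, hx'⟩] at h1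
    rw [LinearMap.sub_apply, LinearMap.comp_apply, h1, sub_self]
  obtain ⟨ψ, hψ⟩ := factor_surj theta'_surj _ hD
  obtain ⟨G, hG⟩ := extP_P 1 _ (KX k) ψ
  obtain ⟨z1, z2, hz1, -, hz⟩ := map22 G
  let E : Fin 6 → P k 3 := Pi.single 2 (P.one 3)
  have h1 : (g0 k - pi0 k ∘ₗ H) E = G (theta k E) := by
    rw [← hψ, ← hG]; rfl
  have h2 : P.s (g0 k E) - P.s (pi0 k (H E)) =
      P.s (theta k E).1 * z1 + P.s (theta k E).2 * z2 := by
    rw [← hz, ← h1, LinearMap.sub_apply, map_sub]; rfl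
  have h3 : P.s (pi0 k (H E)) * qq = 0 := (mem_Vq h10).1 (pi0_mem _)
  have h4 : P.s (theta k E).1 = S.X0 - S.X2 := by
    rw [theta_fst]; simp [E, P.one]
  have h5 : P.s (theta k E).2 = 0 := by
    rw [theta_snd]; simp [E, P.one]
  have h6 : P.s (g0 k E) = S.Y2 := by
    rw [g0_apply]; simp [E, P.one]
  rw [h4, h5, h6, zero_mul, add_zero] at h2
  have h7 : (S.Y2 : S k) * qq = (S.X0 - S.X2) * z1 * qq := by
    rw [← h2, sub_mul, h3, sub_zero]
  have h8 := hom1 rfl hz1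
  rw [h8] at h7
  have h9 := congrArg S.z h7
  simp [S.X0, S.X1, S.X2, S.X3, S.X4, S.Y2, qq] at h9

/-- (C2) every map `T1 → Y` is a multiple of `g` plus a map factoring through `π`. -/
theorem map_T1_Y (f : T1 k →ₗ[Alg k] YY k) : ∃ (c : k) (h : T1 k →ₗ[Alg k] (P k 2 × P k 2)),
    ∀ x, f x = piY k (h x) + algebraMap k (Alg k) c • gY k x := by
  obtain ⟨F, hF⟩ := extP_P 1 _ (T1 k) ((YY k).subtype ∘ₗ f)
  -- images of the basis vectors
  let ξ : Fin 6 → S k := fun t => gpr 3 1 (P.s (F (Pi.single t (P.one 3))))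
  have hξ : ∀ r : Fin 6 → P k 3, P.s (F r) = ∑ t, P.s (r t) * ξ t := by
    intro r
    have hr : r = ∑ t, Pi.single t (r t) := (Finset.univ_sum_single r).symm
    conv_lhs => rw [hr, map_sum, map_sum]
    refine Finset.sum_congr rfl fun t _ => ?_
    have h1 := P.apply_eq (F ∘ₗ LinearMap.single (Alg k) (fun _ : Fin 6 => P k 3) t) (r t)
    have h2 : F (Pi.single t (r t)) = io ((3 : Fin 4) : ℕ) (P.s (r t)) •
      F (Pi.single t (P.one 3)) := h1
    rw [h2, P.io_smul_le _ (by decide)]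
    rfl
  let η : Fin 6 → k := fun t => (ξ t).y2 + (ξ t).y3
  have hξh : ∀ t, Hom' 3 1 (ξ t) := fun t => hom_gpr _ _ _
  let z1 : S k := (-η 3) • S.X0 + η 4 • S.X1 + η 0 • S.X2
  let z2 : S k := (-η 5) • S.X0 + η 1 • S.X1
  have hz1 : Hom' (2 : ℕ) 1 z1 := (((homX0 1).smul _).add ((homX1 1).smul _)).add ((homX2 1).smul _)
  have hz2 : Hom' (2 : ℕ) 1 z2 := ((homX0 1).smul _).add ((homX1 1).smul _)
  let G : P k 2 × P k 2 →ₗ[Alg k] P k 1 := (P.rm 2 1 z1 hz1).coprod (P.rm 2 1 z2 hz2)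
  have hG : ∀ x, P.s (G x) = P.s x.1 * z1 + P.s x.2 * z2 := by
    intro x
    change P.s ((P.rm 2 1 z1 hz1).coprod (P.rm 2 1 z2 hz2) x) = _
    rw [LinearMap.coprod_apply, map_add, P.rm_apply, P.rm_apply]
  let F' : (Fin 6 → P k 3) →ₗ[Alg k] P k 1 := F - G ∘ₗ theta k - scm (η 2) _ ∘ₗ g0 k
  have hF' : ∀ r, F' r ∈ YY k := by
    intro r
    rw [mem_Vq]
    have h1 : P.s (F' r) = ∑ t, P.s (r t) * ξ t - (P.s (theta k r).1 * z1 +
        P.s (theta k r).2 * z2) - η 2 • (P.s (r 2) * S.Y2) := by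
      change P.s (F r - G (theta k r) - algebraMap k (Alg k) (η 2) • g0 k r) = _
      rw [map_sub, map_sub, hξ, hG, algebraMap_smul, map_smul, g0_apply]
    rw [h1, theta_fst, theta_snd, Fin.sum_univ_six]
    have e0 := hom2 rfl (hξh 0)
    have e1 := hom2 rfl (hξh 1)
    have e2 := hom2 rfl (hξh 2)
    have e3 := hom2 rfl (hξh 3)
    have e4 := hom2 rfl (hξh 4)
    have e5 := hom2 rfl (hξh 5)
    rw [e0, e1, e2, e3, e4, e5]
    ext <;> simp [z1, z2, η, S.X0, S.X1, S.X2, S.X3, S.X4, S.Y0, S.Y1, S.Y2, S.Y3, S.Y4, qq]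
    ring
  obtain ⟨H, hH⟩ := Module.projective_lifting_property (piY k) (F'.codRestrict _ hF') piY_surj
  refine ⟨η 2, H ∘ₗ (T1 k).subtype, fun x => ?_⟩
  apply Subtype.ext
  have h1 : ((piY k (H x) : YY k) : P k 1) = F' x := congrArg Subtype.val (LinearMap.congr_fun hH x)
  have h2 : theta k (x : Fin 6 → P k 3) = 0 := LinearMap.mem_ker.1 x.2
  have h3 : F' x = F x - algebraMap k (Alg k) (η 2) • g0 k x := by
    change F x - G (theta k x) - algebraMap k (Alg k) (η 2) • g0 k x = _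
    rw [h2, map_zero, sub_zero]
  have h4 : F x = (f x : P k 1) := hF x
  change (f x : P k 1) = ((piY k (H x) : YY k) : P k 1) +
    algebraMap k (Alg k) (η 2) • ((gY k x : YY k) : P k 1)
  rw [h1, h3, gY_val, h4]
  abel

end Pool.Agent.Helper8.Tilt
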