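import Mathlib

/-!
Counting the isomorphism classes of indecomposable direct summands of a module of finite length.
-/

set_option autoImplicit false
universe u

namespace Pool.Agent.Helper8.Tilt

variable {A : Type u} [Ring A]

/-- A module all of whose idempotent endomorphisms are trivial. -/
def Indec (A : Type u) [Ring A] (N : Type u) [AddCommGroup N] [Module A N] : Prop :=
  Nontrivial N ∧ ∀ f : N →ₗ[A] N, (∀ x, f (f x) = f x) → f = 0 ∨ f = LinearMap.id

theorem Indec.split {N : Type u} [AddCommGroup N] [Module A N] (h : Indec A N)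
    (P Q : Submodule A N) (hPQ : IsCompl P Q) : P = ⊥ ∨ Q = ⊥ := by
  have key := h.2 (P.subtype ∘ₗ Submodule.projectionOnto P Q hPQ) (by
    intro x
    simp)
  rcases key with h1 | h1
  · left
    rw [Submodule.eq_bot_iff]
    intro x hx
    have := LinearMap.congr_fun h1 x
    simp only [LinearMap.coe_comp, Submodule.coe_subtype, Function.comp_apply,
      LinearMap.zero_apply, ZeroMemClass.coe_eq_zero] at this
    have h2 := Submodule.projectionOnto_apply_left hPQ ⟨x, hx⟩
    simp only at h2
    rw [this] at h2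
    exact (congrArg Subtype.val h2).symm
  · right
    rw [Submodule.eq_bot_iff]
    intro x hx
    have := LinearMap.congr_fun h1 x
    simp only [LinearMap.coe_comp, Submodule.coe_subtype, Function.comp_apply,
      LinearMap.id_coe, id_eq] at this
    have h2 := Submodule.projectionOnto_apply_right hPQ ⟨x, hx⟩
    simp only at h2
    rw [h2] at this
    simpa using this.symm

section

variable {M : Type u} [AddCommGroup M] [Module A M] [IsNoetherian A M] [IsArtinian A M]

theorem nilp_or_unit {N : Type u} [AddCommGroup N] [Module A N] [IsNoetherian A N]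
    [IsArtinian A N]
    (hN : ∀ P Q : Submodule A N, IsCompl P Q → P = ⊥ ∨ Q = ⊥) (f : Module.End A N) :
    IsNilpotent f ∨ IsUnit f := by
  obtain ⟨n, h1, h2⟩ :=
    (f.eventually_isCompl_ker_pow_range_pow.and (Filter.eventually_gt_atTop 0)).exists
  rcases hN _ _ h1 with h | h
  · right
    have h3 : LinearMap.range (f ^ n) = ⊤ := by
      have := h1.sup_eq_top
      rwa [h, bot_sup_eq] at this
    have h4 : IsUnit (f ^ n) := by
      rw [Module.End.isUnit_iff]
      exact ⟨LinearMap.ker_eq_bot.1 h, LinearMap.range_eq_top.1 h3⟩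
    exact (isUnit_pow_iff h2.ne').1 h4
  · left
    exact ⟨n, LinearMap.range_eq_bot.1 h⟩

theorem exists_unit_of_sum {E : Type*} [Ring E] [Nontrivial E]
    (hE : ∀ a : E, IsNilpotent a ∨ IsUnit a) {ι : Type*} (s : Finset ι) :
    ∀ f : ι → E, IsUnit (∑ i ∈ s, f i) → ∃ i ∈ s, IsUnit (f i) := by
  classical
  induction s using Finset.induction_on with
  | empty =>
    intro f h
    simp at h
  | insert a s ha ih =>
    intro f h
    rw [Finset.sum_insert ha] at h
    rcases hE (f a) with h1 | h1
    · obtain ⟨v, hv⟩ := h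
      -- v⁻¹ f a + v⁻¹ Σ = 1
      rcases hE (↑v⁻¹ * f a) with h2 | h2
      · have h3 : IsUnit (1 - ↑v⁻¹ * f a) := h2.isUnit_one_sub
        have h4 : 1 - ↑v⁻¹ * f a = ↑v⁻¹ * ∑ i ∈ s, f i := by
          have : (↑v⁻¹ : E) * (f a + ∑ i ∈ s, f i) = 1 := by rw [← hv]; simp
          rw [mul_add] at this
          rw [← this]
          abel
        rw [h4] at h3
        have h5 : IsUnit (∑ i ∈ s, f i) := by
          have : ∑ i ∈ s, f i = ↑v * (↑v⁻¹ * ∑ i ∈ s, f i) := by simp
          rw [this]
          exact v.isUnit.mul h3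
        obtain ⟨i, hi, hu⟩ := ih f h5
        exact ⟨i, Finset.mem_insert_of_mem hi, hu⟩
      · refine ⟨a, Finset.mem_insert_self _ _, ?_⟩
        have : f a = ↑v * (↑v⁻¹ * f a) := by simp
        rw [this]
        exact v.isUnit.mul h2
    · exact ⟨a, Finset.mem_insert_self _ _, h1⟩

variable {ι : Type} [Fintype ι] {N : ι → Type u} [∀ i, AddCommGroup (N i)]
  [∀ i, Module A (N i)] (inc : ∀ i, N i →ₗ[A] M) (pr : ∀ i, M →ₗ[A] N i)
  (h1 : ∀ i x, pr i (inc i x) = x) (h2 : ∀ x, ∑ i, inc i (pr i x) = x)
  (hN : ∀ i, Indec A (N i)) (hiso : ∀ i j, Nonempty (N i ≃ₗ[A] N j) → i = j)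

include h2 hN in
theorem summand_iso (P : Submodule A M) (hP : P ≠ ⊥) (hP' : ∃ Q, IsCompl P Q)
    (hind : ∀ B C : Submodule A M, B ⊔ C = P → B ⊓ C = ⊥ → B = ⊥ ∨ C = ⊥) :
    ∃ i, Nonempty (N i ≃ₗ[A] P) := by
  obtain ⟨Q, hQ⟩ := hP'
  let e : M →ₗ[A] P := Submodule.projectionOnto P Q hQ
  have he : ∀ x : P, e x = x := fun x => Submodule.projectionOnto_apply_left hQ x
  have : Nontrivial P := Submodule.nontrivial_iff_ne_bot.2 hP
  have hPind : ∀ B C : Submodule A P, IsCompl B C → B = ⊥ ∨ C = ⊥ := by
    intro B C hBC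
    have := hind (B.map P.subtype) (C.map P.subtype) (by
      rw [← Submodule.map_sup, hBC.sup_eq_top, Submodule.map_top, Submodule.range_subtype]) (by
      rw [← Submodule.map_inf _ P.subtype_injective, hBC.inf_eq_bot, Submodule.map_bot])
    rcases this with h | h
    · left; exact Submodule.map_injective_of_injective P.subtype_injective (by rw [h, Submodule.map_bot])
    · right; exact Submodule.map_injective_of_injective P.subtype_injective (by rw [h, Submodule.map_bot])
  let f : ι → Module.End A P := fun i => e ∘ₗ inc i ∘ₗ pr i ∘ₗ P.subtype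
  have hf : ∑ i, f i = 1 := by
    ext x
    simp only [LinearMap.sum_apply, Module.End.one_apply, f, LinearMap.comp_apply,
      Submodule.subtype_apply]
    rw [← map_sum, h2, he]
  obtain ⟨i, -, hi⟩ := exists_unit_of_sum (nilp_or_unit hPind) Finset.univ f
    (by rw [hf]; exact isUnit_one)
  obtain ⟨v, hv⟩ := hi
  -- a : N i → P, b : P → N i, a ∘ b = id
  let a : N i →ₗ[A] P := (↑v⁻¹ : Module.End A P) ∘ₗ e ∘ₗ inc i
  let b : P →ₗ[A] N i := pr i ∘ₗ P.subtype
  have hab : ∀ x, a (b x) = x := by
    intro x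
    have : (↑v⁻¹ : Module.End A P) * f i = 1 := by rw [← hv]; simp
    exact LinearMap.congr_fun this x
  have hba : b ∘ₗ a = LinearMap.id := by
    rcases (hN i).2 (b ∘ₗ a) (by intro x; simp [hab]) with h | h
    · exfalso
      obtain ⟨x, hx⟩ := exists_ne (0 : P)
      apply hx
      have h3 := LinearMap.congr_fun h (b x)
      simp only [LinearMap.comp_apply, hab, LinearMap.zero_apply] at h3
      rw [← hab x, h3, map_zero]
    · exact h
  exact ⟨i, ⟨LinearEquiv.ofLinearMap a b (by ext x; simp [hab]) hba⟩⟩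

include h1 h2 hN hiso in
theorem card_summands :
    Nat.card (Quot (fun (P Q : {P : Submodule A M // P ≠ ⊥ ∧ (∃ P' : Submodule A M, IsCompl P P') ∧
        ∀ B C : Submodule A M, B ⊔ C = P → B ⊓ C = ⊥ → B = ⊥ ∨ C = ⊥}) =>
          Nonempty (P.1 ≃ₗ[A] Q.1))) = Fintype.card ι := by
  classical
  have hinj : ∀ i, Function.Injective (inc i) := fun i =>
    Function.LeftInverse.injective (h1 i)
  let R : ι → {P : Submodule A M // P ≠ ⊥ ∧ (∃ P' : Submodule A M, IsCompl P P') ∧
        ∀ B C : Submodule A M, B ⊔ C = P → B ⊓ C = ⊥ → B = ⊥ ∨ C = ⊥} := fun i =>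
    ⟨LinearMap.range (inc i), by
      have := (hN i).1
      obtain ⟨x, hx⟩ := exists_ne (0 : N i)
      refine ⟨?_, ⟨LinearMap.ker (pr i), ?_⟩, ?_⟩
      · intro h
        rw [LinearMap.range_eq_bot] at h
        apply hx
        apply hinj i
        rw [h]; simp
      · exact LinearMap.isCompl_of_proj (f := (inc i).rangeRestrict ∘ₗ pr i) (by
          rintro ⟨_, y, rfl⟩
          apply Subtype.ext
          simp [h1]) |> fun h => by
            rwa [LinearMap.ker_comp_of_ker_eq_bot] at h
            rw [LinearMap.ker_rangeRestrict, LinearMap.ker_eq_bot]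
            exact hinj i
      · intro B C hB hC
        have hBr : B ≤ LinearMap.range (inc i) := by rw [← hB]; exact le_sup_left
        have hCr : C ≤ LinearMap.range (inc i) := by rw [← hB]; exact le_sup_right
        have hc : IsCompl (B.comap (inc i)) (C.comap (inc i)) := by
          constructor
          · rw [disjoint_iff, ← Submodule.comap_inf, hC]
            rw [Submodule.comap_bot, LinearMap.ker_eq_bot]
            exact hinj i
          · rw [codisjoint_iff]
            apply Submodule.map_injective_of_injective (hinj i)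
            rw [Submodule.map_sup, Submodule.map_comap_eq, Submodule.map_comap_eq,
              inf_eq_right.2 hBr, inf_eq_right.2 hCr, hB, Submodule.map_top]
        rcases (hN i).split _ _ hc with h | h
        · left
          have : B = (B.comap (inc i)).map (inc i) := by
            rw [Submodule.map_comap_eq, inf_eq_right.2 hBr]
          rw [this, h, Submodule.map_bot]
        · right
          have : C = (C.comap (inc i)).map (inc i) := by
            rw [Submodule.map_comap_eq, inf_eq_right.2 hCr]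
          rw [this, h, Submodule.map_bot]⟩
  have hR : ∀ i, Nonempty (N i ≃ₗ[A] (R i).1) := fun i =>
    ⟨LinearEquiv.ofInjective (inc i) (hinj i)⟩
  rw [← Nat.card_eq_fintype_card]
  symm
  refine Nat.card_eq_of_bijective (fun i => Quot.mk _ (R i)) ⟨?_, ?_⟩
  · intro i j hij
    have h3 := Quot.eqvGen_exact hij
    have h4 : Nonempty ((R i).1 ≃ₗ[A] (R j).1) := by
      generalize R i = x at h3
      generalize R j = y at h3
      induction h3 with
      | rel _ _ h => exact h
      | refl x => exact ⟨LinearEquiv.refl _ _⟩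
      | symm _ _ _ ih => exact ih.map LinearEquiv.symm
      | trans _ _ _ _ _ ih1 ih2 =>
        obtain ⟨e1⟩ := ih1
        obtain ⟨e2⟩ := ih2
        exact ⟨e1.trans e2⟩
    obtain ⟨e1⟩ := hR i
    obtain ⟨e2⟩ := hR j
    obtain ⟨e3⟩ := h4
    exact hiso i j ⟨e1.trans (e3.trans e2.symm)⟩
  · intro q
    obtain ⟨⟨P, hP1, hP2, hP3⟩, rfl⟩ := Quot.exists_rep q
    obtain ⟨i, ⟨e⟩⟩ := summand_iso inc pr h2 hN P hP1 hP2 hP3
    obtain ⟨e'⟩ := hR i
    exact ⟨i, Quot.sound ⟨e'.symm.trans e⟩⟩

end

end Pool.Agent.Helper8.Tilt
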