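import Pool.Agent.helper8.Tilt.EV2

/-!
If there is a finite coresolution of the regular module by summands of powers of `T`, then every
module `K` with `Ext^{≥1}(T,K)=0` is generated by `T`.
-/

set_option autoImplicit false
universe u

open CategoryTheory

namespace Pool.Agent.Helper8.Tilt

variable {A : Type u} [Ring A] [HasExt.{u} (ModuleCat.{u} A)]

theorem EV.of_subsingleton_left {M X : Type u} [AddCommGroup M] [Module A M] [AddCommGroup X]
    [Module A X] [Subsingleton M] (n : ℕ) : EV A n M X := by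
  cases n with
  | zero => exact EV.zero_of fun f => by ext x; rw [Subsingleton.elim x 0]; simp
  | succ n => exact EV.proj n

section

variable {m : ℕ} {X : ComposableArrows (ModuleCat.{u} A) (m + 4)} (hX : X.Exact)
  (hlast : Limits.IsZero (X.obj (Fin.last (m + 4))))
  {K : Type u} [AddCommGroup K] [Module A K]
  (hK : ∀ i (hi : i ≤ m + 4), 2 ≤ i → i ≤ m + 3 → ∀ n, EV A (n + 1) (X.obj' i hi) K)

include hX hlast hK

theorem range_EV (t : ℕ) : ∀ j (hj : j + 1 + t = m + 4), 1 ≤ j → ∀ n,
    EV A (n + 1) (LinearMap.range (X.map' j (j + 1) (by omega) (by omega)).hom) K := by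
  induction t with
  | zero =>
    intro j hj h1 n
    have hj' : j = m + 3 := by omega
    subst hj'
    have hs : Subsingleton (X.obj (Fin.last (m + 4))) := ModuleCat.subsingleton_of_isZero hlast
    have : Subsingleton (X.obj' (m + 3 + 1) (by omega)) := hs
    have : Subsingleton (LinearMap.range (X.map' (m+3) (m+3 + 1) (by omega) (by omega)).hom) :=
      inferInstance
    exact EV.of_subsingleton_left _
  | succ t ih =>
    intro j hj h1 n
    have hex := hX.exact j (by omega)
    rw [ShortComplex.moduleCat_exact_iff] at hex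
    have hz := hX.toIsComplex.zero j (by omega)
    refine EV.contra₁ (f := (LinearMap.range (X.map' j (j + 1) (by omega) (by omega)).hom).subtype)
      (g := (X.map' (j + 1) (j + 1 + 1) (by omega) (by omega)).hom.rangeRestrict)
      Subtype.val_injective (LinearMap.surjective_rangeRestrict _) ?_
      (hK (j + 1) (by omega) (by omega) (by omega) n) (ih (j + 1) (by omega) (by omega) (n + 1))
    intro y
    constructor
    · intro hy
      have hy' := congrArg Subtype.val hy
      obtain ⟨x, hx⟩ := hex y hy'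
      exact ⟨⟨y, x, hx⟩, rfl⟩
    · rintro ⟨⟨_, x, rfl⟩, rfl⟩
      apply Subtype.ext
      have := congrArg (fun φ => φ.hom x) hz
      exact this

end

theorem gen (T : ModuleCat.{u} A) (m : ℕ) (X : ComposableArrows (ModuleCat.{u} A) (m + 4))
    (hX : X.Exact) (h0 : Limits.IsZero (X.obj 0))
    (hlast : Limits.IsZero (X.obj (Fin.last (m + 4))))
    (h1 : Nonempty (X.obj 1 ≅ ModuleCat.of A A))
    (hT : ∀ i : Fin (m + 5), 2 ≤ i.val → i.val ≤ m + 3 →
        ∃ (k : ℕ) (f : X.obj i ⟶ ModuleCat.of A (Fin k → (T : Type u)))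
          (g : ModuleCat.of A (Fin k → (T : Type u)) ⟶ X.obj i), f ≫ g = 𝟙 (X.obj i))
    {K W : Type u} [AddCommGroup K] [Module A K] [AddCommGroup W] [Module A W]
    (hK : ∀ n, EV A (n + 1) T K) (q : K →ₗ[A] W) (hq : ∀ φ : T →ₗ[A] K, q ∘ₗ φ = 0) :
    q = 0 := by
  have hK' : ∀ i (hi : i ≤ m + 4), 2 ≤ i → i ≤ m + 3 → ∀ n, EV A (n + 1) (X.obj' i hi) K := by
    intro i hi h2 h3 n
    obtain ⟨k, f, g, hfg⟩ := hT ⟨i, by omega⟩ h2 h3
    refine EV.of_retract_left (M := Fin k → (T : Type u)) f.hom g.hom ?_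
      (EV.pi_left (M := fun _ : Fin k => (T : Type u)) fun _ => hK n)
    intro x
    exact congrArg (fun φ => φ.hom x) hfg
  have hr := range_EV hX hlast hK' (m + 1) 2 (by omega) (by omega) 0
  -- injectivity of X₁ → X₂
  have hs0 : Subsingleton (X.obj 0) := ModuleCat.subsingleton_of_isZero h0
  have hex0 := hX.exact 0 (by omega)
  rw [ShortComplex.moduleCat_exact_iff] at hex0
  have hinj : Function.Injective (X.map' 1 2 (by omega) (by omega)).hom := by
    rw [injective_iff_map_eq_zero]
    intro y hy
    obtain ⟨x, hx⟩ := hex0 y hy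
    have : x = 0 := Subsingleton.elim (α := X.obj 0) x 0
    rw [← hx, this]
    exact map_zero _
  have hex1 := hX.exact 1 (by omega)
  rw [ShortComplex.moduleCat_exact_iff] at hex1
  have hz := hX.toIsComplex.zero 1 (by omega)
  have hext := fun (φ : (X.obj' 1 (by omega)) →ₗ[A] K) => EV.extend (X := K) (f := (X.map' 1 2 (by omega) (by omega)).hom)
    (g := (X.map' 2 3 (by omega) (by omega)).hom.rangeRestrict) hinj
    (LinearMap.surjective_rangeRestrict _) (by
      intro y
      constructor
      · intro hy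
        exact hex1 y (congrArg Subtype.val hy)
      · rintro ⟨x, rfl⟩
        apply Subtype.ext
        exact congrArg (fun φ => φ.hom x) hz) hr φ
  have h1' : Nonempty (X.obj' 1 (by omega) ≅ ModuleCat.of A A) := h1
  obtain ⟨e⟩ := h1'
  ext x
  -- the map X₁ ≅ A → K
  obtain ⟨ψ, hψ⟩ := hext ((LinearMap.toSpanSingleton A K x) ∘ₗ e.hom.hom)
  obtain ⟨k, f, g, hfg⟩ := hT ⟨2, by omega⟩ (by simp) (by simp)
  have key : ∀ v : (Fin k → (T : Type u)), q (ψ (g.hom v)) = 0 := by
    intro v
    have hv : v = ∑ i, Pi.single i (v i) := by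
      exact (Finset.univ_sum_single v).symm
    rw [hv, map_sum, map_sum, map_sum]
    refine Finset.sum_eq_zero fun i _ => ?_
    have := hq (ψ ∘ₗ g.hom ∘ₗ LinearMap.single A (fun _ : Fin k => (T : Type u)) i)
    exact LinearMap.congr_fun this (v i)
  have key2 : ∀ y : X.obj' 2 (by omega), q (ψ y) = 0 := by
    intro y
    have h3 : g.hom (f.hom y) = y := congrArg (fun φ => φ.hom y) hfg
    rw [← h3]
    exact key _
  have h4 := LinearMap.congr_fun hψ (e.inv.hom 1)
  have h5 : e.hom.hom (e.inv.hom 1) = (1 : A) := congrArg (fun φ => φ.hom 1) e.inv_hom_id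
  rw [LinearMap.comp_apply, LinearMap.comp_apply, h5, LinearMap.toSpanSingleton_apply,
    one_smul] at h4
  rw [← h4]
  exact key2 _

end Pool.Agent.Helper8.Tilt
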