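import Pool.Agent.helper8.Tilt.Inj
import Pool.Agent.helper8.Tilt.Gen

/-!
Directedness of the window algebra: supports of modules and vanishing of Ext.
-/

set_option autoImplicit false
universe u

namespace Pool.Agent.Helper8.Tilt

open S TensorProduct

variable {k : Type u} [Field k]

theorem e_mul_e_self {n : ℕ} (hn : n < 7) : e (k := k) n * e n = e n := io_mul_e n hn 1

theorem e_mul_e_ne {n m : ℕ} (h : n ≠ m) : e (k := k) n * e m = 0 := by
  apply Alg.ext; intro i l
  rw [ent_mul]
  simp only [e, ent_io, ent_zero]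
  refine Finset.sum_eq_zero fun b _ => ?_
  by_cases h1 : (b : ℕ) = n
  · have : (b : ℕ) ≠ m := by omega
    rw [(hom_one m).gpr_ne this]; simp
  · simp [h1]

theorem e_ge {n : ℕ} (hn : 7 ≤ n) : e (k := k) n = 0 := by
  apply Alg.ext; intro i l
  simp only [e, ent_io, ent_zero]
  have : (l : ℕ) ≠ n := by omega
  simp [this]

theorem sum_e : ∑ n : Fin 7, e (k := k) n = 1 := by
  apply Alg.ext; intro i l
  rw [ent_sum, ent_one]
  simp only [e, ent_io]
  rw [Finset.sum_eq_single l]
  · simp only [if_true]
    split_ifs with h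
    · subst h; exact hom_iff.1 (hom_one _)
    · exact (hom_one _).gpr_ne fun h' => h (Fin.ext h')
  · intro b _ hb
    have : (l : ℕ) ≠ b := fun h => hb (Fin.ext h.symm)
    simp [this]
  · simp

theorem ent_e_mul_e (n m : ℕ) (a : Alg k) (i l : Fin 7) :
    ent (e n * a * e m) i l = if (i : ℕ) = n ∧ (l : ℕ) = m then ent a i l else 0 := by
  rw [ent_mul]
  simp only [ent_mul, e, ent_io]
  rw [Finset.sum_eq_single l]
  · rw [Finset.sum_eq_single i]
    · by_cases h1 : (i : ℕ) = n
      · by_cases h2 : (l : ℕ) = m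
        · rw [if_pos h1, if_pos h2, if_pos ⟨h1, h2⟩, h1, h2, hom_iff.1 (hom_one _),
            hom_iff.1 (hom_one _), one_mul, mul_one]
        · simp [h2]
      · simp [h1]
    · intro b _ hb
      by_cases h : (b : ℕ) = n
      · have : (i : ℕ) ≠ n := fun h' => hb (Fin.ext (by omega))
        rw [(hom_one n).gpr_ne this]; simp
      · simp [h]
    · simp
  · intro b _ hb
    by_cases h : (l : ℕ) = m
    · have : (b : ℕ) ≠ m := fun h' => hb (Fin.ext (by omega))
      rw [(hom_one m).gpr_ne this]; simp
    · simp [h]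
  · simp

theorem e_mul_mul_e_lt {n m : ℕ} (h : n < m) (a : Alg k) : e n * a * e m = 0 := by
  apply Alg.ext; intro i l
  rw [ent_e_mul_e]
  split_ifs with h'
  · rw [homFar (Or.inl (by omega)) (ent_hom a i l)]; rfl
  · rfl

theorem e_mul_mul_e_self (n : ℕ) (a : Alg k) : ∃ c : k, e n * a * e n = c • e n := by
  by_cases hn : n < 7
  · refine ⟨(ent a ⟨n, hn⟩ ⟨n, hn⟩).c, ?_⟩
    apply Alg.ext; intro i l
    rw [ent_e_mul_e, ent_smul]
    simp only [e, ent_io]
    split_ifs with h' h2 h3
    · have hi : i = ⟨n, hn⟩ := Fin.ext h'.1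
      have hl : l = ⟨n, hn⟩ := Fin.ext h'.2
      subst hi; subst hl
      rw [hom_iff.1 (hom_one _)]
      exact hom0 rfl (ent_hom a _ _)
    · exact absurd h'.2 h2
    · have : (i : ℕ) ≠ n := fun h => h' ⟨h, h3⟩
      rw [(hom_one n).gpr_ne this, smul_zero]
    · simp
  · exact ⟨0, by rw [e_ge (by omega)]; simp⟩

/-- supported in degrees `≥ d` -/
def SuppGe (k : Type u) [Field k] (d : ℕ) (M : Type u) [AddCommGroup M] [Module (Alg k) M] :
    Prop := ∀ n, n < d → ∀ m : M, e (k := k) n • m = 0

/-- supported in degrees `≤ d` -/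
def SuppLe (k : Type u) [Field k] (d : ℕ) (M : Type u) [AddCommGroup M] [Module (Alg k) M] :
    Prop := ∀ n, d < n → ∀ m : M, e (k := k) n • m = 0

section
variable {M : Type u} [AddCommGroup M] [Module (Alg k) M]

theorem sum_e_smul (m : M) : ∑ n : Fin 7, e (k := k) n • m = m := by
  rw [← Finset.sum_smul, sum_e, one_smul]

theorem ext_e {m m' : M} (h : ∀ n, n < 7 → e (k := k) n • m = e (k := k) n • m') : m = m' := by
  rw [← sum_e_smul (k := k) m, ← sum_e_smul (k := k) m']
  exact Finset.sum_congr rfl fun n _ => h n n.2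

theorem SuppGe.eq_zero (h : SuppGe k 7 M) (m : M) : m = 0 :=
  ext_e (k := k) fun n hn => by rw [h n hn, smul_zero]

end

/-- the left ideal of elements fixed by right multiplication by `f` -/
noncomputable def LI (f : Alg k) : Submodule (Alg k) (Alg k) :=
  LinearMap.ker (LinearMap.toSpanSingleton (Alg k) (Alg k) (f - 1))

theorem mem_LI {f a : Alg k} : a ∈ LI f ↔ a * f = a := by
  rw [LI, LinearMap.mem_ker, LinearMap.toSpanSingleton_apply, smul_eq_mul, mul_sub, mul_one,
    sub_eq_zero]

theorem LI_projective {f : Alg k} (hf : f * f = f) : Module.Projective (Alg k) (LI f) := by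
  refine Module.Projective.of_split (LI f).subtype
    (LinearMap.codRestrict (LI f) (LinearMap.toSpanSingleton (Alg k) (Alg k) f) ?_) ?_
  · intro c
    rw [mem_LI, LinearMap.toSpanSingleton_apply, smul_eq_mul, mul_assoc, hf]
  · ext x
    exact mem_LI.1 x.2

/-- sum of the idempotents in degrees `> d` -/
noncomputable def eg (k : Type u) [Field k] (d : ℕ) : Alg k :=
  ∑ n : Fin 7, if d < (n : ℕ) then e (k := k) n else 0

theorem mul_eg_lt {n d : ℕ} (h : n ≤ d) (a : Alg k) : e n * a * eg k d = 0 := by
  rw [eg, Finset.mul_sum]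
  refine Finset.sum_eq_zero fun l _ => ?_
  split_ifs with hl
  · exact e_mul_mul_e_lt (by omega) a
  · simp

theorem eg_mul_eg (d : ℕ) : eg k d * eg k d = eg k d := by
  have key : ∀ x : Alg k, eg k d * x = ∑ n : Fin 7, (if d < (n : ℕ) then e (k := k) n else 0) * x :=
    fun x => by rw [eg, Finset.sum_mul]
  rw [key]
  change _ = ∑ n : Fin 7, if d < (n : ℕ) then e (k := k) n else 0
  refine Finset.sum_congr rfl fun l _ => ?_
  split_ifs with hl
  · rw [eg, Finset.mul_sum, Finset.sum_eq_single l]
    · rw [if_pos hl, e_mul_e_self l.2]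
    · intro b _ hb
      split_ifs
      · exact e_mul_e_ne fun h => hb (Fin.ext h.symm)
      · simp
    · simp
  · simp

theorem decomp {d : ℕ} {M : Type u} [AddCommGroup M] [Module (Alg k) M] (h : SuppGe k d M)
    (m : M) : m = e (k := k) d • m + eg k d • m := by
  conv_lhs => rw [← sum_e_smul (k := k) m]
  have h1 : e (k := k) d • m = ∑ n : Fin 7, if (n : ℕ) = d then e (k := k) n • m else 0 := by
    by_cases hd : d < 7
    · rw [Finset.sum_eq_single ⟨d, hd⟩]
      · simp
      · intro b _ hb
        rw [if_neg fun h => hb (Fin.ext h)]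
      · simp
    · rw [e_ge (by omega), zero_smul]
      symm
      refine Finset.sum_eq_zero fun n _ => ?_
      rw [if_neg (by omega)]
  rw [h1, eg, Finset.sum_smul, ← Finset.sum_add_distrib]
  refine Finset.sum_congr rfl fun n _ => ?_
  rcases lt_trichotomy (n : ℕ) d with hn | hn | hn
  · rw [h n hn, if_neg (by omega), if_neg (by omega)]; simp
  · rw [if_pos hn, if_neg (by omega)]; simp
  · rw [if_neg (by omega), if_pos hn]; simp

theorem cover (d : ℕ) (M : Type u) [AddCommGroup M] [Module (Alg k) M] (h : SuppGe k d M) :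
    ∃ (F : Type u) (_ : AddCommGroup F) (_ : Module (Alg k) F) (_ : Module.Projective (Alg k) F)
      (g : F →ₗ[Alg k] M), Function.Surjective g ∧ SuppGe k (d + 1) (LinearMap.ker g) := by
  by_cases hd : d < 7
  swap
  · refine ⟨PUnit, inferInstance, inferInstance, inferInstance, 0, ?_, ?_⟩
    · intro m
      refine ⟨0, ?_⟩
      rw [map_zero]
      exact (SuppGe.eq_zero (k := k) (fun n hn m => h n (by omega) m) m).symm
    · intro n _ m
      exact Subsingleton.elim _ _
  let _ : Module k M := Module.compHom M (algebraMap k (Alg k))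
  have : IsScalarTower k (Alg k) M := ⟨fun a b m => by
    change (a • b) • m = algebraMap k (Alg k) a • (b • m)
    rw [Algebra.smul_def, mul_smul]⟩
  -- the degree `d` part
  let Md : Submodule k M :=
    { carrier := {m | e (k := k) d • m = m}
      add_mem' := by
        intro a b ha hb
        simp only [Set.mem_ofPred_eq] at *
        rw [smul_add, ha, hb]
      zero_mem' := by simp
      smul_mem' := by
        intro c m hm
        simp only [Set.mem_ofPred_eq] at *
        rw [smul_comm, hm] }
  have hMd : ∀ m : Md, e (k := k) d • (m : M) = m := fun m => m.2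
  have := LI_projective (k := k) (e_mul_e_self hd)
  have := LI_projective (k := k) (eg_mul_eg (k := k) d)
  -- action maps
  let act : ∀ (L : Submodule (Alg k) (Alg k)) (N : Submodule k M), L ⊗[k] N →ₗ[Alg k] M :=
    fun L N => TensorProduct.AlgebraTensorModule.lift
      { toFun := fun a =>
          { toFun := fun m => (a : Alg k) • (m : M)
            map_add' := fun x y => by simp
            map_smul' := fun c x => by
              simp only [Submodule.coe_smul, RingHom.id_apply]
              rw [smul_comm] }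
        map_add' := fun a b => by ext m; simp [add_smul]
        map_smul' := fun a b => by ext m; simp [mul_smul] }
  have hact : ∀ (L : Submodule (Alg k) (Alg k)) (N : Submodule k M) (a : L) (m : N),
      act L N (a ⊗ₜ m) = (a : Alg k) • (m : M) :=
    fun L N a m => rfl
  let e1 : LI (e (k := k) d) := ⟨e d, mem_LI.2 (e_mul_e_self hd)⟩
  let e2 : LI (eg k d) := ⟨eg k d, mem_LI.2 (eg_mul_eg d)⟩
  refine ⟨(LI (e (k := k) d) ⊗[k] Md) × (LI (eg k d) ⊗[k] (⊤ : Submodule k M)), inferInstance,
    inferInstance, inferInstance, (act _ _).coprod (act _ _), ?_, ?_⟩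
  · intro m
    refine ⟨(e1 ⊗ₜ ⟨e (k := k) d • m, by
        change e (k := k) d • (e (k := k) d • m) = _
        rw [← mul_smul, e_mul_e_self hd]⟩, e2 ⊗ₜ ⟨m, trivial⟩), ?_⟩
    rw [LinearMap.coprod_apply, hact, hact]
    change e (k := k) d • (e (k := k) d • m) + eg k d • m = m
    rw [← mul_smul, e_mul_e_self hd, ← decomp h]
  · have s1 : ∀ n, n < d → ∀ t : LI (e (k := k) d) ⊗[k] Md, e (k := k) n • t = 0 := by
      intro n hn t
      induction t using TensorProduct.induction_on with
      | zero => simp
      | tmul a m =>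
        have : e (k := k) n • a = 0 := by
          apply Subtype.ext
          change e n * (a : Alg k) = 0
          rw [← mem_LI.1 a.2, ← mul_assoc, e_mul_mul_e_lt hn]
        rw [TensorProduct.smul_tmul', this, TensorProduct.zero_tmul]
      | add x y hx hy => rw [smul_add, hx, hy, add_zero]
    have s2 : ∀ n, n ≤ d → ∀ t : LI (eg k d) ⊗[k] (⊤ : Submodule k M), e (k := k) n • t = 0 := by
      intro n hn t
      induction t using TensorProduct.induction_on with
      | zero => simp
      | tmul a m =>
        have : e (k := k) n • a = 0 := by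
          apply Subtype.ext
          change e n * (a : Alg k) = 0
          rw [← mem_LI.1 a.2, ← mul_assoc, mul_eg_lt hn]
        rw [TensorProduct.smul_tmul', this, TensorProduct.zero_tmul]
      | add x y hx hy => rw [smul_add, hx, hy, add_zero]
    have s3 : ∀ t : LI (e (k := k) d) ⊗[k] Md, ∃ m : Md, e (k := k) d • t = e1 ⊗ₜ m := by
      intro t
      induction t using TensorProduct.induction_on with
      | zero => exact ⟨0, by simp⟩
      | tmul a m =>
        obtain ⟨c, hc⟩ := e_mul_mul_e_self (k := k) d a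
        refine ⟨c • m, ?_⟩
        have : e (k := k) d • a = c • e1 := by
          apply Subtype.ext
          change e d * (a : Alg k) = c • e d
          rw [← mem_LI.1 a.2, ← mul_assoc, hc]
        rw [TensorProduct.smul_tmul', this, TensorProduct.smul_tmul]
      | add x y hx hy =>
        obtain ⟨m1, h1⟩ := hx
        obtain ⟨m2, h2⟩ := hy
        exact ⟨m1 + m2, by rw [smul_add, h1, h2, TensorProduct.tmul_add]⟩
    rintro n hn ⟨⟨t1, t2⟩, ht⟩
    apply Subtype.ext
    change e (k := k) n • (t1, t2) = (0 : _ × _)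
    rw [Prod.smul_mk, s2 n (by omega)]
    rcases Nat.lt_or_ge n d with hn' | hn'
    · rw [s1 n hn']; rfl
    · have hnd : n = d := by omega
      subst hnd
      obtain ⟨m, hm⟩ := s3 t1
      have h1 : (act _ _).coprod (act _ _) (e (k := k) n • (t1, t2)) = 0 := by
        rw [map_smul, LinearMap.mem_ker.1 ht, smul_zero]
      rw [Prod.smul_mk, s2 n le_rfl, hm, LinearMap.coprod_apply, hact, map_zero, add_zero] at h1
      have h2 : (m : M) = 0 := by
        rw [← hMd m]; exact h1
      have h3 : m = 0 := Subtype.ext h2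
      rw [hm, h3, TensorProduct.tmul_zero]; rfl

section ext

variable [CategoryTheory.HasExt.{u} (ModuleCat.{u} (Alg k))]

theorem SuppGe.mono {d d' : ℕ} (h : d ≤ d') {M : Type u} [AddCommGroup M] [Module (Alg k) M]
    (hM : SuppGe k d' M) : SuppGe k d M := fun n hn m => hM n (by omega) m

theorem hom_zero_of_supp {d : ℕ} {M N : Type u} [AddCommGroup M] [Module (Alg k) M]
    [AddCommGroup N] [Module (Alg k) N] (hM : SuppGe k (d + 1) M) (hN : SuppLe k d N)
    (f : M →ₗ[Alg k] N) : f = 0 := by
  ext m
  apply ext_e (k := k)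
  intro n hn
  rw [← map_smul]
  rcases Nat.lt_or_ge n (d + 1) with h | h
  · rw [hM n h, map_zero]; simp
  · rw [map_smul, hN n (by omega)]; simp

/-- `M` in degrees `> d`, `N` in degrees `≤ d`: all Ext groups vanish. -/
theorem EV.supp_lt (n : ℕ) : ∀ {d : ℕ} {M N : Type u} [AddCommGroup M] [Module (Alg k) M]
    [AddCommGroup N] [Module (Alg k) N] (_ : SuppGe k (d + 1) M) (_ : SuppLe k d N),
    EV (Alg k) n M N := by
  induction n with
  | zero =>
    intro d M N _ _ _ _ hM hN
    exact EV.zero_of fun f => hom_zero_of_supp hM hN f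
  | succ n ih =>
    intro d M N _ _ _ _ hM hN
    obtain ⟨F, _, _, _, g, hg, hK⟩ := cover (d + 1) M hM
    exact EV.contra₃ (f := (LinearMap.ker g).subtype) (g := g) Subtype.val_injective hg
      (LinearMap.exact_subtype_ker_map g) (ih (hK.mono (by omega)) hN) (EV.proj n)

/-- `M` in degrees `≥ d`, `N` in degrees `≤ d`: all higher Ext groups vanish. -/
theorem EV.supp_le (n : ℕ) {d : ℕ} {M N : Type u} [AddCommGroup M] [Module (Alg k) M]
    [AddCommGroup N] [Module (Alg k) N] (hM : SuppGe k d M) (hN : SuppLe k d N) :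
    EV (Alg k) (n + 1) M N := by
  obtain ⟨F, _, _, _, g, hg, hK⟩ := cover d M hM
  exact EV.contra₃ (f := (LinearMap.ker g).subtype) (g := g) Subtype.val_injective hg
    (LinearMap.exact_subtype_ker_map g) (EV.supp_lt n hK hN) (EV.proj n)

/-- global dimension bound -/
theorem EV.gldim (t : ℕ) : ∀ {d : ℕ} (_ : d + t = 7) {M N : Type u} [AddCommGroup M]
    [Module (Alg k) M] [AddCommGroup N] [Module (Alg k) N] (_ : SuppGe k d M) (n : ℕ),
    EV (Alg k) (n + t) M N := by
  induction t with
  | zero =>
    intro d hd M N _ _ _ _ hM n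
    have hd' : d = 7 := by omega
    subst hd'
    have : Subsingleton M := ⟨fun a b => by rw [hM.eq_zero a, hM.eq_zero b]⟩
    exact EV.of_subsingleton_left _
  | succ t ih =>
    intro d hd M N _ _ _ _ hM n
    obtain ⟨F, _, _, _, g, hg, hK⟩ := cover d M hM
    exact EV.contra₃ (f := (LinearMap.ker g).subtype) (g := g) Subtype.val_injective hg
      (LinearMap.exact_subtype_ker_map g) (ih (by omega) hK n) (EV.proj (n + t))

theorem EV.of_large {n : ℕ} (hn : 7 ≤ n) {M N : Type u} [AddCommGroup M]
    [Module (Alg k) M] [AddCommGroup N] [Module (Alg k) N] : EV (Alg k) n M N := by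
  obtain ⟨m, rfl⟩ := Nat.exists_eq_add_of_le' hn
  exact EV.gldim 7 (d := 0) (by omega) (fun n hn => by omega) m

end ext

end Pool.Agent.Helper8.Tilt

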