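import Mathlib

/-!
Vanishing of Ext groups between modules, phrased with plain linear maps.
-/

set_option autoImplicit false
universe u

open CategoryTheory

namespace Pool.Agent.Helper8.Tilt

section

variable (A : Type u) [Ring A] [HasExt.{u} (ModuleCat.{u} A)]

/-- `Ext^n_A(M,N) = 0`. -/
def EV (n : ℕ) (M N : Type u) [AddCommGroup M] [Module A M] [AddCommGroup N] [Module A N] : Prop :=
  Subsingleton (Abelian.Ext.{u} (ModuleCat.of A M) (ModuleCat.of A N) n)

end

section ses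

variable {A : Type u} [Ring A]
variable {M' M M'' X : Type u} [AddCommGroup M'] [Module A M'] [AddCommGroup M] [Module A M]
  [AddCommGroup M''] [Module A M''] [AddCommGroup X] [Module A X]

theorem ses {f : M' →ₗ[A] M} {g : M →ₗ[A] M''} (hf : Function.Injective f)
    (hg : Function.Surjective g) (hfg : Function.Exact f g) :
    (ShortComplex.mk (ModuleCat.ofHom f) (ModuleCat.ofHom g) (by
      ext x
      exact (hfg (f x)).2 ⟨x, rfl⟩)).ShortExact := by
  refine ShortComplex.ShortExact.mk' ?_ ?_ ?_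
  · rw [ShortComplex.moduleCat_exact_iff]
    intro x hx
    exact (hfg x).1 hx
  · exact (ModuleCat.mono_iff_injective _).2 hf
  · exact (ModuleCat.epi_iff_surjective _).2 hg

variable [HasExt.{u} (ModuleCat.{u} A)]

theorem EV.zero_of (h : ∀ f : M →ₗ[A] X, f = 0) : EV A 0 M X := by
  refine subsingleton_of_forall_eq 0 fun x => ?_
  obtain ⟨g, rfl⟩ := Abelian.Ext.addEquiv₀.symm.surjective x
  have : g = 0 := by
    ext y
    have := h g.hom
    simp [this]
  simp [this]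

theorem EV.hom_eq_zero (h : EV A 0 M X) (f : M →ₗ[A] X) : f = 0 := by
  have := h
  unfold EV at this
  have e : Abelian.Ext.mk₀ (ModuleCat.ofHom f) = 0 := Subsingleton.elim _ _
  rw [Abelian.Ext.mk₀_eq_zero_iff] at e
  exact ModuleCat.hom_ext_iff.mp e

theorem EV.proj [Module.Projective A M] (n : ℕ) : EV A (n + 1) M X :=
  Abelian.Ext.subsingleton_of_projective (ModuleCat.of A M) (ModuleCat.of A X) n

theorem EV.inj (hX : Module.Injective A X) (n : ℕ) : EV A (n + 1) M X := by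
  have : CategoryTheory.Injective (ModuleCat.of A X) :=
    Module.injective_object_of_injective_module A X
  exact subsingleton_of_forall_eq 0 fun x => Abelian.Ext.eq_zero_of_injective x

variable {f : M' →ₗ[A] M} {g : M →ₗ[A] M''} (hf : Function.Injective f)
    (hg : Function.Surjective g) (hfg : Function.Exact f g)

include hf hg hfg

/-- middle, first variable -/
theorem EV.contra₂ {n : ℕ} (h1 : EV A n M' X) (h3 : EV A n M'' X) : EV A n M X := by
  refine subsingleton_of_forall_eq 0 fun x => ?_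
  obtain ⟨y, rfl⟩ := Abelian.Ext.contravariant_sequence_exact₂ (ses hf hg hfg)
    (ModuleCat.of A X) x (by have := h1; exact @Subsingleton.elim _ h1 _ _)
  have : y = 0 := @Subsingleton.elim _ h3 _ _
  subst this
  simp

/-- `Ext^n(M',X)=0`, `Ext^(n+1)(M,X)=0` gives `Ext^(n+1)(M'',X)=0`. -/
theorem EV.contra₃ {n : ℕ} (h1 : EV A n M' X) (h2 : EV A (n + 1) M X) : EV A (n + 1) M'' X := by
  refine subsingleton_of_forall_eq 0 fun x => ?_
  obtain ⟨y, rfl⟩ := Abelian.Ext.contravariant_sequence_exact₃ (ses hf hg hfg)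
    (ModuleCat.of A X) x (@Subsingleton.elim _ h2 _ _) (n₀ := n) (by omega)
  have : y = 0 := @Subsingleton.elim _ h1 _ _
  subst this
  simp

theorem EV.contra₁ {n : ℕ} (h2 : EV A n M X) (h3 : EV A (n + 1) M'' X) : EV A n M' X := by
  refine subsingleton_of_forall_eq 0 fun x => ?_
  obtain ⟨y, rfl⟩ := Abelian.Ext.contravariant_sequence_exact₁ (ses hf hg hfg)
    (ModuleCat.of A X) x (n₁ := n + 1) (by omega) (@Subsingleton.elim _ h3 _ _)
  have : y = 0 := @Subsingleton.elim _ h2 _ _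
  subst this
  simp

/-- `Ext^1(M'',X)=0` if all maps `M' → X` extend to `M` and `Ext^1(M,X)=0`. -/
theorem EV.one_of_extend (h : ∀ φ : M' →ₗ[A] X, ∃ ψ : M →ₗ[A] X, ψ ∘ₗ f = φ)
    (h2 : EV A 1 M X) : EV A 1 M'' X := by
  refine subsingleton_of_forall_eq 0 fun x => ?_
  obtain ⟨y, rfl⟩ := Abelian.Ext.contravariant_sequence_exact₃ (ses hf hg hfg)
    (ModuleCat.of A X) x (@Subsingleton.elim _ h2 _ _) (n₀ := 0) (by omega)
  obtain ⟨φ, rfl⟩ := Abelian.Ext.addEquiv₀.symm.surjective y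
  obtain ⟨ψ, hψ⟩ := h φ.hom
  have e : φ = ModuleCat.ofHom f ≫ ModuleCat.ofHom ψ := by
    ext x
    have := LinearMap.congr_fun hψ x
    simpa using this.symm
  have : (Abelian.Ext.addEquiv₀.symm φ) =
      (Abelian.Ext.mk₀ (ModuleCat.ofHom f)).comp (Abelian.Ext.mk₀ (ModuleCat.ofHom ψ))
        (zero_add 0) := by
    rw [Abelian.Ext.mk₀_comp_mk₀, e]
    rfl
  rw [this]
  exact (ses hf hg hfg).extClass_comp_assoc (Abelian.Ext.mk₀ (ModuleCat.ofHom ψ))

/-- if `Ext^1(M'',X)=0` then maps `M' → X` extend to `M`. -/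
theorem EV.extend (h3 : EV A 1 M'' X) (φ : M' →ₗ[A] X) : ∃ ψ : M →ₗ[A] X, ψ ∘ₗ f = φ := by
  obtain ⟨y, hy⟩ := Abelian.Ext.contravariant_sequence_exact₁ (ses hf hg hfg)
    (ModuleCat.of A X) (Abelian.Ext.mk₀ (ModuleCat.ofHom φ)) (n₁ := 1) (by omega)
      (@Subsingleton.elim _ h3 _ _)
  obtain ⟨ψ, rfl⟩ := Abelian.Ext.addEquiv₀.symm.surjective y
  refine ⟨ψ.hom, ?_⟩
  have : Abelian.Ext.mk₀ (ModuleCat.ofHom f ≫ ψ) = Abelian.Ext.mk₀ (ModuleCat.ofHom φ) := by
    rw [← hy, ← Abelian.Ext.mk₀_comp_mk₀]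
    rfl
  have := Abelian.Ext.mk₀_bijective _ _ |>.1 this
  have := ModuleCat.hom_ext_iff.mp this
  simpa using this

theorem EV.co₂ {n : ℕ} (h1 : EV A n X M') (h3 : EV A n X M'') : EV A n X M := by
  refine subsingleton_of_forall_eq 0 fun x => ?_
  obtain ⟨y, rfl⟩ := Abelian.Ext.covariant_sequence_exact₂
    (ModuleCat.of A X) (ses hf hg hfg) x (@Subsingleton.elim _ h3 _ _)
  have : y = 0 := @Subsingleton.elim _ h1 _ _
  subst this
  simp

theorem EV.co₁ {n : ℕ} (h3 : EV A n X M'') (h2 : EV A (n + 1) X M) : EV A (n + 1) X M' := by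
  refine subsingleton_of_forall_eq 0 fun x => ?_
  obtain ⟨y, rfl⟩ := Abelian.Ext.covariant_sequence_exact₁
    (ModuleCat.of A X) (ses hf hg hfg) x (@Subsingleton.elim _ h2 _ _) (n₀ := n) (by omega)
  have : y = 0 := @Subsingleton.elim _ h3 _ _
  subst this
  simp

theorem EV.co₃ {n : ℕ} (h2 : EV A n X M) (h1 : EV A (n + 1) X M') : EV A n X M'' := by
  refine subsingleton_of_forall_eq 0 fun x => ?_
  obtain ⟨y, rfl⟩ := Abelian.Ext.covariant_sequence_exact₃
    (ModuleCat.of A X) (ses hf hg hfg) x (n₁ := n + 1) (by omega) (@Subsingleton.elim _ h1 _ _)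
  have : y = 0 := @Subsingleton.elim _ h2 _ _
  subst this
  simp

/-- `Ext^1(X,M')=0` if all maps `X → M''` lift to `M` and `Ext^1(X,M)=0`. -/
theorem EV.one_of_lift (h : ∀ φ : X →ₗ[A] M'', ∃ ψ : X →ₗ[A] M, g ∘ₗ ψ = φ)
    (h2 : EV A 1 X M) : EV A 1 X M' := by
  refine subsingleton_of_forall_eq 0 fun x => ?_
  obtain ⟨y, rfl⟩ := Abelian.Ext.covariant_sequence_exact₁
    (ModuleCat.of A X) (ses hf hg hfg) x (@Subsingleton.elim _ h2 _ _) (n₀ := 0) (by omega)
  obtain ⟨φ, rfl⟩ := Abelian.Ext.addEquiv₀.symm.surjective y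
  obtain ⟨ψ, hψ⟩ := h φ.hom
  have e : φ = ModuleCat.ofHom ψ ≫ ModuleCat.ofHom g := by
    ext x
    have := LinearMap.congr_fun hψ x
    simpa using this.symm
  have : (Abelian.Ext.addEquiv₀.symm φ) =
      (Abelian.Ext.mk₀ (ModuleCat.ofHom ψ)).comp (Abelian.Ext.mk₀ (ModuleCat.ofHom g))
        (zero_add 0) := by
    rw [Abelian.Ext.mk₀_comp_mk₀, e]
    rfl
  rw [this]
  rw [Abelian.Ext.comp_assoc_of_second_deg_zero]
  have h' := (ses hf hg hfg).comp_extClass
  erw [h']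
  simp

end ses

end Pool.Agent.Helper8.Tilt
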