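import Pool.Agent.helper8.Tilt.EV

/-!
Vanishing of Ext and finite sums.
-/

set_option autoImplicit false
universe u

open CategoryTheory

namespace Pool.Agent.Helper8.Tilt

variable {A : Type u} [Ring A] [HasExt.{u} (ModuleCat.{u} A)]
variable {N X : Type u} [AddCommGroup N] [Module A N] [AddCommGroup X] [Module A X]

theorem EV.of_sum_left {ι : Type} [Fintype ι] {M : ι → Type u} [∀ i, AddCommGroup (M i)]
    [∀ i, Module A (M i)] (p : ∀ i, N →ₗ[A] M i) (s : ∀ i, M i →ₗ[A] N)
    (h : ∀ x, ∑ i, s i (p i x) = x) {n : ℕ} (hM : ∀ i, EV A n (M i) X) : EV A n N X := by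
  refine subsingleton_of_forall_eq 0 fun x => ?_
  have e : (𝟙 (ModuleCat.of A N)) = ∑ i, (ModuleCat.ofHom (p i) ≫ ModuleCat.ofHom (s i)) := by
    ext y
    simp only [ModuleCat.hom_id, LinearMap.id_coe, id_eq, ModuleCat.hom_sum,
      LinearMap.coe_sum, Finset.sum_apply, ModuleCat.hom_comp, ModuleCat.hom_ofHom,
      LinearMap.coe_comp, Function.comp_apply]
    exact (h y).symm
  have : x = (Abelian.Ext.mk₀ (𝟙 (ModuleCat.of A N))).comp x (zero_add n) := by simp
  rw [this, e, Abelian.Ext.mk₀_sum, Abelian.Ext.sum_comp]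
  refine Finset.sum_eq_zero fun i _ => ?_
  rw [← Abelian.Ext.mk₀_comp_mk₀, Abelian.Ext.comp_assoc _ _ _ _ (zero_add n) (by omega)]
  have : ((Abelian.Ext.mk₀ (ModuleCat.ofHom (s i))).comp x (zero_add n)) = 0 :=
    @Subsingleton.elim _ (hM i) _ _
  rw [this]
  simp

theorem EV.of_sum_right {ι : Type} [Fintype ι] {M : ι → Type u} [∀ i, AddCommGroup (M i)]
    [∀ i, Module A (M i)] (p : ∀ i, N →ₗ[A] M i) (s : ∀ i, M i →ₗ[A] N)
    (h : ∀ x, ∑ i, s i (p i x) = x) {n : ℕ} (hM : ∀ i, EV A n X (M i)) : EV A n X N := by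
  refine subsingleton_of_forall_eq 0 fun x => ?_
  have e : (𝟙 (ModuleCat.of A N)) = ∑ i, (ModuleCat.ofHom (p i) ≫ ModuleCat.ofHom (s i)) := by
    ext y
    simp only [ModuleCat.hom_id, LinearMap.id_coe, id_eq, ModuleCat.hom_sum,
      LinearMap.coe_sum, Finset.sum_apply, ModuleCat.hom_comp, ModuleCat.hom_ofHom,
      LinearMap.coe_comp, Function.comp_apply]
    exact (h y).symm
  have : x = x.comp (Abelian.Ext.mk₀ (𝟙 (ModuleCat.of A N))) (add_zero n) := by simp
  rw [this, e, Abelian.Ext.mk₀_sum, Abelian.Ext.comp_sum]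
  refine Finset.sum_eq_zero fun i _ => ?_
  rw [← Abelian.Ext.mk₀_comp_mk₀, ← Abelian.Ext.comp_assoc x _ _ (add_zero n) _ (by omega)]
  have : (x.comp (Abelian.Ext.mk₀ (ModuleCat.ofHom (p i))) (add_zero n)) = 0 :=
    @Subsingleton.elim _ (hM i) _ _
  rw [this]
  simp

theorem EV.pi_left {ι : Type} [Fintype ι] [DecidableEq ι] {M : ι → Type u}
    [∀ i, AddCommGroup (M i)]
    [∀ i, Module A (M i)] {n : ℕ} (hM : ∀ i, EV A n (M i) X) : EV A n (∀ i, M i) X :=
  EV.of_sum_left (fun i => LinearMap.proj i) (fun i => LinearMap.single A M i)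
    (fun x => by
      ext j
      simp [Finset.sum_apply, Pi.single_apply]) hM

theorem EV.pi_right {ι : Type} [Fintype ι] [DecidableEq ι] {M : ι → Type u}
    [∀ i, AddCommGroup (M i)]
    [∀ i, Module A (M i)] {n : ℕ} (hM : ∀ i, EV A n X (M i)) : EV A n X (∀ i, M i) :=
  EV.of_sum_right (fun i => LinearMap.proj i) (fun i => LinearMap.single A M i)
    (fun x => by
      ext j
      simp [Finset.sum_apply, Pi.single_apply]) hM

theorem EV.of_retract_left {M : Type u} [AddCommGroup M] [Module A M] (p : N →ₗ[A] M)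
    (s : M →ₗ[A] N) (h : ∀ x, s (p x) = x) {n : ℕ} (hM : EV A n M X) : EV A n N X :=
  EV.of_sum_left (ι := Unit) (M := fun _ => M) (fun _ => p) (fun _ => s) (by simpa using h)
    (fun _ => hM)

theorem EV.of_retract_right {M : Type u} [AddCommGroup M] [Module A M] (p : N →ₗ[A] M)
    (s : M →ₗ[A] N) (h : ∀ x, s (p x) = x) {n : ℕ} (hM : EV A n X M) : EV A n X N :=
  EV.of_sum_right (ι := Unit) (M := fun _ => M) (fun _ => p) (fun _ => s) (by simpa using h)
    (fun _ => hM)

theorem EV.prod_right {M : Type u} [AddCommGroup M] [Module A M] {n : ℕ} (h1 : EV A n X M)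
    (h2 : EV A n X N) : EV A n X (M × N) := by
  refine EV.co₂ (f := LinearMap.inl A M N) (g := LinearMap.snd A M N) LinearMap.inl_injective
    LinearMap.snd_surjective ?_ h1 h2
  exact Function.Exact.inl_snd

theorem EV.prod_left {M : Type u} [AddCommGroup M] [Module A M] {n : ℕ} (h1 : EV A n M X)
    (h2 : EV A n N X) : EV A n (M × N) X := by
  refine EV.contra₂ (f := LinearMap.inl A M N) (g := LinearMap.snd A M N) LinearMap.inl_injective
    LinearMap.snd_surjective ?_ h1 h2
  exact Function.Exact.inl_snd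

end Pool.Agent.Helper8.Tilt
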