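import Pool.Agent.helper8.Tilt.ExtT2
import Pool.Agent.helper8.Tilt.Count

/-!
Endomorphisms of `T1`, `T2`, `T3`, `P j` are scalars.
-/

set_option autoImplicit false
set_option linter.unusedSectionVars false
set_option linter.unusedSimpArgs false
universe u

namespace Pool.Agent.Helper8.Tilt

open S

variable {k : Type u} [Field k]

/-- every endomorphism is a scalar -/
def Sc (k : Type u) [Field k] (N : Type u) [AddCommGroup N] [Module (Alg k) N] : Prop :=
  ∀ f : N →ₗ[Alg k] N, ∃ c : k, ∀ x, f x = algebraMap k (Alg k) c • x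

/-- multiplication by a scalar as a linear map -/
noncomputable def scm (c : k) (N : Type u) [AddCommGroup N] [Module (Alg k) N] :
    N →ₗ[Alg k] N where
  toFun x := algebraMap k (Alg k) c • x
  map_add' x y := smul_add _ _ _
  map_smul' a x := by
    rw [RingHom.id_apply, ← mul_smul, ← mul_smul, Algebra.commutes]

theorem scm_apply (c : k) {N : Type u} [AddCommGroup N] [Module (Alg k) N] (x : N) :
    scm c N x = algebraMap k (Alg k) c • x := rfl

theorem Sc.indec {N : Type u} [AddCommGroup N] [Module (Alg k) N] (h : Sc k N)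
    (hN : Nontrivial N) : Indec (Alg k) N := by
  refine ⟨hN, fun f hf => ?_⟩
  obtain ⟨c, hc⟩ := h f
  obtain ⟨x, hx⟩ := exists_ne (0 : N)
  have h1 := hf x
  rw [hc, hc, ← mul_smul, ← map_mul] at h1
  have h2 : c * c - c = 0 := by
    by_contra hne
    apply hx
    have h3 : algebraMap k (Alg k) (c * c - c) • x = 0 := by
      rw [map_sub, sub_smul, h1, sub_self]
    have h4 : algebraMap k (Alg k) (c * c - c)⁻¹ • algebraMap k (Alg k) (c * c - c) • x = 0 := by
      rw [h3, smul_zero]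
    rw [← mul_smul, ← map_mul, inv_mul_cancel₀ hne, map_one, one_smul] at h4
    exact h4
  have h3 : c * (c - 1) = 0 := by rw [← h2]; ring
  rcases mul_eq_zero.1 h3 with h0 | h0
  · left
    ext y
    rw [hc, h0, map_zero, zero_smul]; rfl
  · right
    have : c = 1 := by rw [← sub_eq_zero]; exact h0
    ext y
    rw [hc, this, map_one, one_smul]; rfl

section generic
variable {A : Type u} [Ring A] {Q X M : Type u} [AddCommGroup Q] [Module A Q]
  [AddCommGroup X] [Module A X] [AddCommGroup M] [Module A M]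

/-- factor through a surjection -/
theorem factor_surj {g : Q →ₗ[A] X} (hg : Function.Surjective g) (φ : Q →ₗ[A] M)
    (h : ∀ x, g x = 0 → φ x = 0) : ∃ ψ : X →ₗ[A] M, ∀ x, ψ (g x) = φ x := by
  refine ⟨(LinearMap.ker g).liftQ φ (fun x hx => LinearMap.mem_ker.2 (h x (LinearMap.mem_ker.1 hx)))
    ∘ₗ (g.quotKerEquivOfSurjective hg).symm.toLinearMap, fun x => ?_⟩
  have : (g.quotKerEquivOfSurjective hg).symm (g x) = (LinearMap.ker g).mkQ x := by
    rw [LinearEquiv.symm_apply_eq]; rfl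
  rw [LinearMap.comp_apply, LinearEquiv.coe_toLinearMap, this]
  rfl

end generic

/-- maps into `Q` from submodules extend -/
def ExtP (k : Type u) [Field k] (Q : Type u) [AddCommGroup Q] [Module (Alg k) Q] : Prop :=
  ∀ (N : Type u) [AddCommGroup N] [Module (Alg k) N] (K : Submodule (Alg k) N)
    (f : K →ₗ[Alg k] Q), ∃ F : N →ₗ[Alg k] Q, ∀ x : K, F x = f x

theorem extP_P (j : Fin 4) : ExtP k (P k j) := fun N _ _ K f =>
  (P.injective j).out K.subtype K.injective_subtype f

theorem extP_P2 (j : Fin 4) : ExtP k (P k j × P k j) := fun N _ _ K f => by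
  obtain ⟨F, hF⟩ := extP_P j N K (LinearMap.fst _ _ _ ∘ₗ f)
  obtain ⟨G, hG⟩ := extP_P j N K (LinearMap.snd _ _ _ ∘ₗ f)
  exact ⟨F.prod G, fun x => Prod.ext (hF x) (hG x)⟩

theorem extP_P6 (j : Fin 4) : ExtP k (Fin 6 → P k j) := fun N _ _ K f => by
  choose F hF using fun t : Fin 6 =>
    extP_P j N K ((LinearMap.proj t : (Fin 6 → P k j) →ₗ[Alg k] P k j) ∘ₗ f)
  exact ⟨LinearMap.pi F, fun x => funext fun t => hF t x⟩

section syz
variable {Q X : Type u} [AddCommGroup Q] [Module (Alg k) Q] [AddCommGroup X] [Module (Alg k) X]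

/-- scalar endomorphisms pass to syzygies -/
theorem Sc.ker {g : Q →ₗ[Alg k] X} (hg : Function.Surjective g) (hQ : ExtP k Q)
    (K : Submodule (Alg k) Q) (hK : ∀ x, x ∈ K ↔ g x = 0)
    (h0 : ∀ f : Q →ₗ[Alg k] K, f = 0) (hX : Sc k X) : Sc k K := by
  intro f
  obtain ⟨F, hF⟩ := hQ Q K (K.subtype ∘ₗ f)
  obtain ⟨G, hG⟩ := factor_surj hg (g ∘ₗ F) (fun x hx => by
    have := hF ⟨x, (hK x).2 hx⟩
    simp only at this
    rw [LinearMap.comp_apply, this]
    exact (hK _).1 (f ⟨x, (hK x).2 hx⟩).2)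
  obtain ⟨c, hc⟩ := hX G
  refine ⟨c, fun x => ?_⟩
  have h1 : ∀ y, (F - scm c Q) y ∈ K := by
    intro y
    rw [hK, LinearMap.sub_apply, map_sub, scm_apply, map_smul, ← hc, hG]
    simp
  have h2 := h0 ((F - scm c Q).codRestrict K h1)
  have h3 : (F - scm c Q) (x : Q) = 0 := congrArg Subtype.val (LinearMap.congr_fun h2 (x : Q))
  apply Subtype.ext
  have h4 := hF x
  rw [LinearMap.sub_apply, sub_eq_zero] at h3
  rw [h3] at h4
  exact h4.symm

/-- scalar endomorphisms pass to cosyzygies -/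
theorem Sc.coker [Module.Projective (Alg k) Q] {f : X →ₗ[Alg k] Q} (hf : Function.Injective f)
    {Y : Type u} [AddCommGroup Y] [Module (Alg k) Y] {g : Q →ₗ[Alg k] Y}
    (hg : Function.Surjective g) (hfg : Function.Exact f g)
    (h0 : ∀ φ : Y →ₗ[Alg k] Q, φ = 0) (hX : Sc k X) : Sc k Y := by
  intro φ
  obtain ⟨F, hF⟩ := Module.projective_lifting_property g (φ ∘ₗ g) hg
  have hF' : ∀ x, g (F x) = φ (g x) := fun x => LinearMap.congr_fun hF x
  have h1 : ∀ x, ∃ y, f y = F (f x) := by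
    intro x
    apply (hfg _).1
    rw [hF', (hfg (f x)).2 ⟨x, rfl⟩, map_zero]
  let e := LinearEquiv.ofInjective f hf
  have h2 : ∀ x, F (f x) ∈ LinearMap.range f := fun x => h1 x
  let G : X →ₗ[Alg k] X := e.symm.toLinearMap ∘ₗ (F ∘ₗ f).codRestrict (LinearMap.range f) h2
  have hG : ∀ x, f (G x) = F (f x) := by
    intro x
    have : e (G x) = ⟨F (f x), h2 x⟩ := by
      change e (e.symm _) = _
      rw [LinearEquiv.apply_symm_apply]; rfl
    exact congrArg Subtype.val this
  obtain ⟨c, hc⟩ := hX G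
  obtain ⟨ψ, hψ⟩ := factor_surj hg (F - scm c Q) (fun x hx => by
    obtain ⟨y, rfl⟩ := (hfg x).1 hx
    rw [LinearMap.sub_apply, ← hG, hc, map_smul, scm_apply, sub_self])
  have hψ0 := h0 ψ
  refine ⟨c, fun y => ?_⟩
  obtain ⟨x, rfl⟩ := hg y
  have h3 := hψ x
  rw [hψ0, LinearMap.zero_apply, LinearMap.sub_apply, eq_comm, sub_eq_zero] at h3
  rw [← hF', h3, scm_apply, map_smul]

end syz

/-- no maps into `P j` from modules without degree `j+3` part -/
theorem socle {j : Fin 4} {M : Type u} [AddCommGroup M] [Module (Alg k) M]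
    (h : ∀ m : M, e (k := k) (j + 3) • m = 0) (f : M →ₗ[Alg k] P k j) : f = 0 := by
  ext x
  apply P.nondeg
  intro b
  rw [← P.z_e_smul, ← map_smul, ← map_smul, h]
  simp

theorem Sc_P (j : Fin 4) : Sc k (P k j) := by
  intro f
  obtain ⟨c, h1⟩ : ∃ c : k, f (P.one j) = c • P.one j := by
    refine ⟨(P.s (f (P.one j))).c, ?_⟩
    have h2 : e (k := k) j • f (P.one j) = f (P.one j) := by
      rw [← map_smul, P.e_smul_one]
    apply P.ext
    rw [← h2, P.e_smul _ (by omega), gpr_self]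
    simp only [map_smul, P.one, P.s_of]
    ext <;> simp
  refine ⟨c, fun x => ?_⟩
  rw [P.apply_eq f x, h1, smul_comm, P.io_smul_one, P.of_s, algebraMap_smul]

section cc
variable {i j : Fin 4} (h : (i : ℕ) = j + 1)

theorem U_supp : SuppGe k (j + 1) (U k h) := by
  rintro n hn ⟨x, hx⟩
  apply Subtype.ext
  change e (k := k) n • x = 0
  apply P.ext
  rw [P.e_smul n (by omega)]
  obtain ⟨t, ht⟩ := (mem_U h).1 hx
  rw [ht]
  rcases Nat.lt_or_ge n j with h' | h'
  · exact gpr_of_lt h' _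
  · have hn3 : n = j := by omega
    subst hn3
    rw [gpr_self]
    ext <;> simp [S.X0]

theorem Sc_C : Sc k (C k h) := by
  intro f
  obtain ⟨y, hy⟩ := (U k h).mkQ_surjective (f ((U k h).mkQ (P.one j)))
  refine ⟨(P.s y).c, fun x => ?_⟩
  obtain ⟨x, rfl⟩ := (U k h).mkQ_surjective x
  have h1 : f ((U k h).mkQ (P.one j)) = (P.s y).c • (U k h).mkQ (P.one j) := by
    have h2 : e (k := k) j • f ((U k h).mkQ (P.one j)) = f ((U k h).mkQ (P.one j)) := by
      rw [← map_smul, ← map_smul, P.e_smul_one]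
    rw [← h2, ← hy, ← map_smul]
    have h3 : e (k := k) j • y = (P.s y).c • P.one j := by
      apply P.ext
      rw [P.e_smul _ (by omega), gpr_self]
      simp only [map_smul, P.one, P.s_of]
      ext <;> simp
    rw [h3]
    rfl
  have h4 : f ((U k h).mkQ x) = io j (P.s x) • f ((U k h).mkQ (P.one j)) := by
    rw [← map_smul, ← map_smul, P.io_smul_one, P.of_s]
  rw [h4, h1, smul_comm, ← map_smul, P.io_smul_one, P.of_s, algebraMap_smul]

theorem Sc_U : Sc k (U k h) :=
  Sc.ker (Submodule.mkQ_surjective _) (extP_P j) (U k h)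
    (fun x => by rw [Submodule.mkQ_apply, Submodule.Quotient.mk_eq_zero])
    (fun f => P_hom_zero (fun m => U_supp h j (by omega) m) f) (Sc_C h)

theorem Sc_V : Sc k (V k h) :=
  Sc.ker (LinearMap.surjective_rangeRestrict (rho k h)) (extP_P i) (V k h)
    (fun x => by
      rw [LinearMap.mem_ker]
      exact ⟨fun h => Subtype.ext h, fun h => congrArg Subtype.val h⟩)
    (fun f => P_hom_zero (fun m => V_supp h i (by omega) m) f) (Sc_U h)

end cc

theorem Sc_KX : Sc k (KX k) :=
  Sc.ker (xi'_surj (k := k)) (extP_P2 2) (KX k)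
    (fun x => by
      rw [LinearMap.mem_ker]
      exact ⟨fun h => Subtype.ext h, fun h => congrArg Subtype.val h⟩)
    (fun f => P2_hom_zero (fun m => KX_supp 2 (by omega) m) f) (Sc_V h10)

theorem Sc_T1 : Sc k (T1 k) :=
  Sc.ker (theta'_surj (k := k)) (extP_P6 3) (T1 k)
    (fun x => by
      rw [LinearMap.mem_ker]
      exact ⟨fun h => Subtype.ext h, fun h => congrArg Subtype.val h⟩)
    (fun f => P6_hom_zero (fun m => T1_supp 3 (by omega) m) f) Sc_KX

theorem Z3_zero (m : Z3 k) : e (k := k) (((1 : Fin 4) : ℕ) + 3) • m = 0 := by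
  obtain ⟨⟨x, y⟩, rfl⟩ := (LinearMap.range (eta k)).mkQ_surjective m
  rw [← map_smul, Submodule.mkQ_apply, Submodule.Quotient.mk_eq_zero]
  refine ⟨P.of 2 ⟨0, 0, 0, 0, 0, 0, 0, 0, 0, (P.s x).z, (P.s y).z, 0⟩, ?_⟩
  apply Prod.ext
  · apply P.ext
    rw [eta_fst]
    change _ = P.s (e (k := k) (((1 : Fin 4) : ℕ) + 3) • x)
    rw [P.e_smul _ (by decide), gpr_add]
    ext <;> simp [S.X3]
  · apply P.ext
    rw [eta_snd]
    change _ = P.s (e (k := k) (((1 : Fin 4) : ℕ) + 3) • y)
    rw [P.e_smul _ (by decide), gpr_add]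
    ext <;> simp [S.X4]

theorem Sc_Z3 : Sc k (Z3 k) :=
  Sc.coker (eta'_inj (k := k)) (Submodule.mkQ_surjective _) eta'_exact (fun φ => by
    refine LinearMap.ext fun x => Prod.ext ?_ ?_
    · exact LinearMap.congr_fun (socle (j := 1) Z3_zero (LinearMap.fst _ _ _ ∘ₗ φ)) x
    · exact LinearMap.congr_fun (socle (j := 1) Z3_zero (LinearMap.snd _ _ _ ∘ₗ φ)) x)
    (Sc_C h32)

instance proj6 (j : Fin 4) : Module.Projective (Alg k) (Fin 6 → P k j) :=
  Module.Projective.of_equiv' (DFinsupp.linearEquivFunOnFintype (R := Alg k)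
    (M := fun _ : Fin 6 => P k j))

theorem Sc_T3 : Sc k (T3 k) :=
  Sc.coker (beta'_inj (k := k)) (Submodule.mkQ_surjective _) beta'_exact (fun φ => by
    refine LinearMap.ext fun x => funext fun t => ?_
    exact LinearMap.congr_fun (socle (j := 0) (fun m => T3_suppLe 3 (by omega) m)
      (LinearMap.proj t ∘ₗ φ)) x)
    Sc_Z3

end Pool.Agent.Helper8.Tilt
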