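import Pool.Agent.helper8.Tilt.Seqs

/-!
Vanishing of the higher Ext groups between `T1`, `T2`, `T3`.
-/

set_option autoImplicit false
set_option linter.unusedSectionVars false
set_option linter.unusedSimpArgs false
universe u

namespace Pool.Agent.Helper8.Tilt

open S

variable {k : Type u} [Field k]

/-! ### supports -/

theorem pi_suppGe {M : Type u} [AddCommGroup M] [Module (Alg k) M] {d : ℕ} (hM : SuppGe k d M)
    (n : ℕ) : SuppGe k d (Fin n → M) := fun l hl x => funext fun t => hM l hl (x t)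

theorem pi_suppLe {M : Type u} [AddCommGroup M] [Module (Alg k) M] {d : ℕ} (hM : SuppLe k d M)
    (n : ℕ) : SuppLe k d (Fin n → M) := fun l hl x => funext fun t => hM l hl (x t)

theorem T1_supp : SuppGe k 4 (T1 k) := by
  rintro n hn ⟨r, hr⟩
  apply Subtype.ext
  change e (k := k) n • r = 0
  funext t
  apply P.ext
  change P.s (e (k := k) n • r t) = 0
  rw [P.e_smul n (by omega)]
  rcases Nat.lt_or_ge n 3 with h | h
  · exact gpr_of_lt h _
  · have hn3 : n = 3 := by omega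
    subst hn3
    have h1 : P.s (theta k r).1 = 0 := by rw [LinearMap.mem_ker.1 hr]; rfl
    have h2 : P.s (theta k r).2 = 0 := by rw [LinearMap.mem_ker.1 hr]; rfl
    rw [theta_fst] at h1
    rw [theta_snd] at h2
    have a0 := congrArg S.x1 h1
    have a2 := congrArg S.x2 h1
    have a3 := congrArg S.x4 h1
    have a4 := congrArg S.x0 h1
    have b1 := congrArg S.x2 h2
    have b5 := congrArg S.x0 h2
    simp [S.X0, S.X1, S.X2, S.X4] at a0 a2 a3 a4 b1 b5
    rw [a2, a3] at a4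
    simp at a4
    change gpr 3 3 (P.s (r t)) = 0
    rw [gpr_self]
    have : (P.s (r t)).c = 0 := by
      fin_cases t
      · exact a0
      · exact b1
      · exact a2
      · exact a3
      · exact a4
      · exact b5
    ext <;> simp [this]

theorem KX_supp : SuppGe k 3 (KX k) := by
  rintro n hn ⟨⟨x, y⟩, hr⟩
  apply Subtype.ext
  have h1 : P.s x * S.X1 + P.s y * S.X2 = 0 := by
    rw [← xi_apply (k := k) (x, y), LinearMap.mem_ker.1 hr]; rfl
  have a0 := congrArg S.x1 h1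
  have a1 := congrArg S.x2 h1
  simp [S.X1, S.X2] at a0 a1
  have key : ∀ z : P k 2, (P.s z).c = 0 → e (k := k) n • z = 0 := by
    intro z hz
    apply P.ext
    rw [P.e_smul n (by omega)]
    rcases Nat.lt_or_ge n 2 with h | h
    · exact gpr_of_lt h _
    · have hn3 : n = 2 := by omega
      subst hn3
      change gpr 2 2 (P.s z) = 0
      rw [gpr_self]
      ext <;> simp [hz]
  change (e (k := k) n • x, e (k := k) n • y) = (0, 0)
  rw [key x a0, key y a1]

theorem T2_suppLe : SuppLe k 4 (T2 k) := sub_suppLe (P_supp 1) _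

theorem T2_supp : SuppGe k 2 (T2 k) := by
  rintro n hn ⟨x, hx⟩
  apply Subtype.ext
  change e (k := k) n • x = 0
  apply P.ext
  rw [P.e_smul n (by omega)]
  obtain ⟨t, ht⟩ := (mem_U h21).1 hx
  rw [ht]
  rcases Nat.lt_or_ge n 1 with h | h
  · exact gpr_of_lt h _
  · have hn3 : n = 1 := by omega
    subst hn3
    change gpr 1 1 _ = 0
    rw [gpr_self]
    ext <;> simp [S.X0]

/-- `V 0` and `Vq 0` are submodules of `P 1` supported in degrees `2,3,4`. -/
theorem Vq_supp : SuppGe k 2 (Vq k h10) := by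
  rintro n hn ⟨x, hx⟩
  apply Subtype.ext
  change e (k := k) n • x = 0
  apply P.ext
  rw [P.e_smul n (by omega)]
  rw [mem_Vq] at hx
  rcases Nat.lt_or_ge n 1 with h | h
  · exact gpr_of_lt h _
  · have hn3 : n = 1 := by omega
    subst hn3
    change gpr 1 1 _ = 0
    rw [gpr_self]
    have a := congrArg S.x2 hx
    simp [qq, S.X2, S.X3] at a
    ext <;> simp [a]

theorem Vq_suppLe : SuppLe k 4 (Vq k h10) := sub_suppLe (P_supp 1) _

theorem T3_suppLe : SuppLe k 2 (T3 k) := by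
  intro n hn x
  obtain ⟨y, rfl⟩ := (LinearMap.range (beta k)).mkQ_surjective x
  rw [← map_smul]
  rcases Nat.lt_or_ge 3 n with h | h
  · rw [pi_suppLe (P_supp (k := k) 0) 6 n h y, map_zero]
  · have hn3 : n = 3 := by omega
    subst hn3
    rw [Submodule.mkQ_apply, Submodule.Quotient.mk_eq_zero]
    set z : Fin 6 → k := fun t => (P.s (y t)).z with hz
    refine ⟨(P.of 1 ⟨0, 0, 0, 0, 0, 0, 0, z 3, -z 1, z 0, -z 2, 0⟩,
      P.of 1 ⟨0, 0, 0, 0, 0, 0, 0, 0, 0, z 4, -z 5, 0⟩), ?_⟩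
    funext t
    apply P.ext
    rw [beta_apply]
    change _ = P.s (e (k := k) 3 • y t)
    have hg : gpr 3 ((0 : Fin 4) : ℕ) (P.s (y t)) = pr 3 (P.s (y t)) := gpr_add 0 3 _
    rw [P.e_smul 3 (by omega), hg]
    fin_cases t <;> simp only [ba, bb] <;> ext <;>
      simp [S.X0, S.X1, S.X2, S.X3, S.X4, hz]

/-! ### Ext -/

variable [CategoryTheory.HasExt.{u} (ModuleCat.{u} (Alg k))]
variable {X : Type u} [AddCommGroup X] [Module (Alg k) X]

theorem injP (j : Fin 4) (n : ℕ) : EV (Alg k) (n + 1) X (P k j) := EV.inj (P.injective j) n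
theorem injP2 (j : Fin 4) (n : ℕ) : EV (Alg k) (n + 1) X (P k j × P k j) :=
  EV.prod_right (injP j n) (injP j n)
theorem injP6 (j : Fin 4) (n : ℕ) : EV (Alg k) (n + 1) X (Fin 6 → P k j) :=
  EV.pi_right (M := fun _ : Fin 6 => P k j) fun _ => injP j n
theorem projP (j : Fin 4) (n : ℕ) : EV (Alg k) (n + 1) (P k j) X := EV.proj n
theorem projP2 (j : Fin 4) (n : ℕ) : EV (Alg k) (n + 1) (P k j × P k j) X :=
  EV.prod_left (projP j n) (projP j n)
theorem projP6 (j : Fin 4) (n : ℕ) : EV (Alg k) (n + 1) (Fin 6 → P k j) X :=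
  EV.pi_left (M := fun _ : Fin 6 => P k j) fun _ => projP j n

section cc
variable {i j : Fin 4} (h : (i : ℕ) = j + 1)

/-- (d) -/
theorem fact_d (n : ℕ) : EV (Alg k) (n + 1) (C k h) (C k h) := by
  refine R_pos h ?_ ?_ ?_ n
  · intro n hn x
    obtain ⟨y, rfl⟩ := (U k h).mkQ_surjective x
    rw [← map_smul]
    rcases Nat.lt_or_ge (j + 3) n with h' | h'
    · rw [P_supp (k := k) j n h' y, map_zero]
    · have hn3 : n = j + 3 := by omega
      subst hn3
      rw [Submodule.mkQ_apply, Submodule.Quotient.mk_eq_zero, mem_U]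
      refine ⟨⟨0, 0, 0, 0, 0, 0, (P.s y).z, 0, 0, 0, 0, 0⟩, ?_⟩
      rw [P.e_smul _ (by omega), gpr_add]
      ext <;> simp [S.X0]
  · intro n hn h1 h2
    obtain ⟨y, rfl⟩ := (U k h).mkQ_surjective n
    rw [← hn, ← map_smul] at h1 h2 ⊢
    rw [← map_smul, Submodule.mkQ_apply, Submodule.Quotient.mk_eq_zero, mem_U] at h1 h2
    obtain ⟨t1, ht1⟩ := h1
    obtain ⟨t2, ht2⟩ := h2
    have hi : P.s (e (k := k) i • y) = pr 1 (P.s y) := by
      rw [P.e_smul _ (by omega), h, gpr_add]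
    rw [P.io_smul_le _ (by omega), hi, h, gpr_add, pr_pr_self] at ht1 ht2
    have a1 := congrArg S.y3 ht1
    have a2 := congrArg S.y4 ht1
    have b1 := congrArg S.y3 ht2
    have b2 := congrArg S.y4 ht2
    simp [S.X0, S.X1, S.X2] at a1 a2 b1 b2
    refine ⟨0, ?_⟩
    rw [smul_zero]
    symm
    rw [Submodule.mkQ_apply, Submodule.Quotient.mk_eq_zero, mem_U]
    refine ⟨(P.s y).x0 • 1, ?_⟩
    rw [hi]
    ext <;> simp [S.X0, a1, a2, b1, b2]
  · intro n1 n2 hn1 hn2
    obtain ⟨y1, rfl⟩ := (U k h).mkQ_surjective n1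
    obtain ⟨y2, rfl⟩ := (U k h).mkQ_surjective n2
    rw [← hn1, ← hn2]
    refine ⟨(U k h).mkQ (P.of j ⟨0, 0, (P.s y2).y3, (P.s y1).y3, (P.s y1).y4, (P.s y2).y4,
      0, 0, 0, 0, 0, 0⟩), ?_, ?_⟩
    · rw [← LinearMap.map_smul, ← LinearMap.map_smul, ← sub_eq_zero, ← LinearMap.map_sub,
        Submodule.mkQ_apply, Submodule.Quotient.mk_eq_zero, mem_U, map_sub, P.io_smul_le _ (by omega),
        P.e_smul _ (by omega), gpr_add, h, gpr_add, P.s_of]
      refine ⟨⟨0, (P.s y1).y4 - (P.s y1).y0, 0, 0, - (P.s y1).y1,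
        (P.s y1).y4 - (P.s y1).y2, 0, 0, 0, 0, 0, 0⟩, ?_⟩
      ext <;> simp [S.X0, S.X1, S.X2]
    · rw [← LinearMap.map_smul, ← LinearMap.map_smul, ← sub_eq_zero, ← LinearMap.map_sub,
        Submodule.mkQ_apply, Submodule.Quotient.mk_eq_zero, mem_U, map_sub, P.io_smul_le _ (by omega),
        P.e_smul _ (by omega), gpr_add, h, gpr_add, P.s_of]
      refine ⟨⟨0, (P.s y2).y4 - (P.s y2).y0, 0, 0, (P.s y1).y4 - (P.s y2).y1,
        - (P.s y2).y2, 0, 0, 0, 0, 0, 0⟩, ?_⟩
      ext <;> simp [S.X0, S.X1, S.X2]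

end cc

end Pool.Agent.Helper8.Tilt
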