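import Pool.Agent.helper8.Tilt.ExtT

/-!
Vanishing of the higher Ext groups between `T1`, `T2`, `T3`, and into `Y = Vq`.
-/

set_option autoImplicit false
set_option linter.unusedSectionVars false
set_option linter.unusedSimpArgs false
universe u

namespace Pool.Agent.Helper8.Tilt

open S

section generic
variable {A : Type u} [Ring A] [CategoryTheory.HasExt.{u} (ModuleCat.{u} A)]
variable {X' Q X W' Q' W : Type u} [AddCommGroup X'] [Module A X'] [AddCommGroup Q] [Module A Q]
  [AddCommGroup X] [Module A X] [AddCommGroup W'] [Module A W'] [AddCommGroup Q'] [Module A Q']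
  [AddCommGroup W] [Module A W]
  {f : X' →ₗ[A] Q} {g : Q →ₗ[A] X} (hf : Function.Injective f) (hg : Function.Surjective g)
  (hfg : Function.Exact f g)
  {f' : W' →ₗ[A] Q'} {g' : Q' →ₗ[A] W} (hf' : Function.Injective f')
  (hg' : Function.Surjective g') (hfg' : Function.Exact f' g')

include hf hg hfg hf' hg' hfg' in
theorem EV.shift {n : ℕ} (hQ : ∀ n, EV A (n + 1) Q W') (hQ' : ∀ n, EV A (n + 1) X Q')
    (h : EV A (n + 1) X W) : EV A (n + 1) X' W' :=
  EV.contra₁ hf hg hfg (hQ n) (EV.co₁ hf' hg' hfg' h (hQ' (n + 1)))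

include hf hg hfg hf' hg' hfg' in
theorem EV.unshift {n : ℕ} (hQ : ∀ n, EV A (n + 1) Q W') (hQ' : ∀ n, EV A (n + 1) X Q')
    (h : EV A (n + 1) X' W') : EV A (n + 1) X W :=
  EV.co₃ hf' hg' hfg' (hQ' n) (EV.contra₃ hf hg hfg h (hQ (n + 1)))

end generic

variable {k : Type u} [Field k]
variable [CategoryTheory.HasExt.{u} (ModuleCat.{u} (Alg k))]
variable {M : Type u} [AddCommGroup M] [Module (Alg k) M]

/-! ### self-extensions -/

section
variable {i j : Fin 4} (h : (i : ℕ) = j + 1)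

theorem UU (n : ℕ) : EV (Alg k) (n + 1) (U k h) (U k h) :=
  EV.shift (Submodule.injective_subtype _) (Submodule.mkQ_surjective _) (exact_UC h)
    (Submodule.injective_subtype _) (Submodule.mkQ_surjective _) (exact_UC h)
    (fun n => projP j n) (fun n => injP j n) (fact_d h n)

theorem VV (n : ℕ) : EV (Alg k) (n + 1) (V k h) (V k h) :=
  EV.shift (Submodule.injective_subtype _) (LinearMap.surjective_rangeRestrict _) (exact_VU h)
    (Submodule.injective_subtype _) (LinearMap.surjective_rangeRestrict _) (exact_VU h)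
    (fun n => projP i n) (fun n => injP i n) (UU h n)

end

theorem KK (n : ℕ) : EV (Alg k) (n + 1) (KX k) (KX k) :=
  EV.shift (Submodule.injective_subtype _) xi'_surj xi'_exact
    (Submodule.injective_subtype _) xi'_surj xi'_exact
    (fun n => projP2 2 n) (fun n => injP2 2 n) (VV h10 n)

theorem ext11 (n : ℕ) : EV (Alg k) (n + 1) (T1 k) (T1 k) :=
  EV.shift (Submodule.injective_subtype _) theta'_surj theta'_exact
    (Submodule.injective_subtype _) theta'_surj theta'_exact
    (fun n => projP6 3 n) (fun n => injP6 3 n) (KK n)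

theorem ext22 (n : ℕ) : EV (Alg k) (n + 1) (T2 k) (T2 k) := UU h21 n

theorem ZZ (n : ℕ) : EV (Alg k) (n + 1) (Z3 k) (Z3 k) :=
  EV.unshift eta'_inj (Submodule.mkQ_surjective _) eta'_exact
    eta'_inj (Submodule.mkQ_surjective _) eta'_exact
    (fun n => projP2 1 n) (fun n => injP2 1 n) (fact_d h32 n)

theorem ext33 (n : ℕ) : EV (Alg k) (n + 1) (T3 k) (T3 k) :=
  EV.unshift beta'_inj (Submodule.mkQ_surjective _) beta'_exact
    beta'_inj (Submodule.mkQ_surjective _) beta'_exact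
    (fun n => projP6 0 n) (fun n => injP6 0 n) (ZZ n)

/-! ### easy directions -/

theorem ext12 (n : ℕ) : EV (Alg k) (n + 1) (T1 k) (T2 k) := EV.supp_le n T1_supp T2_suppLe

theorem T3_suppLe4 : SuppLe k 4 (T3 k) := fun n hn m => T3_suppLe n (by omega) m

theorem ext13 (n : ℕ) : EV (Alg k) (n + 1) (T1 k) (T3 k) := EV.supp_le n T1_supp T3_suppLe4

theorem ext23 (n : ℕ) : EV (Alg k) (n + 1) (T2 k) (T3 k) := EV.supp_le n T2_supp T3_suppLe

theorem ext1Y (n : ℕ) : EV (Alg k) (n + 1) (T1 k) (Vq k h10) := EV.supp_le n T1_supp Vq_suppLe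

/-! ### hom groups out of projectives -/

theorem P_hom_zero {j : Fin 4} (h : ∀ m : M, e (k := k) j • m = 0) (f : P k j →ₗ[Alg k] M) :
    f = 0 := by
  apply P.hom_ext'
  rw [← P.e_smul_one, map_smul, h]; rfl

theorem P2_hom_zero {j : Fin 4} (h : ∀ m : M, e (k := k) j • m = 0)
    (f : P k j × P k j →ₗ[Alg k] M) : f = 0 := by
  apply LinearMap.prod_ext
  · rw [P_hom_zero h (f ∘ₗ LinearMap.inl _ _ _)]; rfl
  · rw [P_hom_zero h (f ∘ₗ LinearMap.inr _ _ _)]; rfl

theorem P6_hom_zero {j : Fin 4} (h : ∀ m : M, e (k := k) j • m = 0)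
    (f : (Fin 6 → P k j) →ₗ[Alg k] M) : f = 0 := by
  apply LinearMap.pi_ext'
  intro t
  rw [P_hom_zero h (f ∘ₗ LinearMap.single (Alg k) (fun _ : Fin 6 => P k j) t)]; rfl

theorem hom_zero_of_surj {Q X : Type u} [AddCommGroup Q] [Module (Alg k) Q] [AddCommGroup X]
    [Module (Alg k) X] {g : Q →ₗ[Alg k] X} (hg : Function.Surjective g)
    (h : ∀ f : Q →ₗ[Alg k] M, f = 0) (f : X →ₗ[Alg k] M) : f = 0 := by
  ext x
  obtain ⟨y, rfl⟩ := hg x
  exact LinearMap.congr_fun (h (f ∘ₗ g)) y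

/-- everything about maps out of `T3` -/
theorem T3_hom_zero (h0 : ∀ m : M, e (k := k) 0 • m = 0) (f : T3 k →ₗ[Alg k] M) : f = 0 :=
  hom_zero_of_surj (Submodule.mkQ_surjective _) (fun g => P6_hom_zero (j := 0) h0 g) f

theorem g3 (h1 : ∀ m : M, e (k := k) 1 • m = 0) (hC : ∀ n, EV (Alg k) n (C k h32) M) (n : ℕ) :
    EV (Alg k) (n + 1) (T3 k) M := by
  have hZ : ∀ n, EV (Alg k) n (Z3 k) M := by
    intro n
    cases n with
    | zero =>
      exact EV.zero_of fun f => hom_zero_of_surj (Submodule.mkQ_surjective _)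
        (fun g => P2_hom_zero (j := 1) h1 g) f
    | succ n =>
      exact EV.contra₃ eta'_inj (Submodule.mkQ_surjective _) eta'_exact (hC n) (projP2 1 n)
  exact EV.contra₃ beta'_inj (Submodule.mkQ_surjective _) beta'_exact (hZ n) (projP6 0 n)

theorem ext32 (n : ℕ) : EV (Alg k) (n + 1) (T3 k) (T2 k) :=
  g3 (fun m => T2_supp 1 (by omega) m) (fun n => fact_a h32 h21 n) n

theorem ext3Y (n : ℕ) : EV (Alg k) (n + 1) (T3 k) (Vq k h10) :=
  g3 (fun m => Vq_supp 1 (by omega) m) (fun n => fact_cq h32 h21 h10 n) n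

/-- `RHom(X, V 0) = 0` and no maps to `KX`, `T1` gives `RHom(X,T1)=0` -/
theorem into_T1 {X : Type u} [AddCommGroup X] [Module (Alg k) X]
    (hV : ∀ n, EV (Alg k) n X (V k h10)) (h1 : ∀ f : X →ₗ[Alg k] KX k, f = 0)
    (h2 : ∀ f : X →ₗ[Alg k] T1 k, f = 0) (n : ℕ) : EV (Alg k) n X (T1 k) := by
  have hK : ∀ n, EV (Alg k) n X (KX k) := by
    intro n
    cases n with
    | zero => exact EV.zero_of h1
    | succ n => exact EV.co₁ (Submodule.injective_subtype _) xi'_surj xi'_exact (hV n) (injP2 2 n)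
  cases n with
  | zero => exact EV.zero_of h2
  | succ n => exact EV.co₁ (Submodule.injective_subtype _) theta'_surj theta'_exact (hK n) (injP6 3 n)

theorem ext31 (n : ℕ) : EV (Alg k) (n + 1) (T3 k) (T1 k) := by
  refine g3 (fun m => T1_supp 1 (by omega) m) (fun n => into_T1 ?_ ?_ ?_ n) n
  · exact fun n => fact_c h32 h21 h10 n
  · exact fun f => C_hom_zero h32 (fun m hm _ => by
      rw [← hm]; exact KX_supp 2 (by omega) m) f
  · exact fun f => C_hom_zero h32 (fun m hm _ => by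
      rw [← hm]; exact T1_supp 2 (by omega) m) f

/-- `RHom(T2, V 0) = 0` -/
theorem ev2V (n : ℕ) : EV (Alg k) n (T2 k) (V k h10) := by
  have hC1 : ∀ n, EV (Alg k) (n + 1) (C k h21) (V k h10) := fun n =>
    EV.co₁ (Submodule.injective_subtype _) (LinearMap.surjective_rangeRestrict _) (exact_VU h10)
      (fact_a h21 h10 n) (injP 1 n)
  cases n with
  | zero =>
    refine EV.contra₁ (Submodule.injective_subtype _) (Submodule.mkQ_surjective _) (exact_UC h21) ?_ (hC1 0)
    exact EV.zero_of fun f => P_hom_zero (j := 1) (fun m => V_supp h10 1 (by decide) m) f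
  | succ n =>
    exact EV.contra₁ (Submodule.injective_subtype _) (Submodule.mkQ_surjective _) (exact_UC h21)
      (projP 1 n) (hC1 (n + 1))

theorem T2_hom_zero (h : ∀ m : M, e (k := k) 2 • m = 0) (f : T2 k →ₗ[Alg k] M) : f = 0 :=
  hom_zero_of_surj (LinearMap.surjective_rangeRestrict (rho k h21))
    (fun g => P_hom_zero (j := 2) h g) f

theorem ext21 (n : ℕ) : EV (Alg k) (n + 1) (T2 k) (T1 k) :=
  into_T1 ev2V (T2_hom_zero fun m => KX_supp 2 (by omega) m)
    (T2_hom_zero fun m => T1_supp 2 (by omega) m) (n + 1)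

theorem exact_VUq {i j : Fin 4} (h : (i : ℕ) = j + 1) :
    Function.Exact (Vq k h).subtype (rhoq k h).rangeRestrict := by
  intro x
  constructor
  · intro hx
    exact ⟨⟨x, LinearMap.mem_ker.2 (congrArg Subtype.val hx)⟩, rfl⟩
  · rintro ⟨⟨x, hx⟩, rfl⟩
    exact Subtype.ext (LinearMap.mem_ker.1 hx)

/-- `RHom(T2, Y) = 0` -/
theorem ev2Y (n : ℕ) : EV (Alg k) n (T2 k) (Vq k h10) := by
  have hC1 : ∀ n, EV (Alg k) (n + 1) (C k h21) (Vq k h10) := fun n =>
    EV.co₁ (Submodule.injective_subtype _) (LinearMap.surjective_rangeRestrict _) (exact_VUq h10)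
      (fact_aq h21 h10 n) (injP 1 n)
  cases n with
  | zero =>
    refine EV.contra₁ (Submodule.injective_subtype _) (Submodule.mkQ_surjective _) (exact_UC h21) ?_ (hC1 0)
    exact EV.zero_of fun f => P_hom_zero (j := 1) (fun m => Vq_supp 1 (by decide) m) f
  | succ n =>
    exact EV.contra₁ (Submodule.injective_subtype _) (Submodule.mkQ_surjective _) (exact_UC h21)
      (projP 1 n) (hC1 (n + 1))

end Pool.Agent.Helper8.Tilt
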