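import Pool.Agent.helper8.Tilt.Mods

/-!
The concrete orthogonality computations.
-/

set_option autoImplicit false
set_option linter.unusedSectionVars false
set_option linter.unusedSimpArgs false
universe u

namespace Pool.Agent.Helper8.Tilt

open S

variable {k : Type u} [Field k]

section sub

variable {i j l : Fin 4} (h : (i : ℕ) = j + 1) (hl : (j : ℕ) = l + 1)

theorem P_supp (l : Fin 4) : SuppLe k (l + 3) (P k l) := by
  intro n hn x
  by_cases hn7 : n < 7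
  · apply P.ext
    rw [P.e_smul n hn7, gpr_of_far (by omega), map_zero]
  · rw [e_ge (by omega), zero_smul]

theorem P_supp_ge (l : Fin 4) : SuppGe k l (P k l) := by
  intro n hn x
  apply P.ext
  rw [P.e_smul n (by omega), gpr_of_lt hn, map_zero]

theorem sub_suppLe {M : Type u} [AddCommGroup M] [Module (Alg k) M] {d : ℕ} (hM : SuppLe k d M)
    (N : Submodule (Alg k) M) : SuppLe k d N := by
  rintro n hn ⟨x, hx⟩
  exact Subtype.ext (hM n hn x)

theorem sub_suppGe {M : Type u} [AddCommGroup M] [Module (Alg k) M] {d : ℕ} (hM : SuppGe k d M)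
    (N : Submodule (Alg k) M) : SuppGe k d N := by
  rintro n hn ⟨x, hx⟩
  exact Subtype.ext (hM n hn x)

/-- the second point `q = x₂ + y₁` -/
def qq : S k := S.X2 + S.X3

theorem homqq (j : ℕ) : Hom' (j + 1) j (qq : S k) := (homX2 j).add (homX3 j)

include h in
theorem hq : Hom' (i : ℕ) (j : ℕ) (qq : S k) := by rw [h]; exact homqq _

/-- right multiplication by `q` -/
noncomputable def rhoq (k : Type u) [Field k] {i j : Fin 4} (h : (i : ℕ) = j + 1) :
    P k i →ₗ[Alg k] P k j := P.rm i j qq (hq h)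

theorem rhoq_apply (x : P k i) : P.s (rhoq k h x) = P.s x * qq := P.rm_apply _ _ _ _ _

noncomputable abbrev Uq (k : Type u) [Field k] {i j : Fin 4} (h : (i : ℕ) = j + 1) :
    Submodule (Alg k) (P k j) := LinearMap.range (rhoq k h)

noncomputable abbrev Vq (k : Type u) [Field k] {i j : Fin 4} (h : (i : ℕ) = j + 1) :
    Submodule (Alg k) (P k i) := LinearMap.ker (rhoq k h)

theorem mem_U {x : P k j} : x ∈ U k h ↔ ∃ t, P.s x = t * S.X0 := by
  constructor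
  · rintro ⟨y, rfl⟩
    exact ⟨P.s y, rho_apply h y⟩
  · rintro ⟨t, ht⟩
    exact ⟨P.of i t, P.ext (by rw [rho_apply, P.s_of, ht])⟩

theorem mem_Uq {x : P k j} : x ∈ Uq k h ↔ ∃ t, P.s x = t * qq := by
  constructor
  · rintro ⟨y, rfl⟩
    exact ⟨P.s y, rhoq_apply h y⟩
  · rintro ⟨t, ht⟩
    exact ⟨P.of i t, P.ext (by rw [rhoq_apply, P.s_of, ht])⟩

theorem mem_Vq {x : P k i} : x ∈ Vq k h ↔ P.s x * qq = 0 := by
  rw [LinearMap.mem_ker]
  constructor
  · intro hx; rw [← rhoq_apply h, hx, map_zero]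
  · intro hx; apply P.ext; rw [rhoq_apply, hx, map_zero]

variable [CategoryTheory.HasExt.{u} (ModuleCat.{u} (Alg k))]

include hl in
/-- `RHom(C, M) = 0` for submodules `M` of `P l`. -/
theorem R_sub (M : Submodule (Alg k) (P k l)) (Q : S k → Prop)
    (hQ : ∀ x : P k l, x ∈ M ↔ Q (P.s x))
    (q0 : ∀ s, Q s → pr 1 s = s → S.X0 * s = 0 → s = 0)
    (q1 : ∀ s, Q s → pr 2 s = s → S.X1 * s = 0 → S.X2 * s = 0 → ∃ t, Q t ∧ S.X0 * pr 1 t = s)
    (q2 : ∀ s1 s2, Q s1 → Q s2 → pr 3 s1 = s1 → pr 3 s2 = s2 →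
      ∃ t, Q t ∧ S.X1 * pr 2 t = s1 ∧ S.X2 * pr 2 t = s2) (n : ℕ) :
    EV (Alg k) n (C k h) M := by
  have hi2 : (i : ℕ) = l + 2 := by omega
  have hj3 : (j : ℕ) + 2 = l + 3 := by omega
  refine R_all h ?_ ?_ ?_ ?_ n
  · rw [hj3]; exact sub_suppLe (P_supp l) M
  · rintro ⟨x, hx⟩ h1 h2
    have h1' : P.s (e (k := k) j • x) = P.s x := congrArg (fun y : M => P.s (y : P k l)) h1
    have h2' : P.s ((io j S.X0 : Alg k) • x) = 0 := congrArg (fun y : M => P.s (y : P k l)) h2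
    rw [P.e_smul _ (by omega), hl, gpr_add] at h1'
    rw [P.io_smul_le _ (by omega), hl, gpr_add, h1'] at h2'
    apply Subtype.ext
    exact P.ext (q0 _ ((hQ x).1 hx) h1' h2')
  · rintro ⟨x, hx⟩ h1 h2 h3
    have h1' : P.s (e (k := k) i • x) = P.s x := congrArg (fun y : M => P.s (y : P k l)) h1
    have h2' : P.s ((io i S.X1 : Alg k) • x) = 0 := congrArg (fun y : M => P.s (y : P k l)) h2
    have h3' : P.s ((io i S.X2 : Alg k) • x) = 0 := congrArg (fun y : M => P.s (y : P k l)) h3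
    rw [P.e_smul _ (by omega), hi2, gpr_add] at h1'
    rw [P.io_smul_le _ (by omega), hi2, gpr_add, h1'] at h2' h3'
    obtain ⟨t, ht, ht'⟩ := q1 _ ((hQ x).1 hx) h1' h2' h3'
    refine ⟨⟨P.of l t, (hQ _).2 ht⟩, ?_⟩
    apply Subtype.ext
    apply P.ext
    change P.s ((io j S.X0 : Alg k) • P.of l t) = P.s x
    rw [P.io_smul_le _ (by omega), hl, gpr_add, P.s_of, ht']
  · rintro ⟨x, hx⟩ ⟨y, hy⟩ h1 h2
    have h1' : P.s (e (k := k) (j + 2) • x) = P.s x :=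
      congrArg (fun y : M => P.s (y : P k l)) h1
    have h2' : P.s (e (k := k) (j + 2) • y) = P.s y :=
      congrArg (fun y : M => P.s (y : P k l)) h2
    rw [P.e_smul _ (by omega), hj3, gpr_add] at h1' h2'
    obtain ⟨t, ht, ht1, ht2⟩ := q2 _ _ ((hQ x).1 hx) ((hQ y).1 hy) h1' h2'
    refine ⟨⟨P.of l t, (hQ _).2 ht⟩, ?_, ?_⟩
    · apply Subtype.ext
      apply P.ext
      change P.s ((io i S.X1 : Alg k) • P.of l t) = P.s x
      rw [P.io_smul_le _ (by omega), hi2, gpr_add, P.s_of, ht1]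
    · apply Subtype.ext
      apply P.ext
      change P.s ((io i S.X2 : Alg k) • P.of l t) = P.s y
      rw [P.io_smul_le _ (by omega), hi2, gpr_add, P.s_of, ht2]

/-- (a) `RHom(C_j, U_{j-1}) = 0` -/
theorem fact_a (n : ℕ) : EV (Alg k) n (C k h) (U k hl) := by
  refine R_sub h hl (U k hl) (fun s => ∃ t, s = t * S.X0) (fun x => mem_U hl) ?_ ?_ ?_ n
  · rintro _ ⟨t, rfl⟩ h1 h2
    have a1 := congrArg S.y0 h1.symm
    have a2 := congrArg S.y1 h1.symm
    have a3 := congrArg S.y2 h1.symm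
    have a4 := congrArg S.z h1.symm
    have b1 := congrArg S.y0 h2
    simp [S.X0] at a1 a2 a3 a4 b1
    ext <;> simp [S.X0, a1, a2, a3, a4, b1]
  · rintro _ ⟨t, rfl⟩ h1 h2 h3
    have a1 := congrArg S.x0 h1.symm
    have a4 := congrArg S.z h1.symm
    have b1 := congrArg S.z h2
    have b2 := congrArg S.z h3
    simp [S.X0, S.X1, S.X2] at a1 a4 b1 b2
    refine ⟨t.x0 • S.X0, ⟨t.x0 • 1, by simp⟩, ?_⟩
    ext <;> simp [S.X0, a1, a4, b1, b2]
  · rintro s1 s2 _ _ h1 h2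
    refine ⟨(s1.z • S.X3 + s2.z • S.X4) * S.X0, ⟨_, rfl⟩, ?_, ?_⟩
    · rw [← h1]
      ext <;> simp [S.X0, S.X1, S.X3, S.X4]
    · rw [← h2]
      ext <;> simp [S.X0, S.X2, S.X3, S.X4]

/-- (a') -/
theorem fact_aq (n : ℕ) : EV (Alg k) n (C k h) (Uq k hl) := by
  refine R_sub h hl (Uq k hl) (fun s => ∃ t, s = t * qq) (fun x => mem_Uq hl) ?_ ?_ ?_ n
  · rintro _ ⟨t, rfl⟩ h1 h2
    have a1 := congrArg S.y0 h1.symm
    have a2 := congrArg S.y1 h1.symm
    have a3 := congrArg S.y4 h1.symm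
    have a4 := congrArg S.z h1.symm
    have b1 := congrArg S.y4 h2
    simp [S.X0, qq, S.X2, S.X3] at a1 a2 a3 a4 b1
    have a3' : t.x0 + t.x4 = 0 := by rw [a1] at a3; simpa using a3
    ext <;> simp [qq, S.X2, S.X3, a1, a2, a3', a4, b1]
  · rintro _ ⟨t, rfl⟩ h1 h2 h3
    have a1 := congrArg S.x2 h1.symm
    have a4 := congrArg S.z h1.symm
    have b1 := congrArg S.z h2
    have b2 := congrArg S.z h3
    simp [S.X0, S.X1, S.X2, S.X3, qq] at a1 a4 b1 b2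
    refine ⟨(t.x0 + t.x4) • qq, ⟨(t.x0 + t.x4) • 1, by simp⟩, ?_⟩
    ext <;> simp [S.X0, S.X2, S.X3, qq, a1, a4, b1, b2]
  · rintro s1 s2 _ _ h1 h2
    refine ⟨(s2.z • S.X1 + s1.z • S.X3) * qq, ⟨_, rfl⟩, ?_, ?_⟩
    · rw [← h1]
      ext <;> simp [S.X0, S.X1, S.X2, S.X3, S.X4, qq]
    · rw [← h2]
      ext <;> simp [S.X0, S.X1, S.X2, S.X3, S.X4, qq]

include hl in
/-- (c) : `V ⊆ P l` -/
theorem fact_c {l' : Fin 4} (hl' : (l : ℕ) = l' + 1) (n : ℕ) :
    EV (Alg k) n (C k h) (V k hl') := by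
  refine R_sub h hl (V k hl') (fun s => s * S.X0 = 0) (fun x => mem_V hl') ?_ ?_ ?_ n
  · intro s h0 h1 h2
    have a0 := congrArg S.x0 h0
    have a1 := congrArg S.y0 h0
    have a2 := congrArg S.y1 h0
    have a3 := congrArg S.y2 h0
    have b1 := congrArg S.y3 h2
    have b2 := congrArg S.y4 h2
    simp [S.X0] at a0 a1 a2 a3 b1 b2
    rw [← h1]
    ext <;> simp [a1, a2, a3, b1, b2]
  · intro s h0 h1 h2 h3
    have a4 := congrArg S.z h0
    have b1 := congrArg S.z h2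
    have b2 := congrArg S.z h3
    simp [S.X0, S.X1, S.X2] at a4 b1 b2
    refine ⟨s.y3 • S.X1 + s.y4 • S.X2, ?_, ?_⟩
    · ext <;> simp [S.X0, S.X1, S.X2]
    · conv_rhs => rw [← h1]
      ext <;> simp [S.X0, S.X1, S.X2, a4, b1, b2]
  · intro s1 s2 _ _ h1 h2
    refine ⟨s1.z • S.Y1 + s2.z • S.Y2, ?_, ?_, ?_⟩
    · ext <;> simp [S.X0, S.Y1, S.Y2]
    · rw [← h1]
      ext <;> simp [S.X1, S.Y1, S.Y2]
    · rw [← h2]
      ext <;> simp [S.X2, S.Y1, S.Y2]

include hl in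
/-- (c') -/
theorem fact_cq {l' : Fin 4} (hl' : (l : ℕ) = l' + 1) (n : ℕ) :
    EV (Alg k) n (C k h) (Vq k hl') := by
  refine R_sub h hl (Vq k hl') (fun s => s * qq = 0) (fun x => mem_Vq hl') ?_ ?_ ?_ n
  · intro s h0 h1 h2
    have a0 := congrArg S.y0 h0
    have a1 := congrArg S.y1 h0
    have a2 := congrArg S.y4 h0
    have b1 := congrArg S.y0 h2
    have b2 := congrArg S.y4 h2
    simp [S.X0, qq, S.X2, S.X3] at a0 a1 a2 b1 b2
    have a1' : s.x3 = 0 := by rw [b2] at a1; simpa using a1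
    have a2' : s.x4 = 0 := by rw [b1, a0] at a2; simpa using a2
    rw [← h1]
    ext <;> simp [a0, a1', a2', b1, b2]
  · intro s h0 h1 h2 h3
    have a4 := congrArg S.z h0
    have b1 := congrArg S.z h2
    have b2 := congrArg S.z h3
    simp [S.X0, S.X1, S.X2, S.X3, qq] at a4 b1 b2
    have a4' : s.y3 = 0 := by rw [b2] at a4; simpa using a4
    refine ⟨s.y0 • (S.X0 - S.X4) + s.y4 • (S.X2 - S.X3), ?_, ?_⟩
    · ext <;> simp [S.X0, S.X1, S.X2, S.X3, S.X4, qq]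
    · conv_rhs => rw [← h1]
      ext <;> simp [S.X0, S.X1, S.X2, S.X3, S.X4, a4', b1, b2]
  · intro s1 s2 _ _ h1 h2
    refine ⟨s1.z • S.Y1 + s2.z • (S.Y2 - S.Y3), ?_, ?_, ?_⟩
    · ext <;> simp [S.X2, S.X3, S.Y1, S.Y2, S.Y3, qq]
    · rw [← h1]
      ext <;> simp [S.X1, S.Y1, S.Y2, S.Y3]
    · rw [← h2]
      ext <;> simp [S.X2, S.Y1, S.Y2, S.Y3]

end sub

end Pool.Agent.Helper8.Tilt
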