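import Pool.Agent.helper8.Tilt.EndT

/-!
The module `T` and the count of indecomposable summands.
-/

set_option autoImplicit false
set_option linter.unusedSectionVars false
set_option linter.unusedSimpArgs false
universe u

namespace Pool.Agent.Helper8.Tilt

open S

variable {k : Type u} [Field k]

/-- the seven summands -/
noncomputable def TT (k : Type u) [Field k] : Fin 3 ⊕ Fin 4 → ModuleCat.{u} (Alg k)
  | .inl 0 => ModuleCat.of (Alg k) (T1 k)
  | .inl 1 => ModuleCat.of (Alg k) (T2 k)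
  | .inl 2 => ModuleCat.of (Alg k) (T3 k)
  | .inr j => ModuleCat.of (Alg k) (P k j)

theorem TT_ind {p : Fin 3 ⊕ Fin 4 → Prop} (h1 : p (.inl 0)) (h2 : p (.inl 1)) (h3 : p (.inl 2))
    (h4 : ∀ j, p (.inr j)) : ∀ i, p i := by
  rintro (i | j)
  · fin_cases i
    · exact h1
    · exact h2
    · exact h3
  · exact h4 j

/-! ### finiteness -/

/-- coordinates -/
def S.equiv : S k ≃ₗ[k] (Fin 12 → k) where
  toFun s := ![s.c, s.x0, s.x1, s.x2, s.x3, s.x4, s.y0, s.y1, s.y2, s.y3, s.y4, s.z]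
  invFun f := ⟨f 0, f 1, f 2, f 3, f 4, f 5, f 6, f 7, f 8, f 9, f 10, f 11⟩
  map_add' s t := by
    funext i
    fin_cases i <;> simp
  map_smul' a s := by
    funext i
    fin_cases i <;> simp
  left_inv s := by ext <;> simp
  right_inv f := by
    funext i
    fin_cases i <;> simp

instance : Module.Finite k (S k) := Module.Finite.equiv (S.equiv (k := k)).symm

instance (j : Fin 4) : Module.Finite k (P k j) := inferInstanceAs (Module.Finite k (S k))

instance : Module.Finite k (Alg k) := inferInstanceAs (Module.Finite k (W k))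

instance : IsNoetherian (Alg k) (Alg k) :=
  isNoetherian_of_tower k (inferInstance : IsNoetherian k (Alg k))

instance : IsArtinian (Alg k) (Alg k) :=
  isArtinian_of_tower k (inferInstance : IsArtinian k (Alg k))

instance (j : Fin 4) : IsNoetherian (Alg k) (P k j) :=
  isNoetherian_of_tower k (inferInstance : IsNoetherian k (P k j))

instance (j : Fin 4) : IsArtinian (Alg k) (P k j) :=
  isArtinian_of_tower k (inferInstance : IsArtinian k (P k j))

instance TT_noeth (i : Fin 3 ⊕ Fin 4) : IsNoetherian (Alg k) (TT k i) := by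
  revert i
  exact TT_ind (p := fun i => IsNoetherian (Alg k) (TT k i))
    (inferInstanceAs (IsNoetherian (Alg k) (T1 k)))
    (inferInstanceAs (IsNoetherian (Alg k) (T2 k)))
    (inferInstanceAs (IsNoetherian (Alg k) (T3 k)))
    (fun j => inferInstanceAs (IsNoetherian (Alg k) (P k j)))

instance TT_artin (i : Fin 3 ⊕ Fin 4) : IsArtinian (Alg k) (TT k i) := by
  revert i
  exact TT_ind (p := fun i => IsArtinian (Alg k) (TT k i))
    (inferInstanceAs (IsArtinian (Alg k) (T1 k)))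
    (inferInstanceAs (IsArtinian (Alg k) (T2 k)))
    (inferInstanceAs (IsArtinian (Alg k) (T3 k)))
    (fun j => inferInstanceAs (IsArtinian (Alg k) (P k j)))

/-! ### Ext -/

section
variable [CategoryTheory.HasExt.{u} (ModuleCat.{u} (Alg k))]

theorem ext_TT (n : ℕ) (i j : Fin 3 ⊕ Fin 4) : EV (Alg k) (n + 1) (TT k i) (TT k j) := by
  have hinj : ∀ (i : Fin 3 ⊕ Fin 4) (j : Fin 4), EV (Alg k) (n + 1) (TT k i) (TT k (.inr j)) :=
    fun i j => injP j n
  revert i j
  refine TT_ind ?_ ?_ ?_ ?_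
  · exact TT_ind (ext11 n) (ext12 n) (ext13 n) (hinj _)
  · exact TT_ind (ext21 n) (ext22 n) (ext23 n) (hinj _)
  · exact TT_ind (ext31 n) (ext32 n) (ext33 n) (hinj _)
  · intro j i
    exact projP j n

end

/-! ### distinguishing the summands -/

theorem Sc_TT (i : Fin 3 ⊕ Fin 4) : Sc k (TT k i) := by
  revert i
  exact TT_ind (p := fun i => Sc k (TT k i)) Sc_T1 (Sc_U h21) Sc_T3 Sc_P

def low : Fin 3 ⊕ Fin 4 → ℕ
  | .inl 0 => 4
  | .inl 1 => 2
  | .inl 2 => 0
  | .inr j => j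

def high : Fin 3 ⊕ Fin 4 → ℕ
  | .inl 0 => 6
  | .inl 1 => 4
  | .inl 2 => 2
  | .inr j => j + 3

/-- sharp bounds on the support -/
def Sharp (k : Type u) [Field k] (M : Type u) [AddCommGroup M] [Module (Alg k) M] (l h : ℕ) :
    Prop :=
  SuppGe k l M ∧ SuppLe k h M ∧ (∃ m : M, e (k := k) l • m ≠ 0) ∧ ∃ m : M, e (k := k) h • m ≠ 0

theorem sharp_P (j : Fin 4) : Sharp k (P k j) j (j + 3) := by
  refine ⟨P_supp_ge j, P_supp j, ⟨P.one j, ?_⟩, ⟨P.of j S.Z, ?_⟩⟩
  · rw [P.e_smul_one]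
    intro h
    have := congrArg (fun x => (P.s x).c) h
    simp [P.one] at this
  · intro h
    have h' := congrArg (fun x => (P.s x).z) h
    simp only [P.e_smul _ (by omega : (j : ℕ) + 3 < 7), gpr_add] at h'
    simp [S.Z] at h'

theorem single_mem_T1 (s : S k) (hs : s * S.X1 = 0) :
    (Pi.single 0 (P.of 3 s) : Fin 6 → P k 3) ∈ T1 k := by
  rw [LinearMap.mem_ker]
  apply Prod.ext
  · apply P.ext
    rw [theta_fst]
    change _ = 0
    simp [Pi.single_apply, hs]
  · apply P.ext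
    rw [theta_snd]
    change _ = 0
    simp [Pi.single_apply]

theorem X1_mul_X1 : (S.X1 : S k) * S.X1 = 0 := by ext <;> simp [S.X1]
theorem Z_mul_X1 : (S.Z : S k) * S.X1 = 0 := by ext <;> simp [S.X1, S.Z]

theorem sharp_T1 : Sharp k (T1 k) 4 6 := by
  refine ⟨T1_supp, sub_suppLe (pi_suppLe (P_supp 3) 6) _,
    ⟨⟨_, single_mem_T1 S.X1 X1_mul_X1⟩, ?_⟩, ⟨⟨_, single_mem_T1 S.Z Z_mul_X1⟩, ?_⟩⟩
  · intro h
    have h' : P.s (e (k := k) 4 • ((Pi.single 0 (P.of 3 S.X1) : Fin 6 → P k 3) 0)) = 0 :=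
      congrArg (fun x : T1 k => P.s ((x : Fin 6 → P k 3) 0)) h
    rw [Pi.single_eq_same, P.e_smul 4 (by omega)] at h'
    have h2 := gpr_add (k := k) 3 1 S.X1
    simp only [P.s_of] at h'
    have h3 : gpr 4 ((3 : Fin 4) : ℕ) (S.X1 : S k) = pr 1 S.X1 := h2
    rw [h3] at h'
    have := congrArg S.x1 h'
    simp [S.X1] at this
  · intro h
    have h' : P.s (e (k := k) 6 • ((Pi.single 0 (P.of 3 S.Z) : Fin 6 → P k 3) 0)) = 0 :=
      congrArg (fun x : T1 k => P.s ((x : Fin 6 → P k 3) 0)) h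
    rw [Pi.single_eq_same, P.e_smul 6 (by omega)] at h'
    have h2 := gpr_add (k := k) 3 3 S.Z
    simp only [P.s_of] at h'
    have h3 : gpr 6 ((3 : Fin 4) : ℕ) (S.Z : S k) = pr 3 S.Z := h2
    rw [h3] at h'
    have := congrArg S.z h'
    simp [S.Z] at this

theorem sharp_T2 : Sharp k (T2 k) 2 4 := by
  refine ⟨T2_supp, T2_suppLe,
    ⟨⟨P.of 1 S.X0, (mem_U h21).2 ⟨1, by simp⟩⟩, ?_⟩,
    ⟨⟨P.of 1 S.Z, (mem_U h21).2 ⟨S.Y0, by ext <;> simp [S.Y0, S.X0, S.Z]⟩⟩, ?_⟩⟩
  · intro h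
    have h' : P.s (e (k := k) 2 • P.of 1 S.X0) = 0 :=
      congrArg (fun x : T2 k => P.s (x : P k 1)) h
    rw [P.e_smul 2 (by omega)] at h'
    have h3 : gpr 2 ((1 : Fin 4) : ℕ) (S.X0 : S k) = pr 1 S.X0 := gpr_add 1 1 _
    rw [P.s_of, h3] at h'
    have := congrArg S.x0 h'
    simp [S.X0] at this
  · intro h
    have h' : P.s (e (k := k) 4 • P.of 1 S.Z) = 0 :=
      congrArg (fun x : T2 k => P.s (x : P k 1)) h
    rw [P.e_smul 4 (by omega)] at h'
    have h3 : gpr 4 ((1 : Fin 4) : ℕ) (S.Z : S k) = pr 3 S.Z := gpr_add 1 3 _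
    rw [P.s_of, h3] at h'
    have := congrArg S.z h'
    simp [S.Z] at this

theorem sharp_T3 : Sharp k (T3 k) 0 2 := by
  refine ⟨fun n hn => absurd hn (by omega), T3_suppLe,
    ⟨(LinearMap.range (beta k)).mkQ (Pi.single 0 (P.one 0)), ?_⟩,
    ⟨(LinearMap.range (beta k)).mkQ (Pi.single 4 (P.of 0 S.Y3)), ?_⟩⟩
  · rw [← map_smul, Submodule.mkQ_apply, Ne, Submodule.Quotient.mk_eq_zero]
    rintro ⟨x, hx⟩
    have h1 := congrArg (fun y : Fin 6 → P k 0 => (P.s (y 0)).c) hx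
    simp only [beta_apply, Pi.smul_apply, Pi.single_eq_same] at h1
    have h2 : e (k := k) 0 • (P.one 0 : P k 0) = P.one 0 := P.e_smul_one 0
    rw [h2] at h1
    simp [ba, bb, S.X3, P.one] at h1
  · rw [← map_smul, Submodule.mkQ_apply, Ne, Submodule.Quotient.mk_eq_zero]
    rintro ⟨x, hx⟩
    have h1 := congrArg (fun y : Fin 6 → P k 0 => (P.s (y 4)).y3) hx
    simp only [beta_apply, Pi.smul_apply, Pi.single_eq_same, P.e_smul 2 (by omega : 2 < 7)] at h1
    have h3 : gpr 2 ((0 : Fin 4) : ℕ) (S.Y3 : S k) = pr 2 S.Y3 := gpr_add 0 2 _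
    rw [P.s_of, h3] at h1
    simp [ba, bb, S.X3, S.Y3] at h1

theorem sharp_TT (i : Fin 3 ⊕ Fin 4) : Sharp k (TT k i) (low i) (high i) := by
  revert i
  exact TT_ind (p := fun i => Sharp k (TT k i) (low i) (high i)) sharp_T1 sharp_T2 sharp_T3
    sharp_P

theorem sharp_unique {M N : Type u} [AddCommGroup M] [Module (Alg k) M] [AddCommGroup N]
    [Module (Alg k) N] {l h l' h' : ℕ} (hM : Sharp k M l h) (hN : Sharp k N l' h')
    (f : M ≃ₗ[Alg k] N) : l = l' ∧ h = h' := by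
  obtain ⟨a1, a2, ⟨m1, a3⟩, ⟨m2, a4⟩⟩ := hM
  obtain ⟨b1, b2, ⟨n1, b3⟩, ⟨n2, b4⟩⟩ := hN
  constructor
  · rcases lt_trichotomy l l' with hl | hl | hl
    · exfalso; apply a3; apply f.injective; rw [map_smul, b1 l hl, map_zero]
    · exact hl
    · exfalso; apply b3; apply f.symm.injective; rw [map_smul, a1 l' hl, map_zero]
  · rcases lt_trichotomy h h' with hl | hl | hl
    · exfalso; apply b4; apply f.symm.injective; rw [map_smul, a2 h' hl, map_zero]
    · exact hl
    · exfalso; apply a4; apply f.injective; rw [map_smul, b2 h hl, map_zero]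

theorem low_high_inj : ∀ i j : Fin 3 ⊕ Fin 4, low i = low j ∧ high i = high j → i = j := by
  rintro (i | i) (j | j) <;> revert i j <;> decide

theorem TT_iso (i j : Fin 3 ⊕ Fin 4) (h : Nonempty (TT k i ≃ₗ[Alg k] TT k j)) : i = j := by
  obtain ⟨f⟩ := h
  exact low_high_inj i j (sharp_unique (sharp_TT i) (sharp_TT j) f)

theorem TT_indec (i : Fin 3 ⊕ Fin 4) : Indec (Alg k) (TT k i) := by
  refine (Sc_TT i).indec ?_
  obtain ⟨-, -, ⟨m, hm⟩, -⟩ := sharp_TT (k := k) i
  exact ⟨m, 0, fun h => hm (by rw [h, smul_zero])⟩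

theorem card_T : Nat.card (Quot (fun (N M : {N : Submodule (Alg k) (∀ i, TT k i) // N ≠ ⊥ ∧
        (∃ N' : Submodule (Alg k) (∀ i, TT k i), IsCompl N N') ∧
        ∀ A B : Submodule (Alg k) (∀ i, TT k i), A ⊔ B = N → A ⊓ B = ⊥ → A = ⊥ ∨ B = ⊥}) =>
          Nonempty (N.1 ≃ₗ[Alg k] M.1))) = 7 := by
  rw [card_summands (A := Alg k) (M := ∀ i, TT k i) (N := fun i => TT k i)
    (fun i => LinearMap.single (Alg k) (fun i => (TT k i : Type u)) i)
    (fun i => LinearMap.proj i) (fun i x => by simp) (fun x => by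
      funext j
      simp [Finset.sum_apply]) TT_indec TT_iso]
  rfl

/-! ### the regular module -/

theorem Sc_LI (n : ℕ) (hn : n < 7) : Sc k (LI (e (k := k) n)) := by
  intro f
  let en : LI (e (k := k) n) := ⟨e n, mem_LI.2 (e_mul_e_self hn)⟩
  obtain ⟨c, hc⟩ := e_mul_mul_e_self (k := k) n (f en : Alg k)
  refine ⟨c, fun a => ?_⟩
  have h1 : a = (a : Alg k) • en := Subtype.ext (mem_LI.1 a.2).symm
  have h2 : f en = c • en := by
    apply Subtype.ext
    change (f en : Alg k) = c • e n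
    rw [← hc, mul_assoc, mem_LI.1 (f en).2]
    have : e (k := k) n • en = en := Subtype.ext (e_mul_e_self hn)
    conv_lhs => rw [← this, map_smul]
    rfl
  conv_lhs => rw [h1, map_smul, h2]
  rw [smul_comm, ← h1, algebraMap_smul]

theorem e_ne_zero {n : ℕ} (hn : n < 7) : e (k := k) n ≠ 0 := by
  intro h
  have h1 := congrArg (fun a => (ent a ⟨n, hn⟩ ⟨n, hn⟩).c) h
  simp only [e, ent_io, if_true, ent_zero] at h1
  rw [hom_iff.1 (hom_one n)] at h1
  simp at h1

theorem card_L : Nat.card (Quot (fun (N M : {N : Submodule (Alg k) (Alg k) // N ≠ ⊥ ∧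
        (∃ N' : Submodule (Alg k) (Alg k), IsCompl N N') ∧
        ∀ A B : Submodule (Alg k) (Alg k), A ⊔ B = N → A ⊓ B = ⊥ → A = ⊥ ∨ B = ⊥}) =>
          Nonempty (N.1 ≃ₗ[Alg k] M.1))) = 7 := by
  rw [card_summands (A := Alg k) (M := Alg k) (N := fun n : Fin 7 => LI (e (k := k) n))
    (fun n => (LI (e (k := k) n)).subtype)
    (fun n => (LinearMap.toSpanSingleton (Alg k) (Alg k) (e n)).codRestrict _ fun a => by
      rw [mem_LI, LinearMap.toSpanSingleton_apply, smul_eq_mul, mul_assoc, e_mul_e_self n.2])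
    (fun n x => Subtype.ext (mem_LI.1 x.2)) (fun x => by
      change ∑ n : Fin 7, x * e (n : ℕ) = x
      rw [← Finset.mul_sum, sum_e, mul_one]) (fun n => (Sc_LI n n.2).indec ?_) ?_]
  · rfl
  · rintro i j ⟨f⟩
    have key : ∀ i j : Fin 7, (i : ℕ) < j → ∀ f : LI (e (k := k) i) ≃ₗ[Alg k] LI (e (k := k) j),
        False := by
      intro i j hij f
      let ei : LI (e (k := k) i) := ⟨e i, mem_LI.2 (e_mul_e_self i.2)⟩
      have h1 : e (k := k) i • ei = ei := Subtype.ext (e_mul_e_self i.2)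
      have h2 : e (k := k) i • f ei = 0 := by
        apply Subtype.ext
        change e i * (f ei : Alg k) = 0
        rw [← mem_LI.1 (f ei).2, ← mul_assoc, e_mul_mul_e_lt hij]
      rw [← map_smul, h1] at h2
      have h3 : ei = 0 := f.injective (by rw [h2, map_zero])
      exact e_ne_zero i.2 (congrArg Subtype.val h3)
    rcases lt_trichotomy (i : ℕ) j with h | h | h
    · exact (key i j h f).elim
    · exact Fin.ext h
    · exact (key j i h f.symm).elim
  · exact ⟨⟨e n, mem_LI.2 (e_mul_e_self n.2)⟩, 0, fun h => e_ne_zero n.2 (congrArg Subtype.val h)⟩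

end Pool.Agent.Helper8.Tilt
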