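import Pool.Agent.helper8.Tilt.Cert

/-!
The module `K'` and the proof that `T` is not tilting.
-/

set_option autoImplicit false
set_option linter.unusedSectionVars false
set_option linter.unusedSimpArgs false
universe u

namespace Pool.Agent.Helper8.Tilt

open S CategoryTheory

variable {k : Type u} [Field k]

/-- `φ(x,t) = π x - g t` -/
noncomputable def phi (k : Type u) [Field k] : ((P k 2 × P k 2) × T1 k) →ₗ[Alg k] YY k :=
  (piY k).coprod (-gY k)

theorem phi_apply (x : (P k 2 × P k 2) × T1 k) : phi k x = piY k x.1 - gY k x.2 := by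
  rw [phi, LinearMap.coprod_apply, LinearMap.neg_apply, sub_eq_add_neg]

theorem phi_surj : Function.Surjective (phi k) := by
  intro y
  obtain ⟨x, hx⟩ := piY_surj y
  exact ⟨(x, 0), by rw [phi_apply, map_zero, sub_zero, hx]⟩

/-- the certificate module -/
noncomputable abbrev KK' (k : Type u) [Field k] : Submodule (Alg k) ((P k 2 × P k 2) × T1 k) :=
  LinearMap.ker (phi k)

theorem phi_exact : Function.Exact (KK' k).subtype (phi k) :=
  LinearMap.exact_subtype_ker_map (phi k)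

section
variable [HasExt.{u} (ModuleCat.{u} (Alg k))]

theorem evK {X : Type u} [AddCommGroup X] [Module (Alg k) X]
    (hX : ∀ n, EV (Alg k) (n + 1) X (T1 k)) (hY : ∀ n, EV (Alg k) (n + 1) X (YY k))
    (hlift : ∀ f : X →ₗ[Alg k] YY k, ∃ ψ, phi k ∘ₗ ψ = f) (n : ℕ) :
    EV (Alg k) (n + 1) X (KK' k) := by
  have hQ : ∀ n, EV (Alg k) (n + 1) X ((P k 2 × P k 2) × T1 k) := fun n =>
    EV.prod_right (injP2 2 n) (hX n)
  cases n with
  | zero =>
    exact EV.one_of_lift (Submodule.injective_subtype _) phi_surj phi_exact hlift (hQ 0)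
  | succ n =>
    exact EV.co₁ (Submodule.injective_subtype _) phi_surj phi_exact (hY n) (hQ (n + 1))

theorem evK_TT (n : ℕ) (i : Fin 3 ⊕ Fin 4) : EV (Alg k) (n + 1) (TT k i) (KK' k) := by
  revert i
  refine TT_ind ?_ ?_ ?_ ?_
  · refine evK ext11 ext1Y (fun f => ?_) n
    obtain ⟨c, h, hh⟩ := map_T1_Y f
    refine ⟨h.prod (-scm c _), ?_⟩
    ext1 x
    rw [LinearMap.comp_apply, phi_apply, hh]
    change piY k (h x) - gY k (-(algebraMap k (Alg k) c • x)) = _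
    rw [map_neg, map_smul, sub_neg_eq_add]
  · refine evK ext21 (fun n => ev2Y (n + 1)) (fun f => ?_) n
    exact ⟨0, by rw [LinearMap.comp_zero, (ev2Y 0).hom_eq_zero f]⟩
  · refine evK ext31 ext3Y (fun f => ?_) n
    exact ⟨0, by rw [LinearMap.comp_zero, T3_hom_zero (fun m => Vq_supp 0 (by omega) m) f]⟩
  · intro j
    exact projP j n

theorem evK_T (n : ℕ) : EV (Alg k) (n + 1) (∀ i, TT k i) (KK' k) :=
  EV.pi_left (M := fun i => (TT k i : Type u)) fun i => evK_TT n i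

theorem evT_T (n : ℕ) : EV (Alg k) (n + 1) (∀ i, TT k i) (∀ i, TT k i) :=
  EV.pi_left (M := fun i => (TT k i : Type u)) fun i =>
    EV.pi_right (M := fun i => (TT k i : Type u)) fun j => ext_TT n i j

end

/-- the projection `K' → T1` -/
noncomputable def qK (k : Type u) [Field k] : KK' k →ₗ[Alg k] T1 k :=
  LinearMap.snd _ _ _ ∘ₗ (KK' k).subtype

theorem qK_ne_zero : qK k ≠ 0 := by
  intro h
  obtain ⟨-, -, ⟨m, hm⟩, -⟩ := sharp_T1 (k := k)
  obtain ⟨x, hx⟩ := piY_surj (gY k m)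
  have hmem : (x, m) ∈ KK' k := by
    rw [LinearMap.mem_ker, phi_apply, hx, sub_self]
  have := LinearMap.congr_fun h ⟨_, hmem⟩
  have h2 : m = 0 := this
  exact hm (by rw [h2, smul_zero])

theorem qK_comp1 (f : T1 k →ₗ[Alg k] KK' k) : qK k ∘ₗ f = 0 := by
  obtain ⟨c, hc⟩ := Sc_T1 (qK k ∘ₗ f)
  by_cases h0 : c = 0
  · ext1 x
    rw [hc x, h0, map_zero, zero_smul]
    rfl
  · exfalso
    let h : T1 k →ₗ[Alg k] (P k 2 × P k 2) :=
      scm c⁻¹ _ ∘ₗ LinearMap.fst _ _ _ ∘ₗ (KK' k).subtype ∘ₗ f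
    apply gY_not_factor h
    intro x
    have h1 : phi k (f x : (P k 2 × P k 2) × T1 k) = 0 := LinearMap.mem_ker.1 (f x).2
    rw [phi_apply, sub_eq_zero] at h1
    have h2 : (f x : (P k 2 × P k 2) × T1 k).2 = algebraMap k (Alg k) c • x := hc x
    change piY k (algebraMap k (Alg k) c⁻¹ • (f x : (P k 2 × P k 2) × T1 k).1) = gY k x
    rw [map_smul, h1, h2, map_smul, ← mul_smul, ← map_mul, inv_mul_cancel₀ h0, map_one, one_smul]

theorem qK_comp2 (f : T2 k →ₗ[Alg k] KK' k) : qK k ∘ₗ f = 0 :=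
  T2_hom_zero (M := T1 k) (fun m => T1_supp 2 (by omega) m) (qK k ∘ₗ f)

theorem qK_comp3 (f : T3 k →ₗ[Alg k] KK' k) : qK k ∘ₗ f = 0 :=
  T3_hom_zero (M := T1 k) (fun m => T1_supp 0 (by omega) m) (qK k ∘ₗ f)

theorem qK_compP (j : Fin 4) (f : P k j →ₗ[Alg k] KK' k) : qK k ∘ₗ f = 0 :=
  P_hom_zero (M := T1 k) (j := j) (fun m => T1_supp j (by omega) m) (qK k ∘ₗ f)

theorem qK_comp (i : Fin 3 ⊕ Fin 4) (f : TT k i →ₗ[Alg k] KK' k) : qK k ∘ₗ f = 0 := by
  revert i
  exact TT_ind (p := fun i => ∀ f : TT k i →ₗ[Alg k] KK' k, qK k ∘ₗ f = 0)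
    qK_comp1 qK_comp2 qK_comp3 qK_compP

theorem qK_comp_T (f : (∀ i, TT k i) →ₗ[Alg k] KK' k) : qK k ∘ₗ f = 0 := by
  apply LinearMap.pi_ext'
  intro i
  rw [LinearMap.comp_assoc, qK_comp]
  rfl

end Pool.Agent.Helper8.Tilt
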