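import Pool.Agent.helper8.Tilt.Proj

/-!
The modules `P j`, `j = 0,1,2,3`, are injective.
-/

set_option autoImplicit false
universe u

namespace Pool.Agent.Helper8.Tilt

open S

variable {k : Type u} [Field k]

/-- homogeneous elements as combinations of basis elements -/
theorem e_mul_eq (j : Fin 4) (b : Alg k) :
    e (k := k) (j + 3) * b = ∑ l : Fin 7, io l (ent b ⟨j + 3, by omega⟩ l) := by
  apply Alg.ext; intro i m
  rw [ent_mul, ent_sum]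
  simp only [e, ent_io]
  rw [Finset.sum_eq_single (⟨j + 3, by omega⟩ : Fin 7), Finset.sum_eq_single m]
  · simp only [if_true]
    by_cases hi : i = ⟨j + 3, by omega⟩
    · subst hi
      rw [hom_iff.1 (hom_one _), one_mul, hom_iff.1 (ent_hom _ _ _)]
    · have hi' : (i : ℕ) ≠ j + 3 := fun h => hi (Fin.ext h)
      rw [(hom_one _).gpr_ne hi', zero_mul, (ent_hom b _ m).gpr_ne hi']
  · intro b' _ hb'
    have : (m : ℕ) ≠ b' := fun h => hb' (Fin.ext h.symm)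
    simp [this]
  · simp
  · intro b' _ hb'
    have : (b' : ℕ) ≠ j + 3 := fun h => hb' (Fin.ext h)
    simp [this]
  · simp

namespace S

/-- basis elements in degree one -/
def X0 : S k := ⟨0, 1, 0, 0, 0, 0, 0, 0, 0, 0, 0, 0⟩
def X1 : S k := ⟨0, 0, 1, 0, 0, 0, 0, 0, 0, 0, 0, 0⟩
def X2 : S k := ⟨0, 0, 0, 1, 0, 0, 0, 0, 0, 0, 0, 0⟩
def X3 : S k := ⟨0, 0, 0, 0, 1, 0, 0, 0, 0, 0, 0, 0⟩
def X4 : S k := ⟨0, 0, 0, 0, 0, 1, 0, 0, 0, 0, 0, 0⟩
def Y0 : S k := ⟨0, 0, 0, 0, 0, 0, 1, 0, 0, 0, 0, 0⟩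
def Y1 : S k := ⟨0, 0, 0, 0, 0, 0, 0, 1, 0, 0, 0, 0⟩
def Y2 : S k := ⟨0, 0, 0, 0, 0, 0, 0, 0, 1, 0, 0, 0⟩
def Y3 : S k := ⟨0, 0, 0, 0, 0, 0, 0, 0, 0, 1, 0, 0⟩
def Y4 : S k := ⟨0, 0, 0, 0, 0, 0, 0, 0, 0, 0, 1, 0⟩
def Z : S k := ⟨0, 0, 0, 0, 0, 0, 0, 0, 0, 0, 0, 1⟩

end S

theorem hom0 {i j : ℕ} (h : i = j) {s : S k} (hs : Hom' i j s) : s = s.c • 1 := by
  have := hom_iff.1 hs
  subst h
  have h0 := gpr_add i 0 s
  rw [Nat.add_zero] at h0
  rw [← this, h0]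
  ext <;> simp

theorem hom1 {i j : ℕ} (h : i = j + 1) {s : S k} (hs : Hom' i j s) :
    s = s.x0 • S.X0 + s.x1 • S.X1 + s.x2 • S.X2 + s.x3 • S.X3 + s.x4 • S.X4 := by
  have := hom_iff.1 hs
  subst h
  rw [← this, gpr_add j 1]
  ext <;> simp [S.X0, S.X1, S.X2, S.X3, S.X4]

theorem hom2 {i j : ℕ} (h : i = j + 2) {s : S k} (hs : Hom' i j s) :
    s = s.y0 • S.Y0 + s.y1 • S.Y1 + s.y2 • S.Y2 + s.y3 • S.Y3 + s.y4 • S.Y4 := by
  have := hom_iff.1 hs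
  subst h
  rw [← this, gpr_add j 2]
  ext <;> simp [S.Y0, S.Y1, S.Y2, S.Y3, S.Y4]

theorem hom3 {i j : ℕ} (h : i = j + 3) {s : S k} (hs : Hom' i j s) : s = s.z • S.Z := by
  have := hom_iff.1 hs
  subst h
  rw [← this, gpr_add j 3]
  ext <;> simp [S.Z]

theorem homFar {i j : ℕ} (h : i < j ∨ j + 4 ≤ i) {s : S k} (hs : Hom' i j s) : s = 0 := by
  have := hom_iff.1 hs
  rcases h with h | h
  · rw [← this, gpr_of_lt h]
  · rw [← this, gpr_of_far h]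

theorem mkHom {i j : ℕ} {s : S k} (h : gpr i j s = s) : Hom' i j s := hom_iff.2 h

theorem homX0 (j : ℕ) : Hom' (j + 1) j (S.X0 : S k) :=
  mkHom (by rw [gpr_add]; ext <;> simp [S.X0])
theorem homX1 (j : ℕ) : Hom' (j + 1) j (S.X1 : S k) :=
  mkHom (by rw [gpr_add]; ext <;> simp [S.X1])
theorem homX2 (j : ℕ) : Hom' (j + 1) j (S.X2 : S k) :=
  mkHom (by rw [gpr_add]; ext <;> simp [S.X2])
theorem homX3 (j : ℕ) : Hom' (j + 1) j (S.X3 : S k) :=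
  mkHom (by rw [gpr_add]; ext <;> simp [S.X3])
theorem homX4 (j : ℕ) : Hom' (j + 1) j (S.X4 : S k) :=
  mkHom (by rw [gpr_add]; ext <;> simp [S.X4])
theorem homY0 (j : ℕ) : Hom' (j + 2) j (S.Y0 : S k) :=
  mkHom (by rw [gpr_add]; ext <;> simp [S.Y0])
theorem homY1 (j : ℕ) : Hom' (j + 2) j (S.Y1 : S k) :=
  mkHom (by rw [gpr_add]; ext <;> simp [S.Y1])
theorem homY2 (j : ℕ) : Hom' (j + 2) j (S.Y2 : S k) :=
  mkHom (by rw [gpr_add]; ext <;> simp [S.Y2])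
theorem homY3 (j : ℕ) : Hom' (j + 2) j (S.Y3 : S k) :=
  mkHom (by rw [gpr_add]; ext <;> simp [S.Y3])
theorem homY4 (j : ℕ) : Hom' (j + 2) j (S.Y4 : S k) :=
  mkHom (by rw [gpr_add]; ext <;> simp [S.Y4])
theorem homZ (j : ℕ) : Hom' (j + 3) j (S.Z : S k) :=
  mkHom (by rw [gpr_add]; ext <;> simp [S.Z])

namespace P

theorem z_e_smul (j : Fin 4) (x : P k j) : (s (e (k := k) (j + 3) • x)).z = (s x).z := by
  rw [e_smul _ (by omega), gpr_add]
  simp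

theorem nondeg (j : Fin 4) (x : P k j) (h : ∀ b : Alg k, (s (b • x)).z = 0) : x = 0 := by
  have h' : ∀ (l d : ℕ) (t : S k), d ≤ 3 → l = j + (3 - d) → Hom' (l + d) l t →
      (t * pr (3 - d) (s x)).z = 0 := by
    intro l d t hd hl ht
    have := h (io l t)
    rw [io_smul_of l (by omega) (by omega : l + d < 7) ht, hl, gpr_add] at this
    exact this
  apply ext
  have c0 := h' _ 3 S.Z (by omega) rfl (homZ _)
  have a0 := h' _ 2 S.Y0 (by omega) rfl (homY0 _)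
  have a1 := h' _ 2 S.Y1 (by omega) rfl (homY1 _)
  have a2 := h' _ 2 S.Y2 (by omega) rfl (homY2 _)
  have a3 := h' _ 2 S.Y3 (by omega) rfl (homY3 _)
  have a4 := h' _ 2 S.Y4 (by omega) rfl (homY4 _)
  have b0 := h' _ 1 S.X0 (by omega) rfl (homX0 _)
  have b1 := h' _ 1 S.X1 (by omega) rfl (homX1 _)
  have b2 := h' _ 1 S.X2 (by omega) rfl (homX2 _)
  have b3 := h' _ 1 S.X3 (by omega) rfl (homX3 _)
  have b4 := h' _ 1 S.X4 (by omega) rfl (homX4 _)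
  have d0 := h' _ 0 1 (by omega) rfl (hom_one _)
  simp [S.X0, S.X1, S.X2, S.X3, S.X4, S.Y0, S.Y1, S.Y2, S.Y3, S.Y4, S.Z]
    at c0 a0 a1 a2 a3 a4 b0 b1 b2 b3 b4 d0
  rw [map_zero]
  ext <;> simp [c0, a0, a1, a2, a3, a4, b0, b1, b2, b3, b4, d0]

/-- the element representing a functional -/
noncomputable def rep (j : Fin 4) (ψ : Alg k →ₗ[k] k) : P k j :=
  of j ⟨ψ (io j S.Z), ψ (io (j + 1) S.Y0), ψ (io (j + 1) S.Y1), ψ (io (j + 1) S.Y2),
    ψ (io (j + 1) S.Y3), ψ (io (j + 1) S.Y4), ψ (io (j + 2) S.X0), ψ (io (j + 2) S.X1),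
    ψ (io (j + 2) S.X2), ψ (io (j + 2) S.X3), ψ (io (j + 2) S.X4), ψ (io (j + 3) 1)⟩

theorem rep_spec (j : Fin 4) (ψ : Alg k →ₗ[k] k) (b : Alg k) :
    (s (b • rep j ψ)).z = ψ (e (j + 3) * b) := by
  rw [← z_e_smul, ← mul_smul, e_mul_eq, Finset.sum_smul, map_sum, map_sum]
  have hz : ∀ f : Fin 7 → S k, (∑ l, f l).z = ∑ l, (f l).z := by
    intro f
    simp [Fin.sum_univ_seven]
  rw [hz]
  refine Finset.sum_congr rfl fun l _ => ?_
  set β := ent b ⟨j + 3, by omega⟩ l with hβ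
  have hh : Hom' ((j : ℕ) + 3) l β := ent_hom b ⟨j + 3, by omega⟩ l
  rw [io_smul_of (l : ℕ) l.2 (by omega : (j : ℕ) + 3 < 7) hh]
  by_cases h0 : (l : ℕ) < j ∨ (j : ℕ) + 3 < l
  · have : β = 0 := homFar (by omega) hh
    rw [this]; simp
  · obtain hl | hl | hl | hl : (l : ℕ) = j ∨ (l : ℕ) = j + 1 ∨ (l : ℕ) = j + 2 ∨
      (l : ℕ) = j + 3 := by omega
    · have h3 := hom3 (by omega) hh
      rw [h3, hl, gpr_self]
      simp [rep, S.Z]
    · have h3 := hom2 (by omega) hh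
      rw [h3, hl, gpr_add]
      simp [rep, S.Y0, S.Y1, S.Y2, S.Y3, S.Y4]
    · have h3 := hom1 (by omega) hh
      rw [h3, hl, gpr_add]
      simp [rep, S.X0, S.X1, S.X2, S.X3, S.X4]
    · have h3 := hom0 (by omega) hh
      rw [h3, hl, gpr_add]
      simp [rep]

theorem injective (j : Fin 4) : Module.Injective (Alg k) (P k j) := by
  apply Module.Baer.injective
  intro I g
  let Ik : Submodule k (Alg k) := I.restrictScalars k
  let z : P k j →ₗ[k] k :=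
    { toFun := fun x => (s x).z
      map_add' := fun x y => by simp
      map_smul' := fun r x => by simp }
  let ψ0 : Ik →ₗ[k] k := z ∘ₗ (g.restrictScalars k)
  obtain ⟨ψ, hψ⟩ := LinearMap.exists_extend ψ0
  refine ⟨LinearMap.toSpanSingleton (Alg k) (P k j) (rep j ψ), fun x mem => ?_⟩
  rw [LinearMap.toSpanSingleton_apply, ← sub_eq_zero]
  apply nondeg
  intro b
  rw [smul_sub, ← mul_smul, map_sub, sub_z, rep_spec, sub_eq_zero, ← map_smul,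
    ← z_e_smul, ← map_smul]
  have hm : e (j + 3) * (b * x) ∈ Ik := by
    change e (j + 3) * (b * x) ∈ I
    exact I.mul_mem_left _ (I.mul_mem_left _ mem)
  exact LinearMap.congr_fun hψ ⟨_, hm⟩

end P

end Pool.Agent.Helper8.Tilt
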