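import Pool.Agent.helper8.Tilt.Cover

/-!
Cyclic modules `C = P j / P (j+1) p` and computation of Ext groups out of them.
-/

set_option autoImplicit false
universe u

namespace Pool.Agent.Helper8.Tilt

open S

variable {k : Type u} [Field k]

/-! ### products in `S` -/

theorem X1_mul_X0 : (S.X1 : S k) * S.X0 = 0 := by ext <;> simp [S.X0, S.X1]
theorem X2_mul_X0 : (S.X2 : S k) * S.X0 = 0 := by ext <;> simp [S.X0, S.X2]

/-- `e n` acts on `io`. -/
theorem e_mul_io {n j : ℕ} (hn : n < 7) (s : S k) : e (k := k) n * io j s = io j (gpr n j s) := by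
  apply Alg.ext; intro i m
  rw [e, io_mul_io n j hn, ent_io]
  split_ifs with h
  · by_cases hi : (i : ℕ) = n
    · rw [hi, hom_iff.1 (hom_one n), one_mul, gpr_gpr_self]
    · rw [(hom_one n).gpr_ne hi, zero_mul, gpr_gpr_ne hi]
  · rfl

theorem e_mul_io_hom {n j : ℕ} (hn : n < 7) {s : S k} (hs : Hom' n j s) :
    e (k := k) n * io j s = io j s := by
  rw [e_mul_io hn, hom_iff.1 hs]

theorem io_mul_io_hom {l j : ℕ} (hl : l < 7) {t s : S k} (hs : Hom' l j s) :
    io l t * io j s = io j (t * s) := by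
  apply Alg.ext; intro i m
  rw [io_mul_io l j hl, ent_io]
  split_ifs with h
  · rw [gpr_mul_right hs, hom_iff.1 hs]
  · rfl

theorem io_mul_e' (l : ℕ) (hl : l < 7) (s : S k) : io l s * e (k := k) l = io l s :=
  io_mul_e l hl s

section
variable {i j : Fin 4} (h : (i : ℕ) = j + 1)

include h in
theorem hp : Hom' (i : ℕ) (j : ℕ) (S.X0 : S k) := by rw [h]; exact homX0 _

/-- right multiplication by `p` -/
noncomputable def rho (k : Type u) [Field k] {i j : Fin 4} (h : (i : ℕ) = j + 1) :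
    P k i →ₗ[Alg k] P k j := P.rm i j S.X0 (hp h)

theorem rho_apply (x : P k i) : P.s (rho k h x) = P.s x * S.X0 := P.rm_apply _ _ _ _ _

/-- `U = P i p ⊆ P j` -/
noncomputable abbrev U (k : Type u) [Field k] {i j : Fin 4} (h : (i : ℕ) = j + 1) :
    Submodule (Alg k) (P k j) := LinearMap.range (rho k h)

/-- `V = {x ∈ P i | x p = 0}` -/
noncomputable abbrev V (k : Type u) [Field k] {i j : Fin 4} (h : (i : ℕ) = j + 1) :
    Submodule (Alg k) (P k i) := LinearMap.ker (rho k h)

/-- `C = P j / P i p` -/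
noncomputable abbrev C (k : Type u) [Field k] {i j : Fin 4} (h : (i : ℕ) = j + 1) :
    Type u := P k j ⧸ U k h

theorem mem_V {x : P k i} : x ∈ V k h ↔ P.s x * S.X0 = 0 := by
  rw [LinearMap.mem_ker]
  constructor
  · intro hx; rw [← rho_apply h, hx, map_zero]
  · intro hx; apply P.ext; rw [rho_apply, hx, map_zero]

theorem V_supp : SuppGe k (j + 2) (V k h) := by
  rintro n hn ⟨x, hx⟩
  apply Subtype.ext
  change e (k := k) n • x = 0
  apply P.ext
  rw [P.e_smul n (by omega), map_zero]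
  rw [mem_V] at hx
  rcases Nat.lt_or_ge n i with h1 | h1
  · exact gpr_of_lt h1 _
  · have : n = i := by omega
    subst this
    rw [gpr_self]
    have h0 : (P.s x * S.X0).x0 = 0 := by rw [hx]; rfl
    simp [S.X0] at h0
    ext <;> simp [h0]

/-- the degree one part of `V` is spanned by `x₁, x₂` -/
theorem V_deg {x : P k i} (hx : x ∈ V k h) :
    e (k := k) (j + 2) • x = (P.s x).x1 • P.of i S.X1 + (P.s x).x2 • P.of i S.X2 := by
  apply P.ext
  rw [P.e_smul _ (by omega)]
  have hij : (j : ℕ) + 2 = i + 1 := by omega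
  rw [hij, gpr_add]
  rw [mem_V] at hx
  have h0 : (P.s x * S.X0).y0 = 0 := by rw [hx]; rfl
  have h1 : (P.s x * S.X0).y1 = 0 := by rw [hx]; rfl
  have h2 : (P.s x * S.X0).y2 = 0 := by rw [hx]; rfl
  simp [S.X0] at h0 h1 h2
  ext <;> simp [S.X1, S.X2, h0, h1, h2]

theorem X1_mem_V : P.of i S.X1 ∈ V k h := by rw [mem_V, P.s_of, X1_mul_X0]
theorem X2_mem_V : P.of i S.X2 ∈ V k h := by rw [mem_V, P.s_of, X2_mul_X0]

variable [CategoryTheory.HasExt.{u} (ModuleCat.{u} (Alg k))]
variable {M : Type u} [AddCommGroup M] [Module (Alg k) M]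

omit [CategoryTheory.HasExt.{u} (ModuleCat.{u} (Alg k))] in
include h in
theorem io_X0_mem (m : M) : e (k := k) i • (io j S.X0 : Alg k) • m = (io j S.X0 : Alg k) • m := by
  rw [← mul_smul, e_mul_io_hom (by omega) (hp h)]

omit [CategoryTheory.HasExt.{u} (ModuleCat.{u} (Alg k))] in
theorem C_hom_zero (h0 : ∀ m : M, e (k := k) j • m = m → (io j S.X0 : Alg k) • m = 0 → m = 0)
    (f : C k h →ₗ[Alg k] M) : f = 0 := by
  have hg : f ∘ₗ (U k h).mkQ = 0 := by
    apply P.hom_ext'
    set m := (f ∘ₗ (U k h).mkQ) (P.one j) with hm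
    rw [LinearMap.zero_apply]
    apply h0
    · rw [hm, ← map_smul, P.e_smul_one]
    · rw [hm, ← map_smul, P.io_smul_one, LinearMap.comp_apply]
      have : (U k h).mkQ (P.of j S.X0) = 0 := by
        rw [Submodule.mkQ_apply, Submodule.Quotient.mk_eq_zero]
        refine ⟨P.one i, ?_⟩
        apply P.ext
        rw [rho_apply]
        simp [P.one]
      rw [this, map_zero]
  apply LinearMap.ext
  intro x
  obtain ⟨y, rfl⟩ := (U k h).mkQ_surjective x
  exact LinearMap.congr_fun hg y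

theorem R0 (h0 : ∀ m : M, e (k := k) j • m = m → (io j S.X0 : Alg k) • m = 0 → m = 0) :
    EV (Alg k) 0 (C k h) M := EV.zero_of fun f => C_hom_zero h h0 f

omit [CategoryTheory.HasExt.{u} (ModuleCat.{u} (Alg k))] in
theorem exact_UC : Function.Exact (U k h).subtype (U k h).mkQ :=
  LinearMap.exact_subtype_mkQ _

omit [CategoryTheory.HasExt.{u} (ModuleCat.{u} (Alg k))] in
theorem exact_VU : Function.Exact (V k h).subtype (rho k h).rangeRestrict := by
  intro x
  constructor
  · intro hx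
    exact ⟨⟨x, LinearMap.mem_ker.2 (congrArg Subtype.val hx)⟩, rfl⟩
  · rintro ⟨⟨x, hx⟩, rfl⟩
    exact Subtype.ext (LinearMap.mem_ker.1 hx)

/-- `Ext^n(V,M)=0` etc. pass to `U` -/
theorem EV_U {n : ℕ} (hV : EV (Alg k) n (V k h) M) : EV (Alg k) (n + 1) (U k h) M :=
  EV.contra₃ (f := (V k h).subtype) (g := (rho k h).rangeRestrict) Subtype.val_injective
    (LinearMap.surjective_rangeRestrict _) (exact_VU h) hV (EV.proj n)

theorem EV_C {n : ℕ} (hU : EV (Alg k) n (U k h) M) : EV (Alg k) (n + 1) (C k h) M :=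
  EV.contra₃ (f := (U k h).subtype) (g := (U k h).mkQ) Subtype.val_injective
    (Submodule.mkQ_surjective _) (exact_UC h) hU (EV.proj n)

theorem R1 (h1 : ∀ n : M, e (k := k) i • n = n → (io i S.X1 : Alg k) • n = 0 →
    (io i S.X2 : Alg k) • n = 0 → ∃ m : M, (io j S.X0 : Alg k) • m = n) :
    EV (Alg k) 1 (C k h) M := by
  refine EV.one_of_extend (f := (U k h).subtype) (g := (U k h).mkQ) Subtype.val_injective
    (Submodule.mkQ_surjective _) (exact_UC h) ?_ (EV.proj 0)
  intro φ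
  set n := φ ((rho k h).rangeRestrict (P.one i)) with hn
  obtain ⟨m, hm⟩ := h1 n
    (by rw [hn, ← map_smul, ← map_smul, P.e_smul_one])
    (by
      rw [hn, ← map_smul, ← map_smul, P.io_smul_one]
      have : (rho k h).rangeRestrict (P.of i S.X1) = 0 :=
        Subtype.ext (LinearMap.mem_ker.1 (X1_mem_V h))
      rw [this, map_zero])
    (by
      rw [hn, ← map_smul, ← map_smul, P.io_smul_one]
      have : (rho k h).rangeRestrict (P.of i S.X2) = 0 :=
        Subtype.ext (LinearMap.mem_ker.1 (X2_mem_V h))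
      rw [this, map_zero])
  refine ⟨P.desc j m, ?_⟩
  have key : (P.desc j m ∘ₗ (U k h).subtype) ∘ₗ (rho k h).rangeRestrict =
      φ ∘ₗ (rho k h).rangeRestrict := by
    apply P.hom_ext'
    change P.desc j m (rho k h (P.one i)) = n
    rw [P.desc_apply, rho_apply, P.one, P.s_of, one_mul, hm]
  apply LinearMap.ext
  intro x
  obtain ⟨y, rfl⟩ := LinearMap.surjective_rangeRestrict (rho k h) x
  exact LinearMap.congr_fun key y

theorem R2 (hM : SuppLe k (j + 2) M)
    (h2 : ∀ n1 n2 : M, e (k := k) (j + 2) • n1 = n1 → e (k := k) (j + 2) • n2 = n2 →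
      ∃ n : M, (io i S.X1 : Alg k) • n = n1 ∧ (io i S.X2 : Alg k) • n = n2) :
    EV (Alg k) 2 (C k h) M := by
  refine EV_C h ?_
  refine EV.one_of_extend (f := (V k h).subtype) (g := (rho k h).rangeRestrict)
    Subtype.val_injective (LinearMap.surjective_rangeRestrict _) (exact_VU h) ?_ (EV.proj 0)
  intro φ
  set n1 := φ ⟨_, X1_mem_V h⟩ with hn1
  set n2 := φ ⟨_, X2_mem_V h⟩ with hn2
  have hd : ∀ t : S k, Hom' (j + 2) i t → e (k := k) (j + 2) • P.of i t = P.of i t := by
    intro t ht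
    apply P.ext
    rw [P.e_smul _ (by omega), P.s_of, hom_iff.1 ht]
  obtain ⟨n, h1, h2⟩ := h2 n1 n2
    (by
      rw [hn1, ← map_smul]; congr 1; apply Subtype.ext
      exact hd _ (by rw [show (j : ℕ) + 2 = i + 1 by omega]; exact homX1 _))
    (by
      rw [hn2, ← map_smul]; congr 1; apply Subtype.ext
      exact hd _ (by rw [show (j : ℕ) + 2 = i + 1 by omega]; exact homX2 _))
  refine ⟨P.desc i n, ?_⟩
  apply LinearMap.ext
  rintro ⟨x, hx⟩
  apply ext_e (k := k)
  intro l hl
  rcases lt_trichotomy l ((j : ℕ) + 2) with hl' | hl' | hl'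
  · rw [← map_smul, V_supp h l hl', map_zero, ← map_smul, V_supp h l hl', map_zero]
  · subst hl'
    rw [← map_smul, ← map_smul]
    have hx' : e (k := k) (j + 2) • (⟨x, hx⟩ : V k h) =
        (algebraMap k (Alg k) (P.s x).x1) • (⟨_, X1_mem_V h⟩ : V k h) +
        (algebraMap k (Alg k) (P.s x).x2) • (⟨_, X2_mem_V h⟩ : V k h) := by
      apply Subtype.ext
      change e (k := k) (j + 2) • x = algebraMap k (Alg k) (P.s x).x1 • P.of i S.X1 +
        algebraMap k (Alg k) (P.s x).x2 • P.of i S.X2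
      rw [V_deg h hx, algebraMap_smul, algebraMap_smul]
    rw [hx', map_add, map_add, map_smul, map_smul, map_smul, map_smul, ← hn1, ← hn2]
    congr 2
  · rw [hM l hl', hM l hl']

theorem R3 (hM : SuppLe k (j + 2) M) (n : ℕ) : EV (Alg k) (n + 3) (C k h) M :=
  EV_C h (EV_U h (EV.supp_le n (V_supp h) hM))

/-- all Ext groups out of `C` vanish -/
theorem R_all (hM : SuppLe k (j + 2) M)
    (h0 : ∀ m : M, e (k := k) j • m = m → (io j S.X0 : Alg k) • m = 0 → m = 0)
    (h1 : ∀ n : M, e (k := k) i • n = n → (io i S.X1 : Alg k) • n = 0 →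
      (io i S.X2 : Alg k) • n = 0 → ∃ m : M, (io j S.X0 : Alg k) • m = n)
    (h2 : ∀ n1 n2 : M, e (k := k) (j + 2) • n1 = n1 → e (k := k) (j + 2) • n2 = n2 →
      ∃ n : M, (io i S.X1 : Alg k) • n = n1 ∧ (io i S.X2 : Alg k) • n = n2) (n : ℕ) :
    EV (Alg k) n (C k h) M := by
  match n with
  | 0 => exact R0 h h0
  | 1 => exact R1 h h1
  | 2 => exact R2 h hM h2
  | n + 3 => exact R3 h hM n

theorem R_pos (hM : SuppLe k (j + 2) M)
    (h1 : ∀ n : M, e (k := k) i • n = n → (io i S.X1 : Alg k) • n = 0 →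
      (io i S.X2 : Alg k) • n = 0 → ∃ m : M, (io j S.X0 : Alg k) • m = n)
    (h2 : ∀ n1 n2 : M, e (k := k) (j + 2) • n1 = n1 → e (k := k) (j + 2) • n2 = n2 →
      ∃ n : M, (io i S.X1 : Alg k) • n = n1 ∧ (io i S.X2 : Alg k) • n = n2) (n : ℕ) :
    EV (Alg k) (n + 1) (C k h) M := by
  match n with
  | 0 => exact R1 h h1
  | 1 => exact R2 h hM h2
  | n + 2 => exact R3 h hM n

end

end Pool.Agent.Helper8.Tilt
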