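import Pool.Agent.helper8.Tilt.Alg

/-!
The projective modules `P j`, `j = 0,1,2,3`: the space `S` placed in degrees `j, …, j+3`.
-/

set_option autoImplicit false
universe u

namespace Pool.Agent.Helper8.Tilt

open S

variable (k : Type u) [Field k]

/-- The projective module at the vertex `j ≤ 3`; its underlying space is `S`. -/
def P (_ : Fin 4) : Type u := S k

variable {k}

instance (j : Fin 4) : AddCommGroup (P k j) := inferInstanceAs (AddCommGroup (S k))
instance (j : Fin 4) : Module k (P k j) := inferInstanceAs (Module k (S k))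

/-- the vertex as an element of `Fin 7` -/
def v (j : Fin 4) : Fin 7 := ⟨j, by omega⟩

@[simp] theorem v_val (j : Fin 4) : ((v j : Fin 7) : ℕ) = j := rfl

namespace P

/-- regard an element of `S` as an element of `P j` -/
def of (j : Fin 4) : S k ≃ₗ[k] P k j := LinearEquiv.refl k (S k)

/-- underlying element of `S` -/
def s {j : Fin 4} : P k j ≃ₗ[k] S k := LinearEquiv.refl k (S k)

@[simp] theorem s_of (j : Fin 4) (x : S k) : s (of j x) = x := rfl
@[simp] theorem of_s (j : Fin 4) (x : P k j) : of j (s x) = x := rfl

theorem ext {j : Fin 4} {x y : P k j} (h : s x = s y) : x = y := h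

noncomputable instance (j : Fin 4) : SMul (Alg k) (P k j) :=
  ⟨fun a x => of j (cs (v j) (a * io j (s x)))⟩

theorem smul_s {j : Fin 4} (a : Alg k) (x : P k j) : s (a • x) = cs (v j) (a * io j (s x)) := rfl

noncomputable instance (j : Fin 4) : Module (Alg k) (P k j) where
  one_smul x := ext (by
    rw [smul_s, one_mul]; exact cs_io (l := v j) (by simp; omega) (s x))
  mul_smul a b x := ext (by
    rw [smul_s, smul_s, smul_s]
    have := io_cs (v j) (b * io j (s x))
    rw [v_val] at this
    rw [this, mul_assoc b, io_mul_e _ (by omega), mul_assoc])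
  smul_zero a := ext (by simp [smul_s])
  smul_add a x y := ext (by simp [smul_s, mul_add])
  add_smul a b x := ext (by simp [smul_s, add_mul])
  zero_smul x := ext (by simp [smul_s])

instance (j : Fin 4) : IsScalarTower k (Alg k) (P k j) where
  smul_assoc r a x := ext (by
    rw [smul_s, map_smul, smul_s, smul_mul_assoc, map_smul])

/-- The embedding of `P j` in the regular module. -/
noncomputable def inc (j : Fin 4) : P k j →ₗ[Alg k] Alg k where
  toFun x := io j (s x)
  map_add' x y := by simp
  map_smul' a x := by
    rw [smul_s]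
    have := io_cs (v j) (a * io j (s x))
    rw [v_val] at this
    rw [this, mul_assoc a, io_mul_e _ (by omega)]
    rfl

theorem inc_apply (j : Fin 4) (x : P k j) : inc j x = io j (s x) := rfl

/-- the map `P j → M` with `1 ↦ e j • m` -/
noncomputable def desc (j : Fin 4) {M : Type u} [AddCommGroup M] [Module (Alg k) M] (m : M) :
    P k j →ₗ[Alg k] M := (LinearMap.toSpanSingleton (Alg k) M m) ∘ₗ inc j

theorem desc_apply (j : Fin 4) {M : Type u} [AddCommGroup M] [Module (Alg k) M] (m : M)
    (x : P k j) : desc j m x = io j (s x) • m := rfl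

theorem io_smul_of (l : ℕ) (hl : l < 7) {j : Fin 4} {i : ℕ} (hi : i < 7) {t : S k}
    (ht : Hom' i l t) (x : P k j) : s (io l t • x) = t * gpr l j (s x) := by
  rw [smul_s, cs_apply]
  simp only [io_mul_io l j hl, v_val, if_true]
  rw [← Finset.sum_mul, sum_gpr_hom hi ht]

theorem io_smul_le (l : ℕ) (hl : l ≤ 3) {j : Fin 4} (t : S k)
    (x : P k j) : s (io l t • x) = t * gpr l j (s x) := by
  rw [smul_s, cs_apply]
  simp only [io_mul_io l j (by omega : l < 7), v_val, if_true]
  rw [← Finset.sum_mul, sum_gpr hl]

theorem e_smul (n : ℕ) (hn : n < 7) {j : Fin 4} (x : P k j) : s (e (k := k) n • x) = gpr n j (s x) := by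
  rw [e, io_smul_of n hn hn (hom_one n), one_mul]

/-- one -/
noncomputable def one (j : Fin 4) : P k j := of j 1

theorem io_smul_one (j : Fin 4) (t : S k) : io j t • one j = of j t := by
  apply ext
  rw [io_smul_le j (by omega)]
  simp only [one, s_of]
  rw [hom_iff.1 (hom_one _), mul_one]

theorem hom_ext' {j : Fin 4} {M : Type u} [AddCommGroup M] [Module (Alg k) M]
    {f g : P k j →ₗ[Alg k] M} (h : f (one j) = g (one j)) : f = g := by
  ext x
  rw [← of_s j x, ← io_smul_one, map_smul, map_smul, h]

theorem apply_eq {j : Fin 4} {M : Type u} [AddCommGroup M] [Module (Alg k) M]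
    (f : P k j →ₗ[Alg k] M) (x : P k j) : f x = io j (s x) • f (one j) := by
  rw [← map_smul, io_smul_one, of_s]

theorem e_smul_one (j : Fin 4) : e (k := k) j • (one j : P k j) = one j := by
  rw [e, io_smul_one]; rfl

instance projective (j : Fin 4) : Module.Projective (Alg k) (P k j) := by
  refine Module.Projective.of_split (inc j) (LinearMap.toSpanSingleton (Alg k) (P k j) (one j)) ?_
  ext x
  simp only [LinearMap.comp_apply, LinearMap.toSpanSingleton_apply, inc_apply, io_smul_one,
    of_s, LinearMap.id_apply]

/-- right multiplication by a homogeneous element -/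
noncomputable def rm (i j : Fin 4) (t : S k) (ht : Hom' (i : ℕ) (j : ℕ) t) :
    P k i →ₗ[Alg k] P k j :=
  desc i (of j t)

theorem rm_apply (i j : Fin 4) (t : S k) (ht : Hom' (i : ℕ) (j : ℕ) t) (x : P k i) :
    s (rm i j t ht x) = s x * t := by
  rw [rm, desc_apply, io_smul_le _ (by omega), s_of, hom_iff.1 ht]

end P

end Pool.Agent.Helper8.Tilt
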