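import Mathlib

/-!
A graded Frobenius algebra `S` with Hilbert function `(1,5,5,1)`.

Basis: `1`; `p, x₁, x₂, y₁, y₂` in degree one (coordinates `x0 … x4`); the dual basis
in degree two (coordinates `y0 … y4`); a socle element in degree three (coordinate `z`).
-/

set_option autoImplicit false
universe u

namespace Pool.Agent.Helper8.Tilt

/-- The underlying space of the graded Frobenius algebra. -/
@[ext] structure S (k : Type u) where
  c : k
  x0 : k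
  x1 : k
  x2 : k
  x3 : k
  x4 : k
  y0 : k
  y1 : k
  y2 : k
  y3 : k
  y4 : k
  z : k

namespace S

section
variable {k : Type u} [CommRing k]

instance : Zero (S k) := ⟨⟨0, 0, 0, 0, 0, 0, 0, 0, 0, 0, 0, 0⟩⟩

instance : One (S k) := ⟨⟨1, 0, 0, 0, 0, 0, 0, 0, 0, 0, 0, 0⟩⟩

instance : Add (S k) := ⟨fun s t => ⟨s.c + t.c, s.x0 + t.x0, s.x1 + t.x1, s.x2 + t.x2, s.x3 + t.x3, s.x4 + t.x4, s.y0 + t.y0, s.y1 + t.y1, s.y2 + t.y2, s.y3 + t.y3, s.y4 + t.y4, s.z + t.z⟩⟩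

instance : Neg (S k) := ⟨fun s => ⟨-s.c, -s.x0, -s.x1, -s.x2, -s.x3, -s.x4, -s.y0, -s.y1, -s.y2, -s.y3, -s.y4, -s.z⟩⟩

instance : Sub (S k) := ⟨fun s t => ⟨s.c - t.c, s.x0 - t.x0, s.x1 - t.x1, s.x2 - t.x2, s.x3 - t.x3, s.x4 - t.x4, s.y0 - t.y0, s.y1 - t.y1, s.y2 - t.y2, s.y3 - t.y3, s.y4 - t.y4, s.z - t.z⟩⟩

instance : SMul k (S k) := ⟨fun a s => ⟨a * s.c, a * s.x0, a * s.x1, a * s.x2, a * s.x3, a * s.x4, a * s.y0, a * s.y1, a * s.y2, a * s.y3, a * s.y4, a * s.z⟩⟩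

instance : Mul (S k) := ⟨fun s t => ⟨s.c * t.c,
    s.c * t.x0 + s.x0 * t.c,
    s.c * t.x1 + s.x1 * t.c,
    s.c * t.x2 + s.x2 * t.c,
    s.c * t.x3 + s.x3 * t.c,
    s.c * t.x4 + s.x4 * t.c,
    s.c * t.y0 + s.y0 * t.c + s.x0 * t.x0 + s.x1 * t.x3 + s.x2 * t.x4,
    s.c * t.y1 + s.y1 * t.c + s.x2 * t.x3 + s.x3 * t.x0 + s.x3 * t.x2 + s.x3 * t.x4,
    s.c * t.y2 + s.y2 * t.c + s.x1 * t.x3 + s.x3 * t.x1 + s.x4 * t.x0 + s.x4 * t.x4,
    s.c * t.y3 + s.y3 * t.c + s.x0 * t.x1 + s.x1 * t.x2 + s.x2 * t.x1 + s.x4 * t.x1,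
    s.c * t.y4 + s.y4 * t.c + s.x0 * t.x2 + s.x1 * t.x3 + s.x2 * t.x4 + s.x4 * t.x2,
    s.c * t.z + s.z * t.c + s.x0 * t.y0 + s.y0 * t.x0 + s.x1 * t.y1 + s.y1 * t.x1 + s.x2 * t.y2 + s.y2 * t.x2 + s.x3 * t.y3 + s.y3 * t.x3 + s.x4 * t.y4 + s.y4 * t.x4⟩⟩

@[simp] theorem zero_c : (0 : S k).c = 0 := rfl
@[simp] theorem zero_x0 : (0 : S k).x0 = 0 := rfl
@[simp] theorem zero_x1 : (0 : S k).x1 = 0 := rfl
@[simp] theorem zero_x2 : (0 : S k).x2 = 0 := rfl
@[simp] theorem zero_x3 : (0 : S k).x3 = 0 := rfl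
@[simp] theorem zero_x4 : (0 : S k).x4 = 0 := rfl
@[simp] theorem zero_y0 : (0 : S k).y0 = 0 := rfl
@[simp] theorem zero_y1 : (0 : S k).y1 = 0 := rfl
@[simp] theorem zero_y2 : (0 : S k).y2 = 0 := rfl
@[simp] theorem zero_y3 : (0 : S k).y3 = 0 := rfl
@[simp] theorem zero_y4 : (0 : S k).y4 = 0 := rfl
@[simp] theorem zero_z : (0 : S k).z = 0 := rfl
@[simp] theorem one_c : (1 : S k).c = 1 := rfl
@[simp] theorem one_x0 : (1 : S k).x0 = 0 := rfl
@[simp] theorem one_x1 : (1 : S k).x1 = 0 := rfl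
@[simp] theorem one_x2 : (1 : S k).x2 = 0 := rfl
@[simp] theorem one_x3 : (1 : S k).x3 = 0 := rfl
@[simp] theorem one_x4 : (1 : S k).x4 = 0 := rfl
@[simp] theorem one_y0 : (1 : S k).y0 = 0 := rfl
@[simp] theorem one_y1 : (1 : S k).y1 = 0 := rfl
@[simp] theorem one_y2 : (1 : S k).y2 = 0 := rfl
@[simp] theorem one_y3 : (1 : S k).y3 = 0 := rfl
@[simp] theorem one_y4 : (1 : S k).y4 = 0 := rfl
@[simp] theorem one_z : (1 : S k).z = 0 := rfl
@[simp] theorem add_c (s t : S k) : (s + t).c = s.c + t.c := rfl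
@[simp] theorem add_x0 (s t : S k) : (s + t).x0 = s.x0 + t.x0 := rfl
@[simp] theorem add_x1 (s t : S k) : (s + t).x1 = s.x1 + t.x1 := rfl
@[simp] theorem add_x2 (s t : S k) : (s + t).x2 = s.x2 + t.x2 := rfl
@[simp] theorem add_x3 (s t : S k) : (s + t).x3 = s.x3 + t.x3 := rfl
@[simp] theorem add_x4 (s t : S k) : (s + t).x4 = s.x4 + t.x4 := rfl
@[simp] theorem add_y0 (s t : S k) : (s + t).y0 = s.y0 + t.y0 := rfl
@[simp] theorem add_y1 (s t : S k) : (s + t).y1 = s.y1 + t.y1 := rfl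
@[simp] theorem add_y2 (s t : S k) : (s + t).y2 = s.y2 + t.y2 := rfl
@[simp] theorem add_y3 (s t : S k) : (s + t).y3 = s.y3 + t.y3 := rfl
@[simp] theorem add_y4 (s t : S k) : (s + t).y4 = s.y4 + t.y4 := rfl
@[simp] theorem add_z (s t : S k) : (s + t).z = s.z + t.z := rfl
@[simp] theorem neg_c (s : S k) : (-s).c = -s.c := rfl
@[simp] theorem neg_x0 (s : S k) : (-s).x0 = -s.x0 := rfl
@[simp] theorem neg_x1 (s : S k) : (-s).x1 = -s.x1 := rfl
@[simp] theorem neg_x2 (s : S k) : (-s).x2 = -s.x2 := rfl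
@[simp] theorem neg_x3 (s : S k) : (-s).x3 = -s.x3 := rfl
@[simp] theorem neg_x4 (s : S k) : (-s).x4 = -s.x4 := rfl
@[simp] theorem neg_y0 (s : S k) : (-s).y0 = -s.y0 := rfl
@[simp] theorem neg_y1 (s : S k) : (-s).y1 = -s.y1 := rfl
@[simp] theorem neg_y2 (s : S k) : (-s).y2 = -s.y2 := rfl
@[simp] theorem neg_y3 (s : S k) : (-s).y3 = -s.y3 := rfl
@[simp] theorem neg_y4 (s : S k) : (-s).y4 = -s.y4 := rfl
@[simp] theorem neg_z (s : S k) : (-s).z = -s.z := rfl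
@[simp] theorem sub_c (s t : S k) : (s - t).c = s.c - t.c := rfl
@[simp] theorem sub_x0 (s t : S k) : (s - t).x0 = s.x0 - t.x0 := rfl
@[simp] theorem sub_x1 (s t : S k) : (s - t).x1 = s.x1 - t.x1 := rfl
@[simp] theorem sub_x2 (s t : S k) : (s - t).x2 = s.x2 - t.x2 := rfl
@[simp] theorem sub_x3 (s t : S k) : (s - t).x3 = s.x3 - t.x3 := rfl
@[simp] theorem sub_x4 (s t : S k) : (s - t).x4 = s.x4 - t.x4 := rfl
@[simp] theorem sub_y0 (s t : S k) : (s - t).y0 = s.y0 - t.y0 := rfl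
@[simp] theorem sub_y1 (s t : S k) : (s - t).y1 = s.y1 - t.y1 := rfl
@[simp] theorem sub_y2 (s t : S k) : (s - t).y2 = s.y2 - t.y2 := rfl
@[simp] theorem sub_y3 (s t : S k) : (s - t).y3 = s.y3 - t.y3 := rfl
@[simp] theorem sub_y4 (s t : S k) : (s - t).y4 = s.y4 - t.y4 := rfl
@[simp] theorem sub_z (s t : S k) : (s - t).z = s.z - t.z := rfl
@[simp] theorem smul_c (a : k) (s : S k) : (a • s).c = a * s.c := rfl
@[simp] theorem smul_x0 (a : k) (s : S k) : (a • s).x0 = a * s.x0 := rfl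
@[simp] theorem smul_x1 (a : k) (s : S k) : (a • s).x1 = a * s.x1 := rfl
@[simp] theorem smul_x2 (a : k) (s : S k) : (a • s).x2 = a * s.x2 := rfl
@[simp] theorem smul_x3 (a : k) (s : S k) : (a • s).x3 = a * s.x3 := rfl
@[simp] theorem smul_x4 (a : k) (s : S k) : (a • s).x4 = a * s.x4 := rfl
@[simp] theorem smul_y0 (a : k) (s : S k) : (a • s).y0 = a * s.y0 := rfl
@[simp] theorem smul_y1 (a : k) (s : S k) : (a • s).y1 = a * s.y1 := rfl
@[simp] theorem smul_y2 (a : k) (s : S k) : (a • s).y2 = a * s.y2 := rfl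
@[simp] theorem smul_y3 (a : k) (s : S k) : (a • s).y3 = a * s.y3 := rfl
@[simp] theorem smul_y4 (a : k) (s : S k) : (a • s).y4 = a * s.y4 := rfl
@[simp] theorem smul_z (a : k) (s : S k) : (a • s).z = a * s.z := rfl
@[simp] theorem mul_c (s t : S k) : (s * t).c = s.c * t.c := rfl
@[simp] theorem mul_x0 (s t : S k) : (s * t).x0 = s.c * t.x0 + s.x0 * t.c := rfl
@[simp] theorem mul_x1 (s t : S k) : (s * t).x1 = s.c * t.x1 + s.x1 * t.c := rfl
@[simp] theorem mul_x2 (s t : S k) : (s * t).x2 = s.c * t.x2 + s.x2 * t.c := rfl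
@[simp] theorem mul_x3 (s t : S k) : (s * t).x3 = s.c * t.x3 + s.x3 * t.c := rfl
@[simp] theorem mul_x4 (s t : S k) : (s * t).x4 = s.c * t.x4 + s.x4 * t.c := rfl
@[simp] theorem mul_y0 (s t : S k) : (s * t).y0 = s.c * t.y0 + s.y0 * t.c + s.x0 * t.x0 + s.x1 * t.x3 + s.x2 * t.x4 := rfl
@[simp] theorem mul_y1 (s t : S k) : (s * t).y1 = s.c * t.y1 + s.y1 * t.c + s.x2 * t.x3 + s.x3 * t.x0 + s.x3 * t.x2 + s.x3 * t.x4 := rfl
@[simp] theorem mul_y2 (s t : S k) : (s * t).y2 = s.c * t.y2 + s.y2 * t.c + s.x1 * t.x3 + s.x3 * t.x1 + s.x4 * t.x0 + s.x4 * t.x4 := rfl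
@[simp] theorem mul_y3 (s t : S k) : (s * t).y3 = s.c * t.y3 + s.y3 * t.c + s.x0 * t.x1 + s.x1 * t.x2 + s.x2 * t.x1 + s.x4 * t.x1 := rfl
@[simp] theorem mul_y4 (s t : S k) : (s * t).y4 = s.c * t.y4 + s.y4 * t.c + s.x0 * t.x2 + s.x1 * t.x3 + s.x2 * t.x4 + s.x4 * t.x2 := rfl
@[simp] theorem mul_z (s t : S k) : (s * t).z = s.c * t.z + s.z * t.c + s.x0 * t.y0 + s.y0 * t.x0 + s.x1 * t.y1 + s.y1 * t.x1 + s.x2 * t.y2 + s.y2 * t.x2 + s.x3 * t.y3 + s.y3 * t.x3 + s.x4 * t.y4 + s.y4 * t.x4 := rfl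

instance : AddCommGroup (S k) where
  add_assoc s t r := by ext <;> simp [add_assoc]
  zero_add s := by ext <;> simp
  add_zero s := by ext <;> simp
  nsmul := nsmulRec
  zsmul := zsmulRec
  neg_add_cancel s := by ext <;> simp
  add_comm s t := by ext <;> simp [add_comm]
  sub_eq_add_neg s t := by ext <;> simp [sub_eq_add_neg]

instance : Module k (S k) where
  one_smul s := by ext <;> simp
  mul_smul a b s := by ext <;> simp [mul_assoc]
  smul_zero a := by ext <;> simp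
  smul_add a s t := by ext <;> simp [mul_add]
  add_smul a b s := by ext <;> simp [add_mul]
  zero_smul s := by ext <;> simp

instance : Ring (S k) :=
  { (inferInstance : AddCommGroup (S k)) with
    mul := (· * ·)
    one := 1
    zero_mul := fun s => by ext <;> simp
    mul_zero := fun s => by ext <;> simp
    one_mul := fun s => by ext <;> simp
    mul_one := fun s => by ext <;> simp
    left_distrib := fun s t r => by ext <;> simp <;> ring
    right_distrib := fun s t r => by ext <;> simp <;> ring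
    mul_assoc := fun s t r => by ext <;> simp <;> ring }

instance : Algebra k (S k) := Algebra.ofModule
  (fun a s t => by ext <;> simp <;> ring)
  (fun a s t => by ext <;> simp <;> ring)

theorem algebraMap_def (a : k) : algebraMap k (S k) a = a • 1 := Algebra.algebraMap_eq_smul_one a

/-- Projection onto the homogeneous part of degree `n`. -/
def pr (n : ℕ) : S k →ₗ[k] S k where
  toFun s := ⟨if n = 0 then s.c else 0, if n = 1 then s.x0 else 0, if n = 1 then s.x1 else 0, if n = 1 then s.x2 else 0, if n = 1 then s.x3 else 0, if n = 1 then s.x4 else 0, if n = 2 then s.y0 else 0, if n = 2 then s.y1 else 0, if n = 2 then s.y2 else 0, if n = 2 then s.y3 else 0, if n = 2 then s.y4 else 0, if n = 3 then s.z else 0⟩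
  map_add' s t := by ext <;> simp <;> split_ifs <;> simp
  map_smul' a s := by ext <;> simp

@[simp] theorem pr_c (n : ℕ) (s : S k) : (pr n s).c = if n = 0 then s.c else 0 := rfl
@[simp] theorem pr_x0 (n : ℕ) (s : S k) : (pr n s).x0 = if n = 1 then s.x0 else 0 := rfl
@[simp] theorem pr_x1 (n : ℕ) (s : S k) : (pr n s).x1 = if n = 1 then s.x1 else 0 := rfl
@[simp] theorem pr_x2 (n : ℕ) (s : S k) : (pr n s).x2 = if n = 1 then s.x2 else 0 := rfl
@[simp] theorem pr_x3 (n : ℕ) (s : S k) : (pr n s).x3 = if n = 1 then s.x3 else 0 := rfl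
@[simp] theorem pr_x4 (n : ℕ) (s : S k) : (pr n s).x4 = if n = 1 then s.x4 else 0 := rfl
@[simp] theorem pr_y0 (n : ℕ) (s : S k) : (pr n s).y0 = if n = 2 then s.y0 else 0 := rfl
@[simp] theorem pr_y1 (n : ℕ) (s : S k) : (pr n s).y1 = if n = 2 then s.y1 else 0 := rfl
@[simp] theorem pr_y2 (n : ℕ) (s : S k) : (pr n s).y2 = if n = 2 then s.y2 else 0 := rfl
@[simp] theorem pr_y3 (n : ℕ) (s : S k) : (pr n s).y3 = if n = 2 then s.y3 else 0 := rfl
@[simp] theorem pr_y4 (n : ℕ) (s : S k) : (pr n s).y4 = if n = 2 then s.y4 else 0 := rfl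
@[simp] theorem pr_z (n : ℕ) (s : S k) : (pr n s).z = if n = 3 then s.z else 0 := rfl

theorem pr_of_ge {n : ℕ} (h : 4 ≤ n) (s : S k) : pr n s = 0 := by
  have h0 : n ≠ 0 := by omega
  have h1 : n ≠ 1 := by omega
  have h2 : n ≠ 2 := by omega
  have h3 : n ≠ 3 := by omega
  ext <;> simp [h0, h1, h2, h3]

theorem pr_pr_self (n : ℕ) (s : S k) : pr n (pr n s) = pr n s := by
  ext <;> simp <;> intro h h' <;> exact absurd h' h

theorem pr_pr_ne {m n : ℕ} (h : m ≠ n) (s : S k) : pr m (pr n s) = 0 := by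
  ext <;> simp <;> intros <;> omega

theorem pr_sum (s : S k) : pr 0 s + pr 1 s + pr 2 s + pr 3 s = s := by
  ext <;> simp

theorem pr_one (n : ℕ) : pr n (1 : S k) = if n = 0 then 1 else 0 := by
  split_ifs with h
  · subst h; ext <;> simp
  · ext <;> simp [h]

theorem pr_mul_pr (d m n : ℕ) (s t : S k) :
    pr d (pr m s * pr n t) = if d = m + n then pr m s * pr n t else 0 := by
  obtain rfl | rfl | rfl | rfl | hm : m = 0 ∨ m = 1 ∨ m = 2 ∨ m = 3 ∨ 4 ≤ m := by omega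
  on_goal 5 => simp [pr_of_ge hm]
  all_goals
    obtain rfl | rfl | rfl | rfl | hn : n = 0 ∨ n = 1 ∨ n = 2 ∨ n = 3 ∨ 4 ≤ n := by omega
    on_goal 5 => simp [pr_of_ge hn]
    all_goals
      split_ifs with h
      · subst h
        ext <;> simp
      · ext <;> simp <;> intros <;> omega

end
end S

end Pool.Agent.Helper8.Tilt
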