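import Pool.Agent.helper8.Tilt.Facts

/-!
The short exact sequences defining the modules `T1`, `T2`, `T3`.
-/

set_option autoImplicit false
set_option linter.unusedSectionVars false
set_option linter.unusedSimpArgs false
universe u

namespace Pool.Agent.Helper8.Tilt

open S

variable {k : Type u} [Field k]

theorem h10 : ((1 : Fin 4) : ℕ) = ((0 : Fin 4) : ℕ) + 1 := rfl
theorem h21 : ((2 : Fin 4) : ℕ) = ((1 : Fin 4) : ℕ) + 1 := rfl
theorem h32 : ((3 : Fin 4) : ℕ) = ((2 : Fin 4) : ℕ) + 1 := rfl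

theorem Hom'.neg {i j : ℕ} {s : S k} (hs : Hom' i j s) : Hom' i j (-s) :=
  fun d hd => by rw [map_neg, hs d hd, neg_zero]
theorem Hom'.sub {i j : ℕ} {s t : S k} (hs : Hom' i j s) (ht : Hom' i j t) :
    Hom' i j (s - t) := fun d hd => by rw [map_sub, hs d hd, ht d hd, sub_zero]

/-! ### the map `ξ : P 2 × P 2 → P 1` -/

noncomputable def xi (k : Type u) [Field k] : (P k 2 × P k 2) →ₗ[Alg k] P k 1 :=
  (P.rm 2 1 S.X1 (homX1 1)).coprod (P.rm 2 1 S.X2 (homX2 1))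

theorem xi_apply (x : P k 2 × P k 2) : P.s (xi k x) = P.s x.1 * S.X1 + P.s x.2 * S.X2 := by
  rw [xi, LinearMap.coprod_apply, map_add, P.rm_apply, P.rm_apply]

/-- coefficients of `θ` -/
def ta : Fin 6 → S k := ![S.X1, 0, S.X0 - S.X2, S.X0 - S.X4, S.X0, 0]
def tb : Fin 6 → S k := ![0, S.X2, 0, 0, -S.X1, S.X0 - S.X4]

theorem ta_hom (j : ℕ) (t : Fin 6) : Hom' (j + 1) j (ta t : S k) := by
  fin_cases t
  · exact homX1 j
  · exact Hom'.zero _ _
  · exact (homX0 j).sub (homX2 j)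
  · exact (homX0 j).sub (homX4 j)
  · exact homX0 j
  · exact Hom'.zero _ _

theorem tb_hom (j : ℕ) (t : Fin 6) : Hom' (j + 1) j (tb t : S k) := by
  fin_cases t
  · exact Hom'.zero _ _
  · exact homX2 j
  · exact Hom'.zero _ _
  · exact Hom'.zero _ _
  · exact (homX1 j).neg
  · exact (homX0 j).sub (homX4 j)

/-- `r ↦ ∑ r t * a t` -/
noncomputable def comb (i j : Fin 4) (a : Fin 6 → S k) (ha : ∀ t, Hom' (i : ℕ) (j : ℕ) (a t)) :
    (Fin 6 → P k i) →ₗ[Alg k] P k j := ∑ t, (P.rm i j (a t) (ha t)) ∘ₗ LinearMap.proj t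

theorem comb_apply (i j : Fin 4) (a : Fin 6 → S k) (ha : ∀ t, Hom' (i : ℕ) (j : ℕ) (a t))
    (r : Fin 6 → P k i) : P.s (comb i j a ha r) = ∑ t, P.s (r t) * a t := by
  rw [comb, LinearMap.sum_apply, map_sum]
  refine Finset.sum_congr rfl fun t _ => ?_
  rw [LinearMap.comp_apply, P.rm_apply]; rfl

noncomputable def theta (k : Type u) [Field k] : (Fin 6 → P k 3) →ₗ[Alg k] (P k 2 × P k 2) :=
  (comb 3 2 ta (ta_hom 2)).prod (comb 3 2 tb (tb_hom 2))

theorem theta_fst (r : Fin 6 → P k 3) : P.s (theta k r).1 =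
    P.s (r 0) * S.X1 + P.s (r 2) * (S.X0 - S.X2) + P.s (r 3) * (S.X0 - S.X4)
      + P.s (r 4) * S.X0 := by
  change P.s (comb 3 2 ta (ta_hom 2) r) = _
  rw [comb_apply, Fin.sum_univ_six]
  simp [ta]

theorem theta_snd (r : Fin 6 → P k 3) : P.s (theta k r).2 =
    P.s (r 1) * S.X2 - P.s (r 4) * S.X1 + P.s (r 5) * (S.X0 - S.X4) := by
  change P.s (comb 3 2 tb (tb_hom 2) r) = _
  rw [comb_apply, Fin.sum_univ_six]
  simp [tb, sub_eq_add_neg]

/-! ### the maps `η`, `β` -/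

noncomputable def eta (k : Type u) [Field k] : P k 2 →ₗ[Alg k] (P k 1 × P k 1) :=
  (P.rm 2 1 S.X3 (homX3 1)).prod (P.rm 2 1 S.X4 (homX4 1))

theorem eta_fst (x : P k 2) : P.s (eta k x).1 = P.s x * S.X3 := P.rm_apply _ _ _ _ _
theorem eta_snd (x : P k 2) : P.s (eta k x).2 = P.s x * S.X4 := P.rm_apply _ _ _ _ _

def ba : Fin 6 → S k := ![S.X3, S.X0 - S.X2, S.X0 - S.X4, S.X1, 0, 0]
def bb : Fin 6 → S k := ![0, 0, 0, -S.X0, S.X3, S.X0 - S.X4]

theorem ba_hom (j : ℕ) (t : Fin 6) : Hom' (j + 1) j (ba t : S k) := by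
  fin_cases t
  · exact homX3 j
  · exact (homX0 j).sub (homX2 j)
  · exact (homX0 j).sub (homX4 j)
  · exact homX1 j
  · exact Hom'.zero _ _
  · exact Hom'.zero _ _

theorem bb_hom (j : ℕ) (t : Fin 6) : Hom' (j + 1) j (bb t : S k) := by
  fin_cases t
  · exact Hom'.zero _ _
  · exact Hom'.zero _ _
  · exact Hom'.zero _ _
  · exact (homX0 j).neg
  · exact homX3 j
  · exact (homX0 j).sub (homX4 j)

noncomputable def beta (k : Type u) [Field k] : (P k 1 × P k 1) →ₗ[Alg k] (Fin 6 → P k 0) :=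
  LinearMap.pi fun t => (P.rm 1 0 (ba t) (ba_hom 0 t)).coprod (P.rm 1 0 (bb t) (bb_hom 0 t))

theorem beta_apply (x : P k 1 × P k 1) (t : Fin 6) :
    P.s (beta k x t) = P.s x.1 * ba t + P.s x.2 * bb t := by
  rw [beta, LinearMap.pi_apply, LinearMap.coprod_apply, map_add, P.rm_apply, P.rm_apply]

/-! ### exactness -/

theorem xi_theta (r : Fin 6 → P k 3) : xi k (theta k r) = 0 := by
  apply P.ext
  rw [xi_apply, theta_fst, theta_snd, map_zero]
  ext <;> simp [S.X0, S.X1, S.X2, S.X4]; ring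

theorem rho_xi (x : P k 2 × P k 2) : rho k h10 (xi k x) = 0 := by
  apply P.ext
  rw [rho_apply, xi_apply, map_zero]
  ext <;> simp [S.X0, S.X1, S.X2, S.X4]

theorem exact_xi {x : P k 1} (hx : x ∈ V k h10) : ∃ y, xi k y = x := by
  rw [mem_V] at hx
  set s := P.s x with hs
  have a0 := congrArg S.x0 hx
  have a1 := congrArg S.y0 hx
  have a2 := congrArg S.y1 hx
  have a3 := congrArg S.y2 hx
  have a4 := congrArg S.z hx
  simp [S.X0] at a0 a1 a2 a3 a4
  refine ⟨(P.of 2 ⟨s.x1, 0, 0, 0, s.y2, s.y3, 0, s.z, 0, 0, 0, 0⟩,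
    P.of 2 ⟨s.x2, 0, 0, 0, s.y1, s.y4, 0, 0, 0, 0, 0, 0⟩), ?_⟩
  apply P.ext
  rw [xi_apply]
  change _ = s
  ext <;> simp [S.X1, S.X2, a0, a1, a2, a3, a4]

theorem exact_theta {x : P k 2 × P k 2} (hx : xi k x = 0) : ∃ y, theta k y = x := by
  have hx' : P.s x.1 * S.X1 + P.s x.2 * S.X2 = 0 := by rw [← xi_apply, hx, map_zero]
  set s := P.s x.1 with hs
  set t := P.s x.2 with ht
  have a0 := congrArg S.x1 hx'
  have a1 := congrArg S.x2 hx'
  have b1 := congrArg S.y1 hx'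
  have b2 := congrArg S.y2 hx'
  have b3 := congrArg S.y3 hx'
  have b4 := congrArg S.y4 hx'
  have c := congrArg S.z hx'
  simp [S.X1, S.X2] at a0 a1 b1 b2 b3 b4 c
  refine ⟨![P.of 3 ⟨s.x1, s.y3, 0, 0, s.y2, 0, 0, s.z, 0, 0, 0, 0⟩,
    P.of 3 ⟨t.x2, t.y4, t.y3, 0, t.y1, 0, 0, 0, t.z, 0, 0, 0⟩,
    P.of 3 ⟨-s.x2, 0, 0, 0, 0, 0, 0, 0, 0, 0, 0, 0⟩,
    P.of 3 ⟨-s.x4, s.y0 - s.y4, 0, -s.y4, 0, 0, 0, 0, 0, 0, 0, 0⟩,
    P.of 3 ⟨-t.x1, 0, 0, 0, s.y1, 0, 0, 0, 0, 0, 0, 0⟩,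
    P.of 3 ⟨t.x0, t.y0, 0, 0, 0, 0, 0, 0, 0, 0, 0, 0⟩], ?_⟩
  apply Prod.ext
  · apply P.ext
    rw [theta_fst]
    change _ = s
    ext <;> simp [S.X0, S.X1, S.X2, S.X4, a0, a1, b1, b2]
    linear_combination -b3
  · apply P.ext
    rw [theta_snd]
    change _ = t
    ext <;> simp [S.X0, S.X1, S.X2, S.X4, a0, a1, b1, b2]
    · linear_combination -b4
    · linear_combination -c

theorem eta_rho (x : P k 3) : eta k (rho k h32 x) = 0 := by
  apply Prod.ext
  · apply P.ext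
    rw [eta_fst, rho_apply]
    change _ = 0
    ext <;> simp [S.X0, S.X3]
  · apply P.ext
    rw [eta_snd, rho_apply]
    change _ = 0
    ext <;> simp [S.X0, S.X4]

theorem exact_eta {x : P k 2} (hx : eta k x = 0) : x ∈ U k h32 := by
  have h1 : P.s x * S.X3 = 0 := by rw [← eta_fst, hx]; rfl
  have h2 : P.s x * S.X4 = 0 := by rw [← eta_snd, hx]; rfl
  rw [mem_U]
  set s := P.s x with hs
  have a0 := congrArg S.x3 h1
  have a1 := congrArg S.y0 h1
  have a2 := congrArg S.y1 h1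
  have a3 := congrArg S.z h1
  have b1 := congrArg S.y1 h2
  have b2 := congrArg S.y2 h2
  have b3 := congrArg S.z h2
  simp [S.X3, S.X4] at a0 a1 a2 a3 b1 b2 b3
  refine ⟨⟨s.x0, s.y0, 0, 0, s.y1, s.y2, s.z, 0, 0, 0, 0, 0⟩, ?_⟩
  ext <;> simp [S.X0, a0, a1, a2, a3, b1, b2, b3]

theorem beta_eta (x : P k 2) : beta k (eta k x) = 0 := by
  funext t
  apply P.ext
  rw [beta_apply, eta_fst, eta_snd]
  change _ = 0
  fin_cases t <;> simp only [ba, bb] <;> ext <;> simp [S.X0, S.X1, S.X2, S.X3, S.X4]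

theorem exact_beta {x : P k 1 × P k 1} (hx : beta k x = 0) : ∃ y, eta k y = x := by
  have hx' : ∀ t, P.s x.1 * ba t + P.s x.2 * bb t = 0 := fun t => by
    rw [← beta_apply, hx]; rfl
  set s := P.s x.1 with hs
  set t := P.s x.2 with ht
  have e0 := hx' 0
  have e1 := hx' 1
  have e2 := hx' 2
  have e3 := hx' 3
  have e4 := hx' 4
  have e5 := hx' 5
  simp only [ba, bb, Matrix.cons_val] at e0 e1 e2 e3 e4 e5
  have a0 := congrArg S.x3 e0
  have a1 := congrArg S.y0 e0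
  have a2 := congrArg S.y1 e0
  have a3 := congrArg S.z e0
  have b0 := congrArg S.y0 e1
  have b1 := congrArg S.y2 e1
  have b2 := congrArg S.z e1
  have b3 := congrArg S.z e2
  have c0 := congrArg S.x0 e3
  have c1 := congrArg S.y0 e3
  have c2 := congrArg S.y1 e3
  have c3 := congrArg S.y2 e3
  have c4 := congrArg S.z e3
  have d0 := congrArg S.y0 e4
  have d1 := congrArg S.y1 e4
  have d2 := congrArg S.z e4
  have d3 := congrArg S.z e5
  simp [S.X0, S.X1, S.X2, S.X3, S.X4] at a0 a1 a2 a3 b0 b1 b2 b3 c0 c1 c2 c3 c4 d0 d1 d2 d3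
  refine ⟨P.of 2 ⟨s.x3, 0, s.y0, s.y1, t.y1, t.y2, 0, 0, 0, s.z, t.z, 0⟩, ?_⟩
  apply Prod.ext
  · apply P.ext
    rw [eta_fst]
    change _ = s
    ext <;> simp [S.X3, a0, a1, a2, a3, b0, b1]
    · linear_combination b2
    · linear_combination b3
  · apply P.ext
    rw [eta_snd]
    change _ = t
    ext <;> simp [S.X4, c0, c1, c2, d0, d1, d2]
    · linear_combination c3
    · linear_combination c4
    · linear_combination c4 + d3

/-! ### the modules -/

/-- `T1 = ker θ` (the fourth syzygy of `C 0`) -/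
noncomputable abbrev T1 (k : Type u) [Field k] : Submodule (Alg k) (Fin 6 → P k 3) :=
  LinearMap.ker (theta k)

/-- `T2 = P 2 p ⊆ P 1` -/
noncomputable abbrev T2 (k : Type u) [Field k] : Submodule (Alg k) (P k 1) := U k h21

/-- `T3 = coker β` (the second cosyzygy of `C 2`) -/
noncomputable abbrev T3 (k : Type u) [Field k] : Type u :=
  (Fin 6 → P k 0) ⧸ LinearMap.range (beta k)

noncomputable abbrev KX (k : Type u) [Field k] : Submodule (Alg k) (P k 2 × P k 2) :=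
  LinearMap.ker (xi k)

noncomputable abbrev Z3 (k : Type u) [Field k] : Type u :=
  (P k 1 × P k 1) ⧸ LinearMap.range (eta k)

/-- `ξ` with values in `V 0` -/
noncomputable def xi' (k : Type u) [Field k] : (P k 2 × P k 2) →ₗ[Alg k] V k h10 :=
  (xi k).codRestrict _ fun x => LinearMap.mem_ker.2 (rho_xi x)

theorem xi'_surj : Function.Surjective (xi' k) := by
  rintro ⟨x, hx⟩
  obtain ⟨y, hy⟩ := exact_xi hx
  exact ⟨y, Subtype.ext hy⟩

theorem xi'_exact : Function.Exact (KX k).subtype (xi' k) := by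
  intro x
  constructor
  · intro hx
    exact ⟨⟨x, LinearMap.mem_ker.2 (congrArg Subtype.val hx)⟩, rfl⟩
  · rintro ⟨⟨x, hx⟩, rfl⟩
    exact Subtype.ext (LinearMap.mem_ker.1 hx)

noncomputable def theta' (k : Type u) [Field k] : (Fin 6 → P k 3) →ₗ[Alg k] KX k :=
  (theta k).codRestrict _ fun x => LinearMap.mem_ker.2 (xi_theta x)

theorem theta'_surj : Function.Surjective (theta' k) := by
  rintro ⟨x, hx⟩
  obtain ⟨y, hy⟩ := exact_theta (LinearMap.mem_ker.1 hx)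
  exact ⟨y, Subtype.ext hy⟩

theorem theta'_exact : Function.Exact (T1 k).subtype (theta' k) := by
  intro x
  constructor
  · intro hx
    exact ⟨⟨x, LinearMap.mem_ker.2 (congrArg Subtype.val hx)⟩, rfl⟩
  · rintro ⟨⟨x, hx⟩, rfl⟩
    exact Subtype.ext (LinearMap.mem_ker.1 hx)

noncomputable def eta' (k : Type u) [Field k] : C k h32 →ₗ[Alg k] (P k 1 × P k 1) :=
  (U k h32).liftQ (eta k) (by
    rintro _ ⟨x, rfl⟩
    exact LinearMap.mem_ker.2 (eta_rho x))

theorem eta'_mk (x : P k 2) : eta' k ((U k h32).mkQ x) = eta k x := rfl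

theorem eta'_inj : Function.Injective (eta' k) := by
  rw [injective_iff_map_eq_zero]
  intro x hx
  obtain ⟨y, rfl⟩ := (U k h32).mkQ_surjective x
  rw [eta'_mk] at hx
  rw [Submodule.mkQ_apply, Submodule.Quotient.mk_eq_zero]
  exact exact_eta hx

theorem eta'_exact : Function.Exact (eta' k) (LinearMap.range (eta k)).mkQ := by
  intro x
  rw [Submodule.mkQ_apply, Submodule.Quotient.mk_eq_zero]
  constructor
  · rintro ⟨y, rfl⟩
    exact ⟨(U k h32).mkQ y, rfl⟩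
  · rintro ⟨y, rfl⟩
    obtain ⟨z, rfl⟩ := (U k h32).mkQ_surjective y
    exact ⟨z, rfl⟩

noncomputable def beta' (k : Type u) [Field k] : Z3 k →ₗ[Alg k] (Fin 6 → P k 0) :=
  (LinearMap.range (eta k)).liftQ (beta k) (by
    rintro _ ⟨x, rfl⟩
    exact LinearMap.mem_ker.2 (beta_eta x))

theorem beta'_mk (x : P k 1 × P k 1) : beta' k ((LinearMap.range (eta k)).mkQ x) = beta k x := rfl

theorem beta'_inj : Function.Injective (beta' k) := by
  rw [injective_iff_map_eq_zero]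
  intro x hx
  obtain ⟨y, rfl⟩ := (LinearMap.range (eta k)).mkQ_surjective x
  rw [beta'_mk] at hx
  rw [Submodule.mkQ_apply, Submodule.Quotient.mk_eq_zero]
  exact exact_beta hx

theorem beta'_exact : Function.Exact (beta' k) (LinearMap.range (beta k)).mkQ := by
  intro x
  rw [Submodule.mkQ_apply, Submodule.Quotient.mk_eq_zero]
  constructor
  · rintro ⟨y, rfl⟩
    exact ⟨(LinearMap.range (eta k)).mkQ y, rfl⟩
  · rintro ⟨y, rfl⟩
    obtain ⟨z, rfl⟩ := (LinearMap.range (eta k)).mkQ_surjective y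
    exact ⟨z, rfl⟩

end Pool.Agent.Helper8.Tilt
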